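import Mathlib

/-!
Short vectors of a subgroup of `Z^r` with few classes in a box (module for MP_3cf473_nt, HR).

`exists_coords`: a subspace of `K^r` is controlled by some coordinates, with slopes at most one.
`classes_lower`: a box of side `M` meets at least `M^(r - rank)` classes.
`short_vectors`: if a large box meets at most `A M^(r - rank)` classes, the subgroup is spanned
(over `ℚ`) by its vectors of sup norm at most `K(A, r)`.
-/

namespace Pool.Agent.H72.HR

open Finset Module

section coords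

variable {K : Type*} [Field K] [LinearOrder K] [IsStrictOrderedRing K]

/-- A subspace of `K^r` of dimension `rho` has `rho` coordinates such that every coordinate of a
vector of the subspace is at most the sum of the absolute values of these coordinates. -/
theorem exists_coords {r : ℕ} (V : Submodule K (Fin r → K)) :
    ∃ J : Finset (Fin r), J.card = finrank K V ∧ ∀ v ∈ V, ∀ i, |v i| ≤ ∑ j ∈ J, |v j| := by
  classical
  set ρ := finrank K V with hρ
  let bs : Basis (Fin ρ) K V := finBasis K V
  -- the matrix of the basis in the coordinates `J`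
  let Mx : (Fin ρ → Fin r) → Matrix (Fin ρ) (Fin ρ) K := fun J => Matrix.of fun a b => (bs a : Fin r → K) (J b)
  -- some `J` has nonzero determinant
  have hex : ∃ J : Fin ρ → Fin r, (Mx J).det ≠ 0 := by
    let B : Matrix (Fin ρ) (Fin r) K := Matrix.of fun a j => (bs a : Fin r → K) j
    have hli : LinearIndependent K B.row := by
      have h1 : LinearIndependent K (fun a => (bs a : Fin r → K)) := by
        have := bs.linearIndependent
        exact this.map' V.subtype (Submodule.ker_subtype V)
      exact h1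
    have hrank : B.rank = ρ := by
      have := hli.rank_matrix
      simpa using this
    have hcol : finrank K (Submodule.span K (Set.range B.col)) = ρ := by
      have h := hrank
      rw [Matrix.rank_eq_finrank_span_cols] at h
      exact h
    obtain ⟨κ, a, hainj, hspan, hind⟩ := exists_linearIndependent' K B.col
    have hfin : Finite κ := Finite.of_injective a hainj
    have := Fintype.ofFinite κ
    have hcard : Fintype.card κ = ρ := by
      rw [← hcol, ← hspan, finrank_span_eq_card hind]
    let e : Fin ρ ≃ κ := (Fintype.equivFinOfCardEq hcard).symm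
    refine ⟨fun b => a (e b), ?_⟩
    have hind2 : LinearIndependent K (fun b : Fin ρ => B.col (a (e b))) :=
      hind.comp e e.injective
    have hcols : LinearIndependent K (Mx (fun b => a (e b))).col := hind2
    have hu := Matrix.linearIndependent_cols_iff_isUnit.1 hcols
    exact ((Matrix.isUnit_iff_isUnit_det _).1 hu).ne_zero
  -- choose the largest
  obtain ⟨J, -, hJ⟩ := Finset.exists_max_image (Finset.univ : Finset (Fin ρ → Fin r))
    (fun J => |(Mx J).det|) ⟨hex.choose, Finset.mem_univ _⟩
  have hdet : (Mx J).det ≠ 0 := by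
    obtain ⟨J', hJ'⟩ := hex
    have := hJ J' (Finset.mem_univ _)
    intro h0
    rw [h0, abs_zero] at this
    exact hJ' (abs_eq_zero.1 (le_antisymm this (abs_nonneg _)))
  have hinj : Function.Injective J := by
    intro a b hab
    by_contra hne
    apply hdet
    apply Matrix.det_zero_of_column_eq hne
    intro k
    simp only [Mx, Matrix.of_apply, hab]
  refine ⟨Finset.univ.image J, ?_, ?_⟩
  · rw [Finset.card_image_of_injective _ hinj, Finset.card_univ, Fintype.card_fin]
  · intro v hv i
    rw [Finset.sum_image (fun a _ b _ h => hinj h)]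
    -- Cramer
    let colI : Fin ρ → K := fun a => (bs a : Fin r → K) i
    let c : Fin ρ → K := fun b => (Mx J).cramer colI b / (Mx J).det
    have hc : ∀ b, |c b| ≤ 1 := by
      intro b
      have h1 : (Mx J).cramer colI b = (Mx (Function.update J b i)).det := by
        rw [Matrix.cramer_apply]
        congr 1
        ext a b'
        simp only [Matrix.updateCol_apply, Mx, Matrix.of_apply, colI, Function.update_apply]
        split_ifs with h
        · rfl
        · rfl
      have h2 := hJ (Function.update J b i) (Finset.mem_univ _)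
      simp only [c, h1, abs_div]
      rw [div_le_one (abs_pos.2 hdet)]
      exact h2
    have hrow : ∀ a, ∑ b, (bs a : Fin r → K) (J b) * c b = (bs a : Fin r → K) i := by
      intro a
      have h1 := Matrix.mulVec_cramer (Mx J) colI
      have h2 := congrFun h1 a
      simp only [Matrix.mulVec, dotProduct, Mx, Matrix.of_apply, Pi.smul_apply, smul_eq_mul, colI] at h2
      have h3 : ∑ b, (bs a : Fin r → K) (J b) * c b
          = (∑ b, (bs a : Fin r → K) (J b) * (Mx J).cramer colI b) / (Mx J).det := by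
        rw [Finset.sum_div]
        refine Finset.sum_congr rfl fun b _ => ?_
        simp only [c]
        ring
      rw [h3]
      rw [div_eq_iff hdet]
      simp only [Mx, colI] at h2 ⊢
      rw [h2]
      ring
    have hvi : v i = ∑ b, v (J b) * c b := by
      have hrep := bs.sum_repr ⟨v, hv⟩
      have hrep2 : v = ∑ a, (bs.repr ⟨v, hv⟩ a) • (bs a : Fin r → K) := by
        have := congrArg (Subtype.val) hrep
        simp only [Submodule.coe_sum, Submodule.coe_smul] at this
        exact this.symm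
      have hvj : ∀ j, v j = ∑ a, (bs.repr ⟨v, hv⟩ a) * (bs a : Fin r → K) j := by
        intro j
        have := congrFun hrep2 j
        simpa [Finset.sum_apply] using this
      rw [hvj i]
      calc ∑ a, (bs.repr ⟨v, hv⟩ a) * (bs a : Fin r → K) i
          = ∑ a, (bs.repr ⟨v, hv⟩ a) * ∑ b, (bs a : Fin r → K) (J b) * c b := by
            refine Finset.sum_congr rfl fun a _ => ?_
            rw [hrow a]
        _ = ∑ b, (∑ a, (bs.repr ⟨v, hv⟩ a) * (bs a : Fin r → K) (J b)) * c b := by
            simp only [Finset.mul_sum, Finset.sum_mul]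
            rw [Finset.sum_comm]
            refine Finset.sum_congr rfl fun b _ => Finset.sum_congr rfl fun a _ => ?_
            ring
        _ = ∑ b, v (J b) * c b := by
            refine Finset.sum_congr rfl fun b _ => ?_
            rw [← hvj (J b)]
    rw [hvi]
    calc |∑ b, v (J b) * c b| ≤ ∑ b, |v (J b) * c b| := Finset.abs_sum_le_sum_abs _ _
      _ ≤ ∑ b, |v (J b)| := by
          refine Finset.sum_le_sum fun b _ => ?_
          rw [abs_mul]
          exact mul_le_of_le_one_right (abs_nonneg _) (hc b)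

end coords

/-- The `ℚ`-span of a set of integer vectors. -/
noncomputable def qspan {r : ℕ} (S : Set (Fin r → ℤ)) : Submodule ℚ (Fin r → ℚ) :=
  Submodule.span ℚ ((fun (v : Fin r → ℤ) (i : Fin r) => (v i : ℚ)) '' S)

theorem qspan_mono {r : ℕ} {S T : Set (Fin r → ℤ)} (h : S ⊆ T) : qspan S ≤ qspan T :=
  Submodule.span_mono (Set.image_mono h)

theorem cast_mem_qspan {r : ℕ} {S : Set (Fin r → ℤ)} {v : Fin r → ℤ} (h : v ∈ S) :
    (fun i => (v i : ℚ)) ∈ qspan S :=
  Submodule.subset_span ⟨v, h, rfl⟩

/-- The key construction: representatives of many classes.  `W` is a subspace which contains all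
the vectors of `Lam` of sup norm `< K`.  Then the box `[0, M)^r` contains
`m^(r - dim V) K^(r - dim W)` vectors of pairwise different classes, `V` the span of `Lam`, when
`(r + 1) K m ≤ M`. -/
theorem many_classes {r : ℕ} (Lam : AddSubgroup (Fin r → ℤ)) (W : Submodule ℚ (Fin r → ℚ))
    (K m M : ℕ) (hK : 0 < K) (hm : 0 < m) (hM : (r + 1) * K * m ≤ M)
    (hW : ∀ v ∈ Lam, (∀ i, |v i| < K) → (fun i => (v i : ℚ)) ∈ W) :
    ∃ T : Finset (Fin r → ℤ), (∀ v ∈ T, ∀ i, 0 ≤ v i ∧ v i < M) ∧
      (∀ v ∈ T, ∀ w ∈ T, v - w ∈ Lam → v = w) ∧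
      T.card = m ^ (r - finrank ℚ (qspan (Lam : Set (Fin r → ℤ)))) * K ^ (r - finrank ℚ W) := by
  classical
  set V := qspan (Lam : Set (Fin r → ℤ)) with hV
  obtain ⟨J, hJc, hJ⟩ := exists_coords V
  obtain ⟨I, hIc, hI⟩ := exists_coords W
  -- the vectors supported off J with entries in [0,m), and off I with entries in [0,K)
  let P : Finset (Fin r → ℤ) := Fintype.piFinset fun i => if i ∈ J then {0} else Finset.Ico (0:ℤ) m
  let Q : Finset (Fin r → ℤ) := Fintype.piFinset fun i => if i ∈ I then {0} else Finset.Ico (0:ℤ) K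
  have hPc : P.card = m ^ (r - finrank ℚ V) := by
    simp only [P, Fintype.card_piFinset]
    rw [← Finset.prod_filter_mul_prod_filter_not Finset.univ (fun i => i ∈ J)]
    have h1 : ∏ i ∈ Finset.univ.filter (fun i => i ∈ J), (if i ∈ J then ({0} : Finset ℤ) else Finset.Ico (0:ℤ) m).card = 1 := by
      refine Finset.prod_eq_one fun i hi => ?_
      rw [if_pos (Finset.mem_filter.1 hi).2]
      simp
    have h2 : ∏ i ∈ Finset.univ.filter (fun i => ¬ i ∈ J), (if i ∈ J then ({0} : Finset ℤ) else Finset.Ico (0:ℤ) m).card = m ^ (r - J.card) := by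
      rw [Finset.prod_congr rfl (g := fun _ => m)]
      · rw [Finset.prod_const]
        congr 1
        rw [Finset.filter_not, Finset.card_sdiff]
        simp
      · intro i hi
        rw [if_neg (Finset.mem_filter.1 hi).2]
        simp
    rw [h1, h2, one_mul, hJc]
  have hQc : Q.card = K ^ (r - finrank ℚ W) := by
    simp only [Q, Fintype.card_piFinset]
    rw [← Finset.prod_filter_mul_prod_filter_not Finset.univ (fun i => i ∈ I)]
    have h1 : ∏ i ∈ Finset.univ.filter (fun i => i ∈ I), (if i ∈ I then ({0} : Finset ℤ) else Finset.Ico (0:ℤ) K).card = 1 := by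
      refine Finset.prod_eq_one fun i hi => ?_
      rw [if_pos (Finset.mem_filter.1 hi).2]
      simp
    have h2 : ∏ i ∈ Finset.univ.filter (fun i => ¬ i ∈ I), (if i ∈ I then ({0} : Finset ℤ) else Finset.Ico (0:ℤ) K).card = K ^ (r - I.card) := by
      rw [Finset.prod_congr rfl (g := fun _ => K)]
      · rw [Finset.prod_const]
        congr 1
        rw [Finset.filter_not, Finset.card_sdiff]
        simp
      · intro i hi
        rw [if_neg (Finset.mem_filter.1 hi).2]
        simp
    rw [h1, h2, one_mul, hIc]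
  have hPm : ∀ p ∈ P, (∀ i, 0 ≤ p i ∧ (p i < m ∨ (p i = 0))) ∧ ∀ i ∈ J, p i = 0 := by
    intro p hp
    have h := Fintype.mem_piFinset.1 hp
    refine ⟨fun i => ?_, fun i hi => ?_⟩
    · have hi := h i
      split_ifs at hi with h'
      · rw [Finset.mem_singleton] at hi
        rw [hi]; exact ⟨le_refl _, Or.inr rfl⟩
      · rw [Finset.mem_Ico] at hi
        exact ⟨hi.1, Or.inl hi.2⟩
    · have hi' := h i
      rw [if_pos hi, Finset.mem_singleton] at hi'
      exact hi'
  have hQm : ∀ p ∈ Q, (∀ i, 0 ≤ p i ∧ p i < K) ∧ ∀ i ∈ I, p i = 0 := by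
    intro p hp
    have h := Fintype.mem_piFinset.1 hp
    refine ⟨fun i => ?_, fun i hi => ?_⟩
    · have hi := h i
      split_ifs at hi with h'
      · rw [Finset.mem_singleton] at hi
        rw [hi]; exact ⟨le_refl _, by exact_mod_cast hK⟩
      · rw [Finset.mem_Ico] at hi
        exact hi
    · have hi' := h i
      rw [if_pos hi, Finset.mem_singleton] at hi'
      exact hi'
  -- the key uniqueness
  have key : ∀ p ∈ P, ∀ p' ∈ P, ∀ q ∈ Q, ∀ q' ∈ Q,
      (fun i => ((r + 1) * K : ℤ) * p i + q i) - (fun i => ((r + 1) * K : ℤ) * p' i + q' i) ∈ Lam →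
      p = p' ∧ q = q' := by
    intro p hp p' hp' q hq q' hq' hmem
    have hVm := cast_mem_qspan (S := (Lam : Set (Fin r → ℤ))) hmem
    have hb := hJ _ hVm
    -- on J, the difference is q - q'
    have hsum : ∑ j ∈ J, |(((fun i => ((r + 1) * K : ℤ) * p i + q i) - (fun i => ((r + 1) * K : ℤ) * p' i + q' i)) j : ℚ)| ≤ r * (K - 1) := by
      have hle : ∀ j ∈ J, |(((fun i => ((r + 1) * K : ℤ) * p i + q i) - (fun i => ((r + 1) * K : ℤ) * p' i + q' i)) j : ℚ)| ≤ (K - 1 : ℚ) := by
        intro j hj
        have e1 : ((fun i => ((r + 1) * K : ℤ) * p i + q i) - (fun i => ((r + 1) * K : ℤ) * p' i + q' i)) j = q j - q' j := by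
          simp only [Pi.sub_apply, (hPm p hp).2 j hj, (hPm p' hp').2 j hj]
          ring
        rw [e1]
        have h1 := (hQm q hq).1 j
        have h2 := (hQm q' hq').1 j
        have h3 : |q j - q' j| ≤ (K : ℤ) - 1 := by
          rw [abs_le]; constructor <;> omega
        exact_mod_cast h3
      calc _ ≤ ∑ j ∈ J, (K - 1 : ℚ) := Finset.sum_le_sum hle
        _ = J.card * (K - 1 : ℚ) := by rw [Finset.sum_const, nsmul_eq_mul]
        _ ≤ r * (K - 1) := by
          have : J.card ≤ r := by
            have := Finset.card_le_univ J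
            simpa using this
          have hK1 : (0 : ℚ) ≤ K - 1 := by
            have : (1 : ℚ) ≤ K := by exact_mod_cast hK
            linarith
          have h4 : (J.card : ℚ) ≤ r := by exact_mod_cast this
          exact mul_le_mul_of_nonneg_right h4 hK1
    have hpp : p = p' := by
      funext i
      by_contra hne
      have hbi := (hb i).trans hsum
      have hbi' : |((r + 1) * K : ℤ) * (p i - p' i) + (q i - q' i)| ≤ r * ((K : ℤ) - 1) := by
        have e2 : ((fun i => ((r + 1) * K : ℤ) * p i + q i) - (fun i => ((r + 1) * K : ℤ) * p' i + q' i)) i = ((r + 1) * K : ℤ) * (p i - p' i) + (q i - q' i) := by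
          simp only [Pi.sub_apply]
          ring
        rw [e2] at hbi
        exact_mod_cast hbi
      have h1 := (hQm q hq).1 i
      have h2 := (hQm q' hq').1 i
      have hd : 1 ≤ |p i - p' i| := Int.one_le_abs (sub_ne_zero.2 hne)
      have hKz : (0 : ℤ) < K := by exact_mod_cast hK
      have h3 : ((r + 1) * K : ℤ) ≤ |((r + 1) * K : ℤ) * (p i - p' i)| := by
        rw [abs_mul]
        have : |((r + 1) * K : ℤ)| = (r + 1) * K := abs_of_nonneg (by positivity)
        rw [this]
        exact le_mul_of_one_le_right (by positivity) hd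
      have h4 : |q i - q' i| ≤ (K : ℤ) - 1 := by
        rw [abs_le]; constructor <;> omega
      have h5 : |((r + 1) * K : ℤ) * (p i - p' i)| ≤ |((r + 1) * K : ℤ) * (p i - p' i) + (q i - q' i)| + |q i - q' i| := by
        have := abs_sub (((r + 1) * K : ℤ) * (p i - p' i) + (q i - q' i)) (q i - q' i)
        simpa using this
      nlinarith
    refine ⟨hpp, ?_⟩
    subst hpp
    have e3 : (fun i => ((r + 1) * K : ℤ) * p i + q i) - (fun i => ((r + 1) * K : ℤ) * p i + q' i) = q - q' := by
      funext i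
      simp only [Pi.sub_apply]
      ring
    rw [e3] at hmem
    have hWm : (fun i => ((q - q') i : ℚ)) ∈ W := by
      apply hW _ hmem
      intro i
      have h1 := (hQm q hq).1 i
      have h2 := (hQm q' hq').1 i
      simp only [Pi.sub_apply]
      rw [abs_lt]; constructor <;> omega
    have hz := hI _ hWm
    have hzero : ∑ j ∈ I, |(((q - q') j : ℤ) : ℚ)| = 0 := by
      refine Finset.sum_eq_zero fun j hj => ?_
      simp only [Pi.sub_apply, (hQm q hq).2 j hj, (hQm q' hq').2 j hj]
      simp
    funext i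
    have h := hz i
    rw [hzero] at h
    have h' : (((q - q') i : ℤ) : ℚ) = 0 := abs_eq_zero.1 (le_antisymm h (abs_nonneg _))
    have h'' : (q - q') i = 0 := by exact_mod_cast h'
    simp only [Pi.sub_apply] at h''
    omega
  let f : (Fin r → ℤ) × (Fin r → ℤ) → (Fin r → ℤ) := fun x i => ((r + 1) * K : ℤ) * x.1 i + x.2 i
  refine ⟨(P ×ˢ Q).image f, ?_, ?_, ?_⟩
  · intro v hv i
    obtain ⟨x, hx, rfl⟩ := Finset.mem_image.1 hv
    obtain ⟨hx1, hx2⟩ := Finset.mem_product.1 hx
    have h1 := (hPm _ hx1).1 i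
    have h2 := (hQm _ hx2).1 i
    have hKz : (0 : ℤ) < K := by exact_mod_cast hK
    have hMz : ((r + 1) * K * m : ℤ) ≤ M := by exact_mod_cast hM
    simp only [f]
    refine ⟨by have := h1.1; have := h2.1; positivity, ?_⟩
    rcases h1.2 with h3 | h3
    · have h4 : x.1 i ≤ m - 1 := by omega
      have h5 : ((r + 1) * K : ℤ) * x.1 i ≤ ((r + 1) * K : ℤ) * (m - 1) :=
        mul_le_mul_of_nonneg_left h4 (by positivity)
      have h6 : (0:ℤ) ≤ r * K := by positivity
      nlinarith [h2.2]
    · rw [h3]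
      have hm1 : (1 : ℤ) ≤ m := by exact_mod_cast hm
      have h5 : ((r + 1) * K : ℤ) * 1 ≤ ((r + 1) * K : ℤ) * m :=
        mul_le_mul_of_nonneg_left hm1 (by positivity)
      have h6 : (0:ℤ) ≤ r * K := by positivity
      nlinarith [h2.2]
  · intro v hv w hw hvw
    obtain ⟨x, hx, rfl⟩ := Finset.mem_image.1 hv
    obtain ⟨y, hy, rfl⟩ := Finset.mem_image.1 hw
    obtain ⟨hx1, hx2⟩ := Finset.mem_product.1 hx
    obtain ⟨hy1, hy2⟩ := Finset.mem_product.1 hy
    obtain ⟨h1, h2⟩ := key _ hx1 _ hy1 _ hx2 _ hy2 hvw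
    simp only [f, h1, h2]
  · rw [Finset.card_image_of_injOn, Finset.card_product, hPc, hQc]
    intro x hx y hy hxy
    obtain ⟨hx1, hx2⟩ := Finset.mem_product.1 hx
    obtain ⟨hy1, hy2⟩ := Finset.mem_product.1 hy
    have : f x - f y ∈ Lam := by
      have hxy' : f x = f y := hxy
      rw [hxy', sub_self]; exact Lam.zero_mem
    obtain ⟨h1, h2⟩ := key _ hx1 _ hy1 _ hx2 _ hy2 this
    exact Prod.ext h1 h2

/-- A box of side `M` meets at least `M^(r - rank)` classes modulo a subgroup. -/
theorem classes_lower {r : ℕ} (Lam : AddSubgroup (Fin r → ℤ)) (M : ℕ) (hM : 0 < M) :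
    ∃ T : Finset (Fin r → ℤ), (∀ v ∈ T, ∀ i, 0 ≤ v i ∧ v i < M) ∧
      (∀ v ∈ T, ∀ w ∈ T, v - w ∈ Lam → v = w) ∧
      T.card = M ^ (r - finrank ℚ (qspan (Lam : Set (Fin r → ℤ)))) := by
  classical
  set V := qspan (Lam : Set (Fin r → ℤ)) with hV
  obtain ⟨J, hJc, hJ⟩ := exists_coords V
  let Q : Finset (Fin r → ℤ) := Fintype.piFinset fun i => if i ∈ J then {0} else Finset.Ico (0:ℤ) M
  have hQc : Q.card = M ^ (r - finrank ℚ V) := by
    simp only [Q, Fintype.card_piFinset]
    rw [← Finset.prod_filter_mul_prod_filter_not Finset.univ (fun i => i ∈ J)]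
    have h1 : ∏ i ∈ Finset.univ.filter (fun i => i ∈ J), (if i ∈ J then ({0} : Finset ℤ) else Finset.Ico (0:ℤ) M).card = 1 := by
      refine Finset.prod_eq_one fun i hi => ?_
      rw [if_pos (Finset.mem_filter.1 hi).2]
      simp
    have h2 : ∏ i ∈ Finset.univ.filter (fun i => ¬ i ∈ J), (if i ∈ J then ({0} : Finset ℤ) else Finset.Ico (0:ℤ) M).card = M ^ (r - J.card) := by
      rw [Finset.prod_congr rfl (g := fun _ => M)]
      · rw [Finset.prod_const]
        congr 1
        rw [Finset.filter_not, Finset.card_sdiff]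
        simp
      · intro i hi
        rw [if_neg (Finset.mem_filter.1 hi).2]
        simp
    rw [h1, h2, one_mul, hJc]
  have hQm : ∀ p ∈ Q, (∀ i, 0 ≤ p i ∧ p i < M) ∧ ∀ i ∈ J, p i = 0 := by
    intro p hp
    have h := Fintype.mem_piFinset.1 hp
    refine ⟨fun i => ?_, fun i hi => ?_⟩
    · have hi := h i
      split_ifs at hi with h'
      · rw [Finset.mem_singleton] at hi
        rw [hi]; exact ⟨le_refl _, by exact_mod_cast hM⟩
      · rw [Finset.mem_Ico] at hi
        exact hi
    · have hi' := h i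
      rw [if_pos hi, Finset.mem_singleton] at hi'
      exact hi'
  refine ⟨Q, fun v hv => (hQm v hv).1, ?_, hQc⟩
  intro v hv w hw hvw
  have hz := hJ _ (cast_mem_qspan (S := (Lam : Set (Fin r → ℤ))) hvw)
  have hzero : ∑ j ∈ J, |(((v - w) j : ℤ) : ℚ)| = 0 := by
    refine Finset.sum_eq_zero fun j hj => ?_
    simp only [Pi.sub_apply, (hQm v hv).2 j hj, (hQm w hw).2 j hj]
    simp
  funext i
  have h := hz i
  rw [hzero] at h
  have h' : (((v - w) i : ℤ) : ℚ) = 0 := abs_eq_zero.1 (le_antisymm h (abs_nonneg _))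
  have h'' : (v - w) i = 0 := by exact_mod_cast h'
  simp only [Pi.sub_apply] at h''
  omega

/-- Short vector lemma.  If a large box `[0, M)^r` meets at most `A M^(r - rank)` classes modulo
`Lam`, then `Lam` is spanned over `ℚ` by its vectors of sup norm at most `K`. -/
theorem short_vectors (r : ℕ) (A : ℝ) :
    ∃ K M0 : ℕ, ∀ (Lam : AddSubgroup (Fin r → ℤ)) (M : ℕ), M0 ≤ M →
      (∀ T : Finset (Fin r → ℤ), (∀ v ∈ T, ∀ i, 0 ≤ v i ∧ v i < M) →
        (∀ v ∈ T, ∀ w ∈ T, v - w ∈ Lam → v = w) →
        (T.card : ℝ) ≤ A * (M : ℝ) ^ (r - finrank ℚ (qspan (Lam : Set (Fin r → ℤ))))) →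
      qspan {v : Fin r → ℤ | v ∈ Lam ∧ ∀ i, |v i| ≤ K} = qspan (Lam : Set (Fin r → ℤ)) := by
  classical
  obtain ⟨K, hK⟩ := exists_nat_gt (|A| * (2 * (r + 1)) ^ r)
  have hK0 : 0 < K := by
    have h0 : (0 : ℝ) ≤ |A| * (2 * (r + 1)) ^ r := by positivity
    have : (0 : ℝ) < K := lt_of_le_of_lt h0 hK
    exact_mod_cast this
  refine ⟨K, (r + 1) * K, fun Lam M hM hT => ?_⟩
  set V := qspan (Lam : Set (Fin r → ℤ)) with hV
  set W := qspan {v : Fin r → ℤ | v ∈ Lam ∧ ∀ i, |v i| ≤ K} with hWdef
  have hWV : W ≤ V := qspan_mono fun v hv => hv.1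
  by_contra hne
  have hlt : finrank ℚ W < finrank ℚ V :=
    Submodule.finrank_lt_finrank_of_lt (lt_of_le_of_ne hWV hne)
  have hVr : finrank ℚ V ≤ r := by
    have := Submodule.finrank_le V
    simpa using this
  -- choose m
  set m := M / ((r + 1) * K) with hm
  have hpos : 0 < (r + 1) * K := by positivity
  have hm0 : 0 < m := Nat.div_pos hM hpos
  have hmM : (r + 1) * K * m ≤ M := Nat.mul_div_le M _
  have hMm : M < (r + 1) * K * (m + 1) := Nat.lt_mul_div_succ M hpos
  have hMm2 : (M : ℝ) ≤ 2 * (r + 1) * K * m := by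
    have h1 : M ≤ 2 * ((r + 1) * K) * m := by nlinarith
    have h2 : (M : ℝ) ≤ 2 * ((r + 1) * K) * m := by exact_mod_cast h1
    linarith
  obtain ⟨T, hT1, hT2, hT3⟩ := many_classes Lam W K m M hK0 hm0 hmM (fun v hv hb =>
    cast_mem_qspan (S := {v : Fin r → ℤ | v ∈ Lam ∧ ∀ i, |v i| ≤ K}) ⟨hv, fun i => (hb i).le⟩)
  have h1 := hT T hT1 hT2
  rw [hT3] at h1
  push_cast at h1
  set a := r - finrank ℚ V with ha
  have hab : r - finrank ℚ W = a + (finrank ℚ V - finrank ℚ W) := by omega
  set s := finrank ℚ V - finrank ℚ W with hs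
  have hs1 : 1 ≤ s := by omega
  rw [hab] at h1
  have har : a ≤ r := Nat.sub_le _ _
  have h2 : (m : ℝ) ^ a * (K : ℝ) ^ (a + s) ≤ |A| * (2 * (r + 1) * K * m) ^ a := by
    refine h1.trans ?_
    calc A * (M : ℝ) ^ a ≤ |A| * (M : ℝ) ^ a :=
          mul_le_mul_of_nonneg_right (le_abs_self A) (by positivity)
      _ ≤ |A| * (2 * (r + 1) * K * m) ^ a := by gcongr
  have hmp : (0 : ℝ) < (m : ℝ) ^ a := by positivity
  have hKp : (0 : ℝ) < (K : ℝ) ^ a := by positivity
  have h3 : (K : ℝ) ^ s ≤ |A| * (2 * (r + 1)) ^ a := by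
    have e1 : (m : ℝ) ^ a * (K : ℝ) ^ (a + s) = ((m : ℝ) ^ a * (K : ℝ) ^ a) * (K : ℝ) ^ s := by ring
    have e2 : |A| * (2 * ((r : ℝ) + 1) * K * m) ^ a = ((m : ℝ) ^ a * (K : ℝ) ^ a) * (|A| * (2 * (r + 1)) ^ a) := by
      rw [mul_pow, mul_pow]
      ring
    rw [e1, e2] at h2
    exact le_of_mul_le_mul_left h2 (by positivity)
  have h4 : (K : ℝ) ≤ (K : ℝ) ^ s := by
    have hK1 : (1 : ℝ) ≤ K := by exact_mod_cast hK0
    exact le_self_pow₀ hK1 (by omega)
  have h5 : |A| * (2 * ((r : ℝ) + 1)) ^ a ≤ |A| * (2 * (r + 1)) ^ r := by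
    have : (1 : ℝ) ≤ 2 * ((r : ℝ) + 1) := by
      have : (0 : ℝ) ≤ r := by positivity
      linarith
    gcongr
  linarith

end Pool.Agent.H72.HR
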