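import Pool.Agent.H72.HR.StabSplit

/-!
Tori cut out by monomials: exponential points, complementary coordinates, finite intersections
(module for MP_3cf473_nt, HR).
-/

namespace Pool.Agent.H72.HR

open Finset Module MvPolynomial

/-- The point `exp(u)` of `(ℂ^*)^d`. -/
noncomputable def ex {d : ℕ} (u : Fin d → ℂ) : Fin d → ℂˣ :=
  fun i => Units.mk0 (Complex.exp (u i)) (Complex.exp_ne_zero _)

theorem ex_add {d : ℕ} (u v : Fin d → ℂ) : ex (u + v) = ex u * ex v := by
  funext i
  apply Units.ext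
  simp [ex, Complex.exp_add]

theorem ex_neg {d : ℕ} (u : Fin d → ℂ) : ex (-u) = (ex u)⁻¹ := by
  funext i
  apply Units.ext
  simp [ex, Complex.exp_neg]

theorem ex_zero {d : ℕ} : ex (0 : Fin d → ℂ) = 1 := by
  funext i
  apply Units.ext
  simp [ex]

theorem zm_ex {d : ℕ} (u : Fin d → ℂ) (lam : Fin d → ℤ) :
    ((zm (ex u) lam : ℂˣ) : ℂ) = Complex.exp (∑ i, (lam i : ℂ) * u i) := by
  simp only [zm, ex, Units.coe_prod, Units.val_zpow_eq_zpow_val, Units.val_mk0]
  rw [Complex.exp_sum]
  refine Finset.prod_congr rfl fun i _ => ?_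
  rw [← Complex.exp_int_mul]

theorem exists_ex {d : ℕ} (z : Fin d → ℂˣ) : ∃ u : Fin d → ℂ, ex u = z := by
  refine ⟨fun i => Complex.log (z i), ?_⟩
  funext i
  apply Units.ext
  simp [ex, Complex.exp_log (z i).ne_zero]

/-- If the small elements of `Λ` cut out the same torus as `Λ`, they span `Λ` over `ℚ`. -/
theorem qspan_small {d D : ℕ} (Λ : AddSubgroup (Fin d → ℤ))
    (h : ∀ z : Fin d → ℂˣ, (∀ lam ∈ Λ, (∀ i, |lam i| ≤ D) → zm z lam = 1) →
      ∀ lam ∈ Λ, zm z lam = 1) :
    qspan {lam | lam ∈ Λ ∧ ∀ i, |lam i| ≤ D} = qspan (Λ : Set (Fin d → ℤ)) := by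
  refine le_antisymm (qspan_mono fun v hv => hv.1) ?_
  rw [qspan, Submodule.span_le]
  rintro _ ⟨lam, hlam, rfl⟩
  by_contra hne
  obtain ⟨φ, hφ1, hφ2⟩ := Submodule.exists_le_ker_of_notMem hne
  -- the functional as a vector
  let c : Fin d → ℚ := fun i => φ (Pi.single i 1)
  have hc : ∀ v : Fin d → ℚ, φ v = ∑ i, v i * c i := by
    intro v
    have h1 : v = ∑ i, v i • (Pi.single i 1 : Fin d → ℚ) := by
      funext j
      simp [Finset.sum_apply, Pi.single_apply]
    conv_lhs => rw [h1]
    rw [map_sum]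
    refine Finset.sum_congr rfl fun i _ => ?_
    rw [map_smul, smul_eq_mul]
  have hz := h (ex fun i => ((c i : ℚ) : ℂ)) ?_ lam hlam
  · have h1 := congrArg (fun u : ℂˣ => (u : ℂ)) hz
    simp only [Units.val_one] at h1
    rw [zm_ex] at h1
    have h2 : (∑ i, (lam i : ℂ) * ((c i : ℚ) : ℂ)) = (((∑ i, (lam i : ℚ) * c i : ℚ) : ℝ) : ℂ) := by
      push_cast
      rfl
    rw [h2, ← Complex.ofReal_exp, Complex.ofReal_eq_one, Real.exp_eq_one_iff] at h1
    have h3 : (∑ i, (lam i : ℚ) * c i : ℚ) = 0 := by exact_mod_cast h1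
    rw [← hc (fun i => (lam i : ℚ))] at h3
    exact hφ1 h3
  · intro mu hmu hb
    have h1 : φ (fun i => (mu i : ℚ)) = 0 := by
      have := hφ2 (cast_mem_qspan (S := {lam | lam ∈ Λ ∧ ∀ i, |lam i| ≤ (D : ℤ)}) ⟨hmu, hb⟩)
      exact this
    rw [hc] at h1
    apply Units.ext
    rw [zm_ex, Units.val_one]
    have h2 : (∑ i, (mu i : ℂ) * ((c i : ℚ) : ℂ)) = ((∑ i, (mu i : ℚ) * c i : ℚ) : ℂ) := by
      push_cast
      rfl
    rw [h2, h1]
    simp

/-- Coordinates on a subspace: `|J| = dim V`, the coordinates in `J` give an isomorphism. -/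
theorem exists_coords_iso {K : Type*} [Field K] [LinearOrder K] [IsStrictOrderedRing K] {d : ℕ}
    (V : Submodule K (Fin d → K)) :
    ∃ (J : Finset (Fin d)) (c : Fin d → Fin d → K), J.card = finrank K V ∧
      (∀ v ∈ V, ∀ i, v i = ∑ j ∈ J, c i j * v j) ∧
      (∀ j ∈ J, (fun i => c i j) ∈ V ∧ ∀ i ∈ J, c i j = if i = j then 1 else 0) := by
  classical
  obtain ⟨J, hJc, hJ⟩ := exists_coords V
  let ρ : V →ₗ[K] (J → K) := LinearMap.pi fun j => (LinearMap.proj (j : Fin d)).comp V.subtype
  have hinj : Function.Injective ρ := by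
    rw [← LinearMap.ker_eq_bot, LinearMap.ker_eq_bot']
    intro v hv
    have h1 : ∀ j ∈ J, (v : Fin d → K) j = 0 := fun j hj => congrFun hv ⟨j, hj⟩
    have h2 : ∑ j ∈ J, |(v : Fin d → K) j| = 0 :=
      Finset.sum_eq_zero fun j hj => by rw [h1 j hj, abs_zero]
    apply Subtype.ext
    funext i
    have h3 := hJ v v.2 i
    rw [h2] at h3
    exact abs_eq_zero.1 (le_antisymm h3 (abs_nonneg _))
  have hfr : finrank K V = finrank K (J → K) := by
    rw [finrank_fintype_fun_eq_card, Fintype.card_coe, hJc]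
  have hsurj : Function.Surjective ρ := (LinearMap.injective_iff_surjective_of_finrank_eq_finrank hfr).1 hinj
  choose g hg using fun j : J => hsurj (Pi.single j 1)
  refine ⟨J, fun i j => if h : j ∈ J then (g ⟨j, h⟩ : Fin d → K) i else 0, hJc, ?_, ?_⟩
  · intro v hv i
    have h1 : (⟨v, hv⟩ : V) = ∑ j : J, v j • g j := by
      apply hinj
      rw [map_sum]
      funext k
      simp only [map_smul, hg, Finset.sum_apply, Pi.smul_apply, smul_eq_mul, Pi.single_apply]
      simp [ρ]
    have h2 := congrFun (congrArg Subtype.val h1) i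
    simp only [Submodule.coe_sum, Submodule.coe_smul, Finset.sum_apply, Pi.smul_apply,
      smul_eq_mul] at h2
    rw [h2, ← Finset.sum_coe_sort J]
    refine Finset.sum_congr rfl fun j _ => ?_
    simp only [dif_pos j.2]
    ring
  · intro j hj
    constructor
    · have : (fun i => if h : j ∈ J then (g ⟨j, h⟩ : Fin d → K) i else 0) = (g ⟨j, hj⟩ : Fin d → K) := by
        funext i
        rw [dif_pos hj]
      rw [this]
      exact (g ⟨j, hj⟩).2
    · intro i hi
      simp only [dif_pos hj]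
      have := congrFun (hg ⟨j, hj⟩) ⟨i, hi⟩
      simp only [ρ, LinearMap.pi_apply, LinearMap.comp_apply, LinearMap.proj_apply,
        Submodule.subtype_apply, Pi.single_apply, Subtype.mk.injEq] at this
      exact this

/-- An element of the `ℚ`-span of a subgroup of `ℤ^d` has a positive multiple in the subgroup. -/
theorem exists_mul_mem {d : ℕ} (Λ : AddSubgroup (Fin d → ℤ)) {v : Fin d → ℚ}
    (hv : v ∈ qspan (Λ : Set (Fin d → ℤ))) :
    ∃ (m : ℕ) (lam : Fin d → ℤ), 0 < m ∧ lam ∈ Λ ∧ ∀ i, (lam i : ℚ) = m * v i := by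
  rw [qspan] at hv
  induction hv using Submodule.span_induction with
  | mem x hx =>
    obtain ⟨lam, hlam, rfl⟩ := hx
    exact ⟨1, lam, one_pos, hlam, fun i => by simp⟩
  | zero => exact ⟨1, 0, one_pos, Λ.zero_mem, fun i => by simp⟩
  | add x y _ _ hx hy =>
    obtain ⟨m, a, hm, ha, hax⟩ := hx
    obtain ⟨n, b, hn, hb, hby⟩ := hy
    refine ⟨m * n, n • a + m • b, Nat.mul_pos hm hn,
      Λ.add_mem (Λ.nsmul_mem ha n) (Λ.nsmul_mem hb m), fun i => ?_⟩
    have e : (n • a + m • b) i = (n : ℤ) * a i + (m : ℤ) * b i := by simp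
    rw [e]
    push_cast
    rw [hax, hby, Pi.add_apply]
    ring
  | smul c x _ hx =>
    obtain ⟨m, a, hm, ha, hax⟩ := hx
    refine ⟨m * c.den, c.num • a, Nat.mul_pos hm c.pos, Λ.zsmul_mem ha c.num, fun i => ?_⟩
    simp only [Pi.smul_apply, smul_eq_mul]
    push_cast
    rw [hax]
    have h1 : (c.den : ℚ) * c = c.num := by
      rw [mul_comm]; exact Rat.mul_den_eq_num c
    rw [← h1]
    ring

/-- Complementary coordinate torus: `T_Λ` meets it in a finite set, and together they give
everything. -/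
theorem torus_compl {d : ℕ} (Λ : AddSubgroup (Fin d → ℤ)) :
    ∃ J : Finset (Fin d), J.card = finrank ℚ (qspan (Λ : Set (Fin d → ℤ))) ∧
      {z : Fin d → ℂˣ | (∀ lam ∈ Λ, zm z lam = 1) ∧ ∀ j ∉ J, z j = 1}.Finite ∧
      (∀ u : Fin d → ℂ, (∀ lam ∈ Λ, ∑ i, (lam i : ℂ) * u i = 0) → (∀ j ∉ J, u j = 0) → u = 0) ∧
      (∀ u : Fin d → ℂ, ∃ u' : Fin d → ℂ, (∀ j ∉ J, u' j = 0) ∧
        ∀ lam ∈ Λ, ∑ i, (lam i : ℂ) * (u i - u' i) = 0) := by
  classical
  obtain ⟨J, c, hJc, hc1, hc2⟩ := exists_coords_iso (qspan (Λ : Set (Fin d → ℤ)))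
  -- for each j in J an element of Λ which is m e_j on J
  have hel : ∀ j ∈ J, ∃ (m : ℕ) (lam : Fin d → ℤ), 0 < m ∧ lam ∈ Λ ∧
      ∀ i ∈ J, lam i = if i = j then (m : ℤ) else 0 := by
    intro j hj
    obtain ⟨m, lam, hm, hlam, he⟩ := exists_mul_mem Λ (hc2 j hj).1
    refine ⟨m, lam, hm, hlam, fun i hi => ?_⟩
    have h1 := he i
    rw [(hc2 j hj).2 i hi] at h1
    split_ifs at h1 ⊢ with h
    · rw [mul_one] at h1; exact_mod_cast h1
    · rw [mul_zero] at h1; exact_mod_cast h1
  refine ⟨J, hJc, ?_, ?_, ?_⟩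
  · choose! m lam hm hlam hv using hel
    -- every coordinate is a root of unity of order m j (or 1)
    let N : Fin d → ℕ := fun j => if j ∈ J then m j else 1
    have hN : ∀ j, 0 < N j := by
      intro j
      simp only [N]
      split_ifs with h
      · exact hm j h
      · exact one_pos
    refine Set.Finite.subset (Set.Finite.pi' (t := fun j => {w : ℂˣ | w ^ N j = 1}) ?_) ?_
    · intro j
      have : Finite (rootsOfUnity (N j) ℂ) := by
        have : NeZero (N j) := ⟨(hN j).ne'⟩
        infer_instance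
      refine Set.Finite.subset (Set.toFinite ((rootsOfUnity (N j) ℂ : Subgroup ℂˣ) : Set ℂˣ)) ?_
      intro w hw
      exact (mem_rootsOfUnity _ _).2 hw
    · rintro z ⟨hz1, hz2⟩ j
      simp only [N, Set.mem_ofPred_eq]
      split_ifs with h
      · have h1 := hz1 _ (hlam j h)
        rw [zm, Finset.prod_eq_single j] at h1
        · rw [hv j h j h, if_pos rfl, zpow_natCast] at h1
          exact h1
        · intro i _ hij
          by_cases hi : i ∈ J
          · rw [hv j h i hi, if_neg hij, zpow_zero]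
          · rw [hz2 i hi, one_zpow]
        · intro h'; exact absurd (Finset.mem_univ _) h'
      · rw [hz2 j h, one_pow]
  · intro u hu1 hu2
    funext j
    by_cases hj : j ∈ J
    · obtain ⟨m, lam, hm, hlam, hv⟩ := hel j hj
      have h1 := hu1 lam hlam
      rw [Finset.sum_eq_single j] at h1
      · rw [hv j hj, if_pos rfl] at h1
        rcases mul_eq_zero.1 h1 with h2 | h2
        · exact absurd h2 (by exact_mod_cast hm.ne')
        · exact h2
      · intro i _ hij
        by_cases hi : i ∈ J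
        · rw [hv i hi, if_neg hij]; simp
        · rw [hu2 i hi, mul_zero]
      · intro h'; exact absurd (Finset.mem_univ _) h'
    · exact hu2 j hj
  · intro u
    refine ⟨fun j => if j ∈ J then ∑ i, ((c i j : ℚ) : ℂ) * u i else 0, fun j hj => if_neg hj, ?_⟩
    intro lam hlam
    have h1 : ∀ i, (lam i : ℂ) = ∑ j ∈ J, ((c i j : ℚ) : ℂ) * (lam j : ℂ) := by
      intro i
      have := hc1 _ (cast_mem_qspan (S := (Λ : Set (Fin d → ℤ))) hlam) i
      have h2 : ((lam i : ℚ) : ℂ) = ((∑ j ∈ J, c i j * (lam j : ℚ) : ℚ) : ℂ) := by rw [this]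
      push_cast at h2
      exact h2
    simp only [mul_sub, Finset.sum_sub_distrib]
    rw [sub_eq_zero]
    calc ∑ i, (lam i : ℂ) * u i = ∑ i, (∑ j ∈ J, ((c i j : ℚ) : ℂ) * (lam j : ℂ)) * u i := by
          refine Finset.sum_congr rfl fun i _ => ?_
          rw [← h1 i]
      _ = ∑ j ∈ J, (lam j : ℂ) * ∑ i, ((c i j : ℚ) : ℂ) * u i := by
          simp only [Finset.sum_mul, Finset.mul_sum]
          rw [Finset.sum_comm]
          refine Finset.sum_congr rfl fun j _ => Finset.sum_congr rfl fun i _ => ?_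
          ring
      _ = ∑ j, (lam j : ℂ) * (if j ∈ J then ∑ i, ((c i j : ℚ) : ℂ) * u i else 0) := by
          rw [← Finset.sum_subset (Finset.subset_univ J)]
          · refine Finset.sum_congr rfl fun j hj => ?_
            rw [if_pos hj]
          · intro j _ hj
            rw [if_neg hj, mul_zero]

/-- Complementary coordinates for a complex subspace. -/
theorem lin_compl {K : Type*} [Field K] {r : ℕ} (L : Submodule K (Fin r → K)) :
    ∃ I : Finset (Fin r), I.card + finrank K L = r ∧
      (∀ x ∈ L, (∀ i ∉ I, x i = 0) → x = 0) ∧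
      (∀ x : Fin r → K, ∃ x' : Fin r → K, (∀ i ∉ I, x' i = 0) ∧ x - x' ∈ L) := by
  classical
  let q : (Fin r → K) →ₗ[K] ((Fin r → K) ⧸ L) := L.mkQ
  let v : Fin r → ((Fin r → K) ⧸ L) := fun i => q (Pi.single i 1)
  have hspan : Submodule.span K (Set.range v) = ⊤ := by
    rw [eq_top_iff]
    intro y _
    obtain ⟨x, rfl⟩ := L.mkQ_surjective y
    have h1 : x = ∑ i, x i • (Pi.single i 1 : Fin r → K) := by
      funext j
      simp [Finset.sum_apply, Pi.single_apply]
    rw [h1, map_sum]
    refine Submodule.sum_mem _ fun i _ => ?_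
    rw [map_smul]
    exact Submodule.smul_mem _ _ (Submodule.subset_span ⟨i, rfl⟩)
  obtain ⟨κ, a, hainj, hsp, hind⟩ := exists_linearIndependent' K v
  have hfin : Finite κ := Finite.of_injective a hainj
  have := Fintype.ofFinite κ
  rw [hspan] at hsp
  let I : Finset (Fin r) := Finset.univ.image a
  have hIc : I.card = Fintype.card κ := by
    rw [Finset.card_image_of_injective _ hainj, Finset.card_univ]
  have hcard : Fintype.card κ + finrank K L = r := by
    have h1 : Fintype.card κ = finrank K ((Fin r → K) ⧸ L) := by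
      rw [← finrank_span_eq_card hind, hsp, finrank_top]
    have h2 := Submodule.finrank_quotient_add_finrank L
    rw [h1, h2]
    simp
  refine ⟨I, by rw [hIc]; exact hcard, ?_, ?_⟩
  · intro x hx hx0
    have h1 : q x = 0 := (Submodule.Quotient.mk_eq_zero L).2 hx
    have h2 : x = ∑ k : κ, x (a k) • (Pi.single (a k) 1 : Fin r → K) := by
      funext j
      rw [Finset.sum_apply]
      simp only [Pi.smul_apply, smul_eq_mul, Pi.single_apply]
      by_cases hj : j ∈ I
      · obtain ⟨k, -, rfl⟩ := Finset.mem_image.1 hj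
        rw [Finset.sum_eq_single k]
        · simp
        · intro b _ hb
          rw [if_neg (fun h => hb (hainj h).symm)]; simp
        · intro h'; exact absurd (Finset.mem_univ _) h'
      · rw [hx0 j hj]
        symm
        refine Finset.sum_eq_zero fun k _ => ?_
        rw [if_neg]
        · simp
        · rintro rfl
          exact hj (Finset.mem_image_of_mem _ (Finset.mem_univ _))
    rw [h2, map_sum] at h1
    simp only [map_smul] at h1
    have h3 := linearIndependent_iff'.1 hind Finset.univ (fun k => x (a k)) h1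
    rw [h2]
    refine Finset.sum_eq_zero fun k _ => ?_
    rw [h3 k (Finset.mem_univ _), zero_smul]
  · intro x
    have h1 : q x ∈ Submodule.span K (Set.range (v ∘ a)) := by rw [hsp]; trivial
    obtain ⟨c, hc⟩ := (Submodule.mem_span_range_iff_exists_fun K).1 h1
    refine ⟨∑ k : κ, c k • (Pi.single (a k) 1 : Fin r → K), ?_, ?_⟩
    · intro i hi
      rw [Finset.sum_apply]
      refine Finset.sum_eq_zero fun k _ => ?_
      simp only [Pi.smul_apply, smul_eq_mul, Pi.single_apply]
      rw [if_neg]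
      · simp
      · rintro rfl
        exact hi (Finset.mem_image_of_mem _ (Finset.mem_univ _))
    · rw [← Submodule.Quotient.mk_eq_zero L]
      have h2 : q (x - ∑ k : κ, c k • (Pi.single (a k) 1 : Fin r → K)) = 0 := by
        rw [map_sub, map_sum, sub_eq_zero, ← hc]
        refine Finset.sum_congr rfl fun k _ => ?_
        rw [map_smul]
        rfl
      exact h2

end Pool.Agent.H72.HR
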