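import Pool.Agent.H72.HR.Targets

open MvPolynomial Module

namespace Pool.Agent.H72.HR

section
variable {σ : Type} [Fintype σ] [DecidableEq σ] (κ : σ → Bool)

theorem eval_tr (g h : σ → ℂ) (f : MvPolynomial σ ℂ) :
    eval (pt κ h) (tr κ g f) = eval (pt κ (g + h)) f := by
  have : (aeval (pt κ h)).comp (tr κ g) = (aeval (pt κ (g + h)) : MvPolynomial σ ℂ →ₐ[ℂ] ℂ) := by
    apply MvPolynomial.algHom_ext
    intro i
    by_cases hi : κ i
    · simp [tr, pt, hi, Complex.exp_add]
    · simp [tr, pt, hi, add_comm]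
  have := congrArg (fun F : MvPolynomial σ ℂ →ₐ[ℂ] ℂ => F f) this
  simpa [MvPolynomial.coe_aeval_eq_eval] using this

theorem tr_tr (g h : σ → ℂ) (f : MvPolynomial σ ℂ) : tr κ g (tr κ h f) = tr κ (g + h) f := by
  have : (tr κ g).comp (tr κ h) = tr κ (g + h) := by
    apply MvPolynomial.algHom_ext
    intro i
    by_cases hi : κ i
    · simp [tr, hi, Complex.exp_add]; ring
    · simp [tr, hi]; ring
  exact congrArg (fun F : MvPolynomial σ ℂ →ₐ[ℂ] MvPolynomial σ ℂ => F f) this

theorem tr_zero (f : MvPolynomial σ ℂ) : tr κ 0 f = f := by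
  have : tr κ (0 : σ → ℂ) = AlgHom.id ℂ _ := by
    apply MvPolynomial.algHom_ext
    intro i
    by_cases hi : κ i
    · simp [tr, hi]
    · simp [tr, hi]
  exact congrArg (fun F : MvPolynomial σ ℂ →ₐ[ℂ] MvPolynomial σ ℂ => F f) this

theorem dv_X (v : σ → ℂ) (i : σ) : dv κ v (X i) = if κ i then C (v i) * X i else C (v i) := by
  simp [dv, mkDerivation_X]

theorem dv_C (v : σ → ℂ) (a : ℂ) : dv κ v (C a) = 0 := by
  simp [dv]

theorem tr_X (g : σ → ℂ) (i : σ) :
    tr κ g (X i) = if κ i then C (Complex.exp (g i)) * X i else X i + C (g i) := by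
  simp [tr]

theorem tr_C (g : σ → ℂ) (a : ℂ) : tr κ g (C a) = C a := by
  simp [tr]

theorem dv_tr (g v : σ → ℂ) (f : MvPolynomial σ ℂ) :
    dv κ v (tr κ g f) = tr κ g (dv κ v f) := by
  induction f using MvPolynomial.induction_on with
  | C a => simp [tr_C, dv_C]
  | add p q hp hq => simp [map_add, hp, hq]
  | mul_X p i hp =>
    rw [map_mul, Derivation.leibniz, Derivation.leibniz, hp]
    simp only [smul_eq_mul, map_add, map_mul]
    have hX : dv κ v (tr κ g (X i)) = tr κ g (dv κ v (X i)) := by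
      by_cases hi : κ i
      · simp [tr_X, dv_X, hi, dv_C, Derivation.leibniz, tr_C]; ring
      · simp [tr_X, dv_X, hi, dv_C, tr_C]
    rw [hX]

theorem dv_comm (v w : σ → ℂ) (f : MvPolynomial σ ℂ) :
    dv κ v (dv κ w f) = dv κ w (dv κ v f) := by
  induction f using MvPolynomial.induction_on with
  | C a => simp [dv_C]
  | add p q hp hq => simp [map_add, hp, hq]
  | mul_X p i hp =>
    simp only [Derivation.leibniz, smul_eq_mul, map_add, hp]
    by_cases hi : κ i
    · simp [dv_X, hi, dv_C, Derivation.leibniz]; ring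
    · simp [dv_X, hi, dv_C]; ring

theorem dv_add (v w : σ → ℂ) (f : MvPolynomial σ ℂ) :
    dv κ (v + w) f = dv κ v f + dv κ w f := by
  have : dv κ (v + w) = dv κ v + dv κ w := by
    apply MvPolynomial.derivation_ext
    intro i
    by_cases hi : κ i
    · simp [dv_X, hi]; ring
    · simp [dv_X, hi]
  rw [this]; rfl

theorem dv_smul (a : ℂ) (v : σ → ℂ) (f : MvPolynomial σ ℂ) :
    dv κ (a • v) f = a • dv κ v f := by
  have : dv κ (a • v) = a • dv κ v := by
    apply MvPolynomial.derivation_ext
    intro i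
    by_cases hi : κ i
    · simp [dv_X, hi, MvPolynomial.smul_eq_C_mul]; ring
    · simp [dv_X, hi, MvPolynomial.smul_eq_C_mul]
  rw [this]; rfl

theorem mem_box {T : σ → ℕ} {f : MvPolynomial σ ℂ} :
    f ∈ box T ↔ ∀ i, degreeOf i f ≤ T i := by
  unfold box
  rw [MvPolynomial.mem_restrictSupport_iff]
  constructor
  · intro h i
    rw [MvPolynomial.degreeOf_le_iff]
    intro m hm
    exact h hm i
  · intro h m hm i
    exact (MvPolynomial.degreeOf_le_iff.1 (h i)) m hm

theorem degreeOf_prod_le' {ι : Type} (s : Finset ι) (F : ι → MvPolynomial σ ℂ) (i : σ) :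
    degreeOf i (∏ j ∈ s, F j) ≤ ∑ j ∈ s, degreeOf i (F j) := by
  classical
  induction s using Finset.induction_on with
  | empty => simp
  | insert a s ha ih =>
    rw [Finset.prod_insert ha, Finset.sum_insert ha]
    exact (degreeOf_mul_le _ _ _).trans (Nat.add_le_add_left ih _)

theorem box_of_monomials {T : σ → ℕ} (Φ : MvPolynomial σ ℂ →ₗ[ℂ] MvPolynomial σ ℂ)
    (h : ∀ m : σ →₀ ℕ, (∀ i, m i ≤ T i) → Φ (monomial m 1) ∈ box T) :
    ∀ f ∈ box T, Φ f ∈ box T := by
  intro f hf
  have hf' : ∀ m ∈ f.support, ∀ i, m i ≤ T i := by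
    intro m hm i
    exact (MvPolynomial.degreeOf_le_iff.1 (mem_box.1 hf i)) m hm
  rw [f.as_sum, map_sum]
  refine Submodule.sum_mem _ fun m hm => ?_
  have : monomial m (f.coeff m) = f.coeff m • monomial m (1 : ℂ) := by
    rw [MvPolynomial.smul_monomial]; simp
  rw [this, map_smul]
  exact Submodule.smul_mem _ _ (h m (hf' m hm))

theorem tr_box {T : σ → ℕ} (g : σ → ℂ) : ∀ f ∈ box T, tr κ g f ∈ box T := by
  apply box_of_monomials (tr κ g).toLinearMap
  intro m hm
  rw [AlgHom.toLinearMap_apply, MvPolynomial.monomial_eq, map_mul, tr_C]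
  rw [Finsupp.prod_fintype _ _ (by simp), map_prod]
  rw [mem_box]
  intro i
  refine (degreeOf_C_mul_le _ _ _).trans ?_
  refine (degreeOf_prod_le' _ _ _).trans ?_
  refine le_trans (Finset.sum_le_sum (g := fun j => if i = j then m j else 0) fun j _ => ?_) ?_
  · rw [map_pow, tr_X]
    refine (degreeOf_pow_le _ _ _).trans ?_
    have h1 : degreeOf i (if κ j then C (Complex.exp (g j)) * X j else X j + C (g j)) ≤
        if i = j then 1 else 0 := by
      have hX : degreeOf i (X j : MvPolynomial σ ℂ) = if i = j then 1 else 0 := by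
        rw [MvPolynomial.degreeOf_X]
      split_ifs with h2 h3 h3
      · exact (degreeOf_C_mul_le _ _ _).trans (by rw [hX]; simp [h3])
      · exact (degreeOf_C_mul_le _ _ _).trans (by rw [hX]; simp [h3])
      · refine (degreeOf_add_le _ _ _).trans ?_
        rw [hX, degreeOf_C]; simp [h3]
      · refine (degreeOf_add_le _ _ _).trans ?_
        rw [hX, degreeOf_C]; simp [h3]
    refine (Nat.mul_le_mul_left _ h1).trans ?_
    split_ifs <;> simp
  · simp [hm i]

theorem dv_box {T : σ → ℕ} (v : σ → ℂ) : ∀ f ∈ box T, dv κ v f ∈ box T := by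
  apply box_of_monomials (dv κ v).toLinearMap
  intro m hm
  show dv κ v (monomial m 1) ∈ box T
  unfold dv
  rw [mkDerivation_monomial]
  refine Submodule.smul_mem _ _ ?_
  refine Submodule.sum_mem _ fun i hi => ?_
  simp only [smul_eq_mul]
  rw [mem_box]
  intro j
  have hmi : 1 ≤ m i := Nat.one_le_iff_ne_zero.2 (Finsupp.mem_support_iff.1 hi)
  have hmon : ∀ a : ℂ, degreeOf j (monomial (m - Finsupp.single i 1) a) ≤
      (m - Finsupp.single i 1 : σ →₀ ℕ) j := by
    intro a
    rw [MvPolynomial.degreeOf_le_iff]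
    intro m' hm'
    have := MvPolynomial.support_monomial_subset hm'
    rw [Finset.mem_singleton] at this
    rw [this]
  split_ifs with h
  · rw [mul_comm (C (v i)) (X i), ← mul_assoc]
    refine (degreeOf_mul_C_le _ _ _).trans ?_
    refine (degreeOf_mul_le _ _ _).trans ?_
    refine (Nat.add_le_add_right (hmon _) _).trans ?_
    rw [degreeOf_X]
    simp only [Finsupp.coe_tsub, Pi.sub_apply, Finsupp.single_apply]
    have := hm j
    by_cases hij : i = j
    · subst hij; simp; omega
    · have : ¬ j = i := fun h => hij h.symm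
      simp [hij, this, hm j]
  · refine (degreeOf_mul_C_le _ _ _).trans ?_
    refine (hmon _).trans ?_
    simp only [Finsupp.coe_tsub, Pi.sub_apply]
    exact (Nat.sub_le _ _).trans (hm j)

theorem hasDerivAt_eval (g v : σ → ℂ) (f : MvPolynomial σ ℂ) (t : ℂ) :
    HasDerivAt (fun t : ℂ => eval (pt κ (g + t • v)) f) (eval (pt κ (g + t • v)) (dv κ v f)) t := by
  induction f using MvPolynomial.induction_on with
  | C a => simpa [dv_C] using hasDerivAt_const t a
  | add p q hp hq =>
    simp only [map_add]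
    exact hp.add hq
  | mul_X p i hp =>
    have hX : HasDerivAt (fun t : ℂ => pt κ (g + t • v) i)
        (eval (pt κ (g + t • v)) (dv κ v (X i))) t := by
      have h1 : HasDerivAt (fun t : ℂ => g i + t * v i) (v i) t := by
        simpa using ((hasDerivAt_id t).mul_const (v i)).const_add (g i)
      by_cases hi : κ i
      · have h2 := h1.cexp
        simp only [dv_X, hi, if_true, map_mul, eval_C, eval_X]
        simp only [pt, hi, if_true, Pi.add_apply, Pi.smul_apply, smul_eq_mul]
        rw [mul_comm (v i)]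
        exact h2
      · simp only [dv_X, hi, eval_C, pt, Pi.add_apply, Pi.smul_apply, smul_eq_mul]
        simpa using h1
    have := hp.mul hX
    simp only [map_mul, eval_X, Derivation.leibniz, smul_eq_mul, map_add]
    refine HasDerivAt.congr_deriv this ?_
    ring

end

theorem cal : T_CAL := by
  intro σ _ _ κ
  exact ⟨eval_tr κ, tr_tr κ, tr_zero κ, dv_tr κ, dv_comm κ, dv_add κ, dv_smul κ,
    fun T g => tr_box κ g, fun T v => dv_box κ v, hasDerivAt_eval κ⟩

end Pool.Agent.H72.HR
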