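import Mathlib

open MvPolynomial

namespace Pool.Agent.H72.HR

noncomputable section

/-! ### the group `G_a^r × G_m^τ`, written additively (universal cover `Fin r ⊕ τ → ℂ`)

General index type `σ`, `κ i = true` for the multiplicative coordinates. -/

section
variable {σ : Type} [Fintype σ] [DecidableEq σ]

/-- the point of the group above `g` -/
def pt (κ : σ → Bool) (g : σ → ℂ) : σ → ℂ := fun i => if κ i then Complex.exp (g i) else g i

/-- translation by `g` -/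
def tr (κ : σ → Bool) (g : σ → ℂ) : MvPolynomial σ ℂ →ₐ[ℂ] MvPolynomial σ ℂ :=
  aeval (fun i => if κ i then C (Complex.exp (g i)) * X i else X i + C (g i))

/-- the invariant derivation in the direction `v` -/
def dv (κ : σ → Bool) (v : σ → ℂ) : Derivation ℂ (MvPolynomial σ ℂ) (MvPolynomial σ ℂ) :=
  mkDerivation ℂ (fun i => if κ i then C (v i) * X i else C (v i))

/-- polynomials of degree at most `T i` in the `i`-th variable -/
def box (T : σ → ℕ) : Submodule ℂ (MvPolynomial σ ℂ) :=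
  restrictSupport ℂ {m : σ →₀ ℕ | ∀ i, m i ≤ T i}

/-- all derivatives of order at most `a` of elements of `L` in the directions of `W` -/
def DW (κ : σ → Bool) (W : Submodule ℂ (σ → ℂ)) (L : Submodule ℂ (MvPolynomial σ ℂ)) :
    ℕ → Submodule ℂ (MvPolynomial σ ℂ)
  | 0 => L
  | (a + 1) => DW κ W L a ⊔ Submodule.span ℂ {f | ∃ w ∈ W, ∃ f' ∈ DW κ W L a, f = dv κ w f'}

/-- translates -/
def TL (κ : σ → Bool) (Γ : Set (σ → ℂ)) (L : Submodule ℂ (MvPolynomial σ ℂ)) :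
    Submodule ℂ (MvPolynomial σ ℂ) :=
  Submodule.span ℂ {f | ∃ γ ∈ Γ, ∃ f' ∈ L, f = tr κ γ f'}

/-- the chain of spaces -/
def chn (κ : σ → Bool) (W : Submodule ℂ (σ → ℂ)) (Γ : Set (σ → ℂ)) (S : ℕ)
    (P : MvPolynomial σ ℂ) : ℕ → Submodule ℂ (MvPolynomial σ ℂ)
  | 0 => Submodule.span ℂ {P}
  | (j + 1) => DW κ W (TL κ Γ (chn κ W Γ S P j)) S

/-- the stabiliser of a subspace -/
def stab (κ : σ → Bool) (N : Submodule ℂ (MvPolynomial σ ℂ)) : Set (σ → ℂ) :=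
  {g | ∀ f ∈ N, tr κ g f ∈ N}

/-- the translations which send `L` into `N` -/
def sig (κ : σ → Bool) (L N : Submodule ℂ (MvPolynomial σ ℂ)) : Set (σ → ℂ) :=
  {g | ∀ f ∈ L, tr κ g f ∈ N}

/-- group attached to a space `L` of additive directions and a set `Θ` of characters -/
def Grp (κ : σ → Bool) (L : Submodule ℂ (σ → ℂ)) (Θ : Set (σ → ℤ)) : Set (σ → ℂ) :=
  {g | (fun i => if κ i then 0 else g i) ∈ L ∧
    ∀ u ∈ Θ, Complex.exp (∑ i, (u i : ℂ) * g i) = 1}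

/-- its Lie algebra -/
def Lie (κ : σ → Bool) (L : Submodule ℂ (σ → ℂ)) (Θ : Set (σ → ℤ)) : Submodule ℂ (σ → ℂ) where
  carrier := {g | (fun i => if κ i then 0 else g i) ∈ L ∧ ∀ u ∈ Θ, ∑ i, (u i : ℂ) * g i = 0}
  add_mem' := by
    rintro a b ⟨ha, ha'⟩ ⟨hb, hb'⟩
    refine ⟨?_, fun u hu => ?_⟩
    · have := L.add_mem ha hb
      convert this using 1
      funext i
      by_cases h : κ i <;> simp [h]
    · simp only [Pi.add_apply, mul_add, Finset.sum_add_distrib, ha' u hu, hb' u hu, add_zero]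
  zero_mem' := by
    refine ⟨?_, fun u _ => by simp⟩
    convert L.zero_mem using 1
    funext i
    simp
  smul_mem' := by
    rintro c a ⟨ha, ha'⟩
    refine ⟨?_, fun u hu => ?_⟩
    · have := L.smul_mem c ha
      convert this using 1
      funext i
      by_cases h : κ i <;> simp [h]
    · have := ha' u hu
      simp only [Pi.smul_apply, smul_eq_mul]
      calc ∑ i, (u i : ℂ) * (c * a i) = c * ∑ i, (u i : ℂ) * a i := by
            rw [Finset.mul_sum]; exact Finset.sum_congr rfl fun i _ => by ring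
        _ = 0 := by rw [this, mul_zero]

/-- admissible data for a structure theorem: `L` has only additive coordinates, the characters
in `Θ` only multiplicative ones, of size at most `T` -/
structure Std (κ : σ → Bool) (T : σ → ℕ) (L : Submodule ℂ (σ → ℂ)) (Θ : Set (σ → ℤ)) : Prop where
  hL : ∀ g ∈ L, ∀ i, κ i = true → g i = 0
  hΘ : ∀ u ∈ Θ, ∀ i, κ i = false → u i = 0
  hT : ∀ u ∈ Θ, ∀ i, |u i| ≤ T i

/-- weight ideals at a point `g`: order of vanishing at least `(S+1) n` along all the curves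
`t ↦ g + t w + t^(S+1) v`, `w ∈ W` -/
def wt (κ : σ → Bool) (W : Submodule ℂ (σ → ℂ)) (S : ℕ) (g : σ → ℂ) (n : ℕ) :
    Set (MvPolynomial σ ℂ) :=
  {f | ∀ w ∈ W, ∀ v : σ → ℂ,
    (fun t : ℂ => eval (pt κ (g + t • w + t ^ (S + 1) • v)) f) =O[nhds 0]
      (fun t : ℂ => t ^ ((S + 1) * n))}

end

/-- the multiplicative coordinates of `ρ ⊕ τ` -/
def kap {ρ τ : Type} : ρ ⊕ τ → Bool := Sum.elim (fun _ => false) (fun _ => true)

/-- degrees `T0` in the additive, `T1` in the multiplicative variables -/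
def TT {ρ τ : Type} (T0 T1 : ℕ) : ρ ⊕ τ → ℕ := Sum.elim (fun _ => T0) (fun _ => T1)

/-! ### the analytic part -/

section
variable {ρ τ : Type} [Fintype ρ] [Fintype τ] [DecidableEq ρ] [DecidableEq τ]

/-- the generating vectors of the subspace
`W = {g | ∀ l, ∑ i, k i l * g (inl i) + ∑ a, E l a * g (inr a) = 0}` when `E l (ν l') = δ` -/
def om {c : ℕ} (ν : Fin c → τ) (k : ρ → Fin c → ℤ) (E : Fin c → τ → ℤ) : ρ ⊕ τ → (ρ ⊕ τ → ℂ)
  | Sum.inl i => Pi.single (Sum.inl i) 1 - ∑ l, Pi.single (Sum.inr (ν l)) (k i l : ℂ)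
  | Sum.inr a => Pi.single (Sum.inr a) 1 - ∑ l, Pi.single (Sum.inr (ν l)) (E l a : ℂ)

/-- the subspace `W` -/
def WW {c : ℕ} (k : ρ → Fin c → ℤ) (E : Fin c → τ → ℤ) : Submodule ℂ (ρ ⊕ τ → ℂ) :=
  LinearMap.ker (LinearMap.pi (fun l : Fin c =>
    (∑ i, (k i l : ℂ) • LinearMap.proj (R := ℂ) (φ := fun _ : ρ ⊕ τ => ℂ) (Sum.inl i)) +
    ∑ a, (E l a : ℂ) • LinearMap.proj (R := ℂ) (φ := fun _ : ρ ⊕ τ => ℂ) (Sum.inr a)))

/-- the fixed logarithms `Λ_{i,a} = ∑_k q_{k,i,a} λ_k` -/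
def Lam {n : ℕ} (lam : Fin n → ℂ) (q : Fin n → ρ → τ → ℤ) (i : ρ) (a : τ) : ℂ :=
  ∑ k, (q k i a : ℂ) * lam k

/-- the points `γ_s` -/
def gam {n : ℕ} (lam : Fin n → ℂ) (q : Fin n → ρ → τ → ℤ) (s : ρ → ℤ) : ρ ⊕ τ → ℂ :=
  Sum.elim (fun i => (s i : ℂ)) (fun a => ∑ i, (s i : ℂ) * Lam lam q i a)

/-- the vectors `y_i = π(e_i, Λ_i)` -/
def yy {n c : ℕ} (lam : Fin n → ℂ) (q : Fin n → ρ → τ → ℤ) (k : ρ → Fin c → ℤ)
    (E : Fin c → τ → ℤ) (i : ρ) (l : Fin c) : ℂ :=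
  (k i l : ℂ) + ∑ a, (E l a : ℂ) * Lam lam q i a

end

/-! ### the pencils -/

section
variable {n l c : ℕ}

/-- value of the pencil -/
def Mv (lam : Fin n → ℂ) (A : Fin (n + 1) → Matrix (Fin l) (Fin c) ℤ) :
    Matrix (Fin l) (Fin c) ℂ :=
  fun p j => (A 0 p j : ℂ) + ∑ k : Fin n, lam k * (A k.succ p j : ℂ)

/-- row vectors sent by the pencil into `U` -/
def Xi (K : Set (Fin n)) (A : Fin (n + 1) → Matrix (Fin l) (Fin c) ℤ)
    (U : Submodule ℚ (Fin c → ℚ)) : Submodule ℚ (Fin l → ℚ) :=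
  (U.comap (Matrix.vecMulLinear ((A 0).map (Int.cast : ℤ → ℚ)))) ⊓
    ⨅ k ∈ K, U.comap (Matrix.vecMulLinear ((A (Fin.succ k)).map (Int.cast : ℤ → ℚ)))

/-- semistability of the pencil `A_0 + ∑_{k ∈ K} X_k A_k` -/
def Semi (K : Set (Fin n)) (A : Fin (n + 1) → Matrix (Fin l) (Fin c) ℤ) : Prop :=
  ∀ U : Submodule ℚ (Fin c → ℚ),
    c * Module.finrank ℚ (Xi K A U) ≤ l * Module.finrank ℚ U

/-- relations of `λ` modulo `2πi` involve no index of `K` -/
def MI (lam : Fin n → ℂ) (K : Set (Fin n)) : Prop :=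
  ∀ m : Fin n → ℤ, Complex.exp (∑ k, (m k : ℂ) * lam k) = 1 → ∀ k ∈ K, m k = 0

end

/-- THE HALF RANK THEOREM with polynomial loss, general form -/
def HRG : Prop :=
  ∀ (n : ℕ) (lam : Fin n → ℂ) (K : Set (Fin n)), (∀ k, IsAlgebraic ℚ (Complex.exp (lam k))) →
    MI lam K → ∀ l c : ℕ, ∃ C : ℝ, 0 < C ∧ ∀ H : ℝ, 2 ≤ H →
    ∀ A : Fin (n + 1) → Matrix (Fin l) (Fin c) ℤ, (∀ k p j, |(A k p j : ℝ)| ≤ H) →
      Semi K A → ∃ (m : ℕ) (I : Fin m → Fin l) (J : Fin m → Fin c), l * c ≤ m * (l + c) ∧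
        1 ≤ H ^ C * ‖((Mv lam A).submatrix I J).det‖

end

end Pool.Agent.H72.HR
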