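import Pool.Agent.H72.HR.Targets

open MvPolynomial Module

namespace Pool.Agent.H72.HR

open Pool.Agent.H72.BF (RP Gf)

noncomputable section

/-! ### the auxiliary polynomial, number level -/

/-- index set of the unknowns: Feldman polynomials of index `< h * L`, exponents `< T1` -/
abbrev Ux (ρ τ : Type) (h L T1 : ℕ) := (ρ → Fin h × Fin L) × (τ → Fin T1)

section
variable {ρ τ : Type} [Fintype ρ] [Fintype τ] [DecidableEq ρ] [DecidableEq τ]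
variable {n c w h L T1 : ℕ}

/-- the Feldman polynomial of the `i`-th variable -/
def rp (u : Ux ρ τ h L T1) (i : ρ) : Polynomial ℂ := RP h (u.1 i).1 (u.1 i).2

/-- the basis polynomials -/
def bas (u : Ux ρ τ h L T1) : MvPolynomial (ρ ⊕ τ) ℂ :=
  (∏ i, Polynomial.aeval (X (Sum.inl i) : MvPolynomial (ρ ⊕ τ) ℂ) (rp u i)) *
    ∏ a, X (Sum.inr a) ^ (u.2 a : ℕ)

/-- `κ_i · μ''` -/
def km (ν : Fin c → τ) (k : ρ → Fin c → ℤ) (u : Ux ρ τ h L T1) (i : ρ) : ℤ :=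
  ∑ l, k i l * (u.2 (ν l) : ℕ)

/-- `g_a(u) = μ_a - E_a · μ''` -/
def ga (ν : Fin c → τ) (E : Fin c → τ → ℤ) (u : Ux ρ τ h L T1) (a : τ) : ℤ :=
  (u.2 a : ℕ) - ∑ l, E l a * (u.2 (ν l) : ℕ)

/-- `θ_i(u)` -/
def th (lam : Fin n → ℂ) (q : Fin n → ρ → τ → ℤ) (u : Ux ρ τ h L T1) (i : ρ) : ℂ :=
  ∑ a, ((u.2 a : ℕ) : ℂ) * Lam lam q i a

/-- `y_{I j} · μ''` -/
def ym (lam : Fin n → ℂ) (q : Fin n → ρ → τ → ℤ) (ν : Fin c → τ) (k : ρ → Fin c → ℤ)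
    (E : Fin c → τ → ℤ) (I : Fin w → ρ) (u : Ux ρ τ h L T1) (j : Fin w) : ℂ :=
  ∑ l, yy lam q k E (I j) l * ((u.2 (ν l) : ℕ) : ℂ)

/-- the values of the derivatives of the auxiliary polynomial at the points `γ_s` -/
def vl (lam : Fin n → ℂ) (q : Fin n → ρ → τ → ℤ) (ν : Fin c → τ) (k : ρ → Fin c → ℤ)
    (E : Fin c → τ → ℤ) (p : Ux ρ τ h L T1 → ℤ) (x : ρ → ℕ) (y : τ → ℕ) (s : ρ → ℤ) : ℂ :=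
  ∑ u, (p u : ℂ) * (∏ i, (Gf 1 (-(km ν k u i : ℂ)) (rp u i) (x i)).eval (s i : ℂ)) *
    (∏ a, (ga ν E u a : ℂ) ^ y a) * Complex.exp (∑ i, (s i : ℂ) * th lam q u i)

/-- the Taylor coefficients at `0` of `P(x) e^{θ x}` -/
def tc (P : Polynomial ℂ) (θ : ℂ) (k : ℕ) : ℂ :=
  ∑ j ∈ Finset.range (k + 1), P.coeff j * θ ^ (k - j) / (k - j).factorial

/-- the coefficients of the linear forms made small by the pigeonhole principle (`ϱ` scales the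
Taylor coefficients) -/
def cfu (ϱ : ℝ) (lam : Fin n → ℂ) (q : Fin n → ρ → τ → ℤ) (ν : Fin c → τ) (k : ρ → Fin c → ℤ)
    (E : Fin c → τ → ℤ) (I : Fin w → ρ) (y : τ → ℕ) (z : Fin w → ℕ) (x : ρ → ℕ)
    (u : Ux ρ τ h L T1) : ℂ :=
  (∏ a, (ga ν E u a : ℂ) ^ y a) * (∏ j, ym lam q ν k E I u j ^ z j) *
    ∏ i, (tc (rp u i) (th lam q u i) (x i) * (ϱ : ℂ) ^ x i)

end

/-! ### targets -/

/-- values of the derivatives of the basis polynomials -/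
def T_VAL : Prop := ∀ (ρ τ : Type) [Fintype ρ] [Fintype τ] [DecidableEq ρ] [DecidableEq τ]
  (c h L T1 : ℕ) (ν : Fin c → τ) (k : ρ → Fin c → ℤ) (E : Fin c → τ → ℤ) (u : Ux ρ τ h L T1)
  (l : List (ρ ⊕ τ)) (g : ρ ⊕ τ → ℂ),
  eval (pt kap g) (l.foldr (fun a f => dv kap (om ν k E a) f) (bas u)) =
    (∏ i, (Gf 1 (-(km ν k u i : ℂ)) (rp u i) (l.count (Sum.inl i))).eval (g (Sum.inl i))) *
    (∏ a, (ga ν E u a : ℂ) ^ l.count (Sum.inr a)) *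
    Complex.exp (∑ a, ((u.2 a : ℕ) : ℂ) * g (Sum.inr a))

/-- the basis polynomials are in the box and linearly independent -/
def T_LIB : Prop := ∀ (ρ τ : Type) [Fintype ρ] [Fintype τ] [DecidableEq ρ] [DecidableEq τ]
  (h L T1 : ℕ), 1 ≤ h → 1 ≤ L → 1 ≤ T1 →
  (∀ u : Ux ρ τ h L T1, bas u ∈ box (TT (h * L) T1)) ∧
  ∀ p : Ux ρ τ h L T1 → ℤ, ∑ u, (p u : ℂ) • bas u = 0 → p = 0

/-- Liouville inequality for the values -/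
def T_LVL : Prop := ∀ (n : ℕ) (lam : Fin n → ℂ), (∀ k, IsAlgebraic ℚ (Complex.exp (lam k))) →
  ∀ (ρ τ : Type) [Fintype ρ] [Fintype τ] [DecidableEq ρ] [DecidableEq τ] (c : ℕ)
  (q : Fin n → ρ → τ → ℤ) (C0 : ℝ), ∃ (k0 : ℕ) (c0 : ℝ), 0 < c0 ∧
  ∀ A B Q : ℕ, A ≤ Q → 1 ≤ B → B ≤ Q → ∃ g0 : ℕ, ∀ g : ℕ, g0 ≤ g → ∃ h0 : ℕ, ∀ h : ℕ, h0 ≤ h →
  ∀ (ν : Fin c → τ) (k : ρ → Fin c → ℤ) (E : Fin c → τ → ℤ),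
  (∀ i l, |(k i l : ℝ)| ≤ Real.exp (C0 * h)) → (∀ l a, |(E l a : ℝ)| ≤ Real.exp (C0 * h)) →
  ∀ (p : Ux ρ τ h (g ^ (Q - B)) (g ^ (Q - A)) → ℤ) (Z : ℝ), 1 ≤ Z → (∀ u, |(p u : ℝ)| ≤ Z) →
  ∀ (x : ρ → ℕ) (y : τ → ℕ) (s : ρ → ℤ), ∑ i, x i + ∑ a, y a ≤ g ^ Q →
  (∀ i, 0 ≤ s i ∧ s i ≤ h * g ^ A) → vl lam q ν k E p x y s ≠ 0 →
  1 ≤ Z ^ k0 * Real.exp (c0 * (h * g ^ Q)) * ‖vl lam q ν k E p x y s‖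

/-- size of the coefficients of the linear forms -/
def T_CFU : Prop := ∀ (n : ℕ) (lam : Fin n → ℂ) (ρ τ : Type) [Fintype ρ] [Fintype τ]
  [DecidableEq ρ] [DecidableEq τ] (c w : ℕ) (q : Fin n → ρ → τ → ℤ) (C0 : ℝ),
  ∃ c0 : ℝ, 0 < c0 ∧ ∀ A B Q : ℕ, A ≤ Q → 1 ≤ B → B ≤ Q → ∃ g0 : ℕ, ∀ g : ℕ, g0 ≤ g →
  ∃ h0 : ℕ, ∀ h : ℕ, h0 ≤ h →
  ∀ (ν : Fin c → τ) (k : ρ → Fin c → ℤ) (E : Fin c → τ → ℤ),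
  (∀ i l, |(k i l : ℝ)| ≤ Real.exp (C0 * h)) → (∀ l a, |(E l a : ℝ)| ≤ Real.exp (C0 * h)) →
  ∀ (I : Fin w → ρ) (y : τ → ℕ) (z : Fin w → ℕ) (x : ρ → ℕ)
  (u : Ux ρ τ h (g ^ (Q - B)) (g ^ (Q - A))), (∀ a, y a ≤ g ^ Q) → (∀ j, z j ≤ g ^ Q) →
  ‖cfu (4 * (h * g ^ A)) lam q ν k E I y z x u‖ ≤ Real.exp (c0 * (h * g ^ Q))

/-- Taylor expansion of `P(x) e^{θ x}` and of its derivatives -/
def T_TSM : Prop := ∀ (P : Polynomial ℂ) (θ s : ℂ) (k : ℕ),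
  HasSum (fun j : ℕ => tc P θ j * (j.descFactorial k : ℂ) * s ^ (j - k))
    ((Gf 1 θ P k).eval s * Complex.exp (θ * s))

/-- size of the Taylor coefficients for Feldman polynomials -/
def T_TCB : Prop := ∃ c0 : ℝ, 0 < c0 ∧ ∀ (h L m l N : ℕ) (R : ℝ) (θ : ℂ),
  1 ≤ h → m ≤ h → l + 1 ≤ L → 1 ≤ R →
  (∑ j ∈ Finset.range N, ‖tc (RP h m l) θ j‖ * (R * h) ^ j) ≤
    Real.exp (c0 * (h * L * (1 + Real.log R) + ‖θ‖ * (R * h)))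

/-- the values are small when the linear forms are small -/
def T_SML : Prop := ∀ (n : ℕ) (lam : Fin n → ℂ) (ρ τ : Type) [Fintype ρ] [Fintype τ]
  [DecidableEq ρ] [DecidableEq τ] (c w : ℕ) (q : Fin n → ρ → τ → ℤ) (C0 : ℝ),
  ∃ c0 : ℝ, 0 < c0 ∧ ∀ A B Q : ℕ, A ≤ Q → 1 ≤ B → B ≤ Q → ∃ g0 : ℕ, ∀ g : ℕ, g0 ≤ g →
  ∃ h0 : ℕ, ∀ h : ℕ, h0 ≤ h →
  ∀ (ν : Fin c → τ) (k : ρ → Fin c → ℤ) (E : Fin c → τ → ℤ),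
  (∀ l l', E l (ν l') = if l = l' then 1 else 0) →
  (∀ i l, |(k i l : ℝ)| ≤ Real.exp (C0 * h)) → (∀ l a, |(E l a : ℝ)| ≤ Real.exp (C0 * h)) →
  ∀ (I : Fin w → ρ) (b : ρ → Fin w → ℂ) (ε : ℝ), (∀ i j, ‖b i j‖ ≤ Real.exp (C0 * h)) →
  0 ≤ ε → ε ≤ 1 → (∀ i l, ‖yy lam q k E i l - ∑ j, b i j * yy lam q k E (I j) l‖ ≤ ε) →
  ∀ (p : Ux ρ τ h (g ^ (Q - B)) (g ^ (Q - A)) → ℤ) (Z δ : ℝ) (X : ℕ), 1 ≤ Z → 0 ≤ δ →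
  (∀ u, |(p u : ℝ)| ≤ Z) →
  (∀ (y : τ → ℕ) (z : Fin w → ℕ) (x : ρ → ℕ), (∀ l, y (ν l) = 0) → (∀ a, y a ≤ g ^ Q) →
    (∀ j, z j ≤ g ^ Q) → (∀ i, x i < X * (h * g ^ Q)) →
    ‖∑ u, (p u : ℂ) * cfu (4 * (h * g ^ A)) lam q ν k E I y z x u‖ ≤ δ) →
  ∀ (x : ρ → ℕ) (y : τ → ℕ) (s : ρ → ℤ), ∑ i, x i + ∑ a, y a ≤ g ^ Q →
  (∀ i, 0 ≤ s i ∧ s i ≤ h * g ^ A) →
  ‖vl lam q ν k E p x y s‖ ≤
    Real.exp (c0 * (h * g ^ Q)) * (δ + Z * Real.exp (-(X * (h * g ^ Q))) + Z * ε)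

end

end Pool.Agent.H72.HR
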