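import Pool.Agent.H72.HR.Targets

open MvPolynomial Module

set_option linter.unusedSectionVars false

namespace Pool.Agent.H72.HR

/-- rational vectors which are independent over `ℚ` are independent over `ℂ` -/
theorem li_cast {ι α : Type} [Finite ι] (v : α → ι → ℚ) (h : LinearIndependent ℚ v) :
    LinearIndependent ℂ (fun a (i : ι) => ((v a i : ℚ) : ℂ)) := by
  classical
  cases nonempty_fintype ι
  rw [linearIndependent_iff'] at h ⊢
  intro s g hg a ha
  -- basis of ℂ over ℚ
  let B := Module.Basis.ofVectorSpace ℚ ℂ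
  have key : ∀ t, ∀ a ∈ s, B.repr (g a) t = 0 := by
    intro t
    apply h s (fun a => B.repr (g a) t)
    funext i
    have h1 := congrFun hg i
    simp only [Finset.sum_apply, Pi.smul_apply, smul_eq_mul, Pi.zero_apply] at h1 ⊢
    have h2 := congrArg (fun z => B.repr z t) h1
    simp only [map_sum, Finsupp.coe_finset_sum, Finset.sum_apply, map_zero, Finsupp.coe_zero,
      Pi.zero_apply] at h2
    rw [← h2]
    refine Finset.sum_congr rfl fun a _ => ?_
    have : g a * ((v a i : ℚ) : ℂ) = (v a i : ℚ) • g a := by
      rw [Rat.smul_def, mul_comm]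
    rw [this, map_smul]
    simp [mul_comm]
  have : B.repr (g a) = 0 := by
    ext t
    exact key t a ha
  simpa using this

/-- a rational subspace whose vectors lie in a complex subspace -/
theorem finrank_le_cast {ι : Type} [Finite ι] (U : Submodule ℚ (ι → ℚ)) (V : Submodule ℂ (ι → ℂ))
    (h : ∀ v ∈ U, (fun i => ((v i : ℚ) : ℂ)) ∈ V) : finrank ℚ U ≤ finrank ℂ V := by
  classical
  let b := Module.finBasis ℚ U
  have h1 : LinearIndependent ℚ (fun a => ((b a : U) : ι → ℚ)) := by
    have := b.linearIndependent.map' U.subtype (by simp)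
    exact this
  have h2 := li_cast _ h1
  let f : Fin (finrank ℚ U) → V := fun a => ⟨fun i => (((b a : U) : ι → ℚ) i : ℂ), h _ (b a).2⟩
  have h3 : LinearIndependent ℂ f := by
    apply LinearIndependent.of_comp V.subtype
    exact h2
  have := h3.fintype_card_le_finrank
  simpa using this

/-- complex solutions of a rational linear system -/
theorem finrank_sol {ι : Type} [Fintype ι] (Θ : Set (ι → ℤ)) (U : Submodule ℚ (ι → ℚ))
    (hU : ∀ v, v ∈ U ↔ ∀ u ∈ Θ, ∑ x, (u x : ℚ) * v x = 0) (V : Submodule ℂ (ι → ℂ))
    (hV : ∀ v ∈ V, ∀ u ∈ Θ, ∑ x, (u x : ℂ) * v x = 0) : finrank ℂ V ≤ finrank ℚ U := by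
  classical
  let b := Module.finBasis ℚ U
  let B := Module.Basis.ofVectorSpace ℚ ℂ
  let cst : Fin (finrank ℚ U) → ι → ℂ := fun a i => (((b a : U) : ι → ℚ) i : ℂ)
  have hle : V ≤ Submodule.span ℂ (Set.range cst) := by
    intro v hv
    -- the coordinates
    have h1 : ∀ t, (fun i => B.repr (v i) t) ∈ U := by
      intro t
      rw [hU]
      intro u hu
      have h2 := congrArg (fun z => B.repr z t) (hV v hv u hu)
      simp only [map_sum, Finsupp.coe_finset_sum, Finset.sum_apply, map_zero, Finsupp.coe_zero,
        Pi.zero_apply] at h2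
      rw [← h2]
      refine Finset.sum_congr rfl fun x _ => ?_
      have : (u x : ℂ) * v x = ((u x : ℚ)) • v x := by
        rw [Rat.smul_def]; simp
      rw [this, map_smul]
      simp
    have h3 : v = ∑ t ∈ Finset.univ.biUnion (fun i => (B.repr (v i)).support),
        B t • (fun i => ((B.repr (v i) t : ℚ) : ℂ)) := by
      funext i
      simp only [Finset.sum_apply, Pi.smul_apply, smul_eq_mul]
      have h4 : v i = ∑ t ∈ (B.repr (v i)).support, (B.repr (v i) t) • B t := by
        conv_lhs => rw [← B.linearCombination_repr (v i)]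
        rw [Finsupp.linearCombination_apply, Finsupp.sum]
      have h5 : ∑ t ∈ (B.repr (v i)).support, (B.repr (v i) t) • B t =
          ∑ t ∈ Finset.univ.biUnion (fun i => (B.repr (v i)).support),
            (B.repr (v i) t) • B t := by
        refine Finset.sum_subset ?_ ?_
        · intro t ht
          exact Finset.mem_biUnion.2 ⟨i, Finset.mem_univ _, ht⟩
        · intro t _ ht
          rw [Finsupp.notMem_support_iff.1 ht, zero_smul]
      conv_lhs => rw [h4, h5]
      refine Finset.sum_congr rfl fun t _ => ?_
      rw [Rat.smul_def, mul_comm]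
    rw [h3]
    refine Submodule.sum_mem _ fun t _ => Submodule.smul_mem _ _ ?_
    -- rational vector in U
    have h6 : (fun i => ((B.repr (v i) t : ℚ) : ℂ)) =
        ∑ a, ((b.repr ⟨_, h1 t⟩ a : ℚ) : ℂ) • cst a := by
      funext i
      have h7 := congrArg (fun z : U => (z : ι → ℚ) i) (b.sum_repr ⟨_, h1 t⟩)
      simp only [Submodule.coe_sum, Submodule.coe_smul, Finset.sum_apply, Pi.smul_apply,
        smul_eq_mul] at h7
      rw [← h7]
      simp [cst]
    rw [h6]
    exact Submodule.sum_mem _ fun a _ => Submodule.smul_mem _ _ (Submodule.subset_span ⟨a, rfl⟩)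
  refine (Submodule.finrank_mono hle).trans ?_
  refine (finrank_range_le_card (R := ℂ) cst).trans ?_
  simp

/-- integer vectors independent over `ℤ` are independent over `ℚ` -/
theorem li_int {ι α : Type} (v : α → ι → ℤ) (h : LinearIndependent ℤ v) :
    LinearIndependent ℚ (fun a (i : ι) => ((v a i : ℤ) : ℚ)) := by
  have h1 : LinearIndependent ℤ (fun a (i : ι) => ((v a i : ℤ) : ℚ)) := by
    let f : (ι → ℤ) →ₗ[ℤ] (ι → ℚ) :=
      { toFun := fun w i => (w i : ℚ)
        map_add' := by intro a b; funext i; simp
        map_smul' := by intro a b; funext i; simp }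
    have hf : LinearMap.ker f = ⊥ := by
      rw [LinearMap.ker_eq_bot']
      intro w hw
      funext i
      have := congrFun hw i
      simpa [f] using this
    exact h.map' f hf
  exact (LinearIndependent.iff_fractionRing ℤ ℚ).1 h1

end Pool.Agent.H72.HR
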