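import Pool.Agent.H72.HR.FIN1

open MvPolynomial Module

set_option linter.unusedSectionVars false

namespace Pool.Agent.H72.HR

theorem finrank_map_add_inf {K V V' : Type} [Field K] [AddCommGroup V] [Module K V]
    [AddCommGroup V'] [Module K V'] [FiniteDimensional K V] (f : V →ₗ[K] V') (S : Submodule K V) :
    finrank K (S.map f) + finrank K (LinearMap.ker f ⊓ S : Submodule K V) = finrank K S := by
  have h := LinearMap.finrank_range_add_finrank_ker (f ∘ₗ S.subtype)
  rw [LinearMap.range_comp, Submodule.range_subtype, LinearMap.ker_comp] at h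
  rw [← h]
  congr 1
  have h2 : Submodule.comap S.subtype (LinearMap.ker f) =
      Submodule.comap S.subtype (LinearMap.ker f ⊓ S) := by
    ext x; simp
  rw [h2]
  exact (Submodule.comapSubtypeEquivOfLe (p := LinearMap.ker f ⊓ S) (q := S)
    inf_le_right).finrank_eq.symm

section
variable {σ : Type} [Fintype σ] [DecidableEq σ] {κ : σ → Bool} {T : σ → ℕ}
  {L : Submodule ℂ (σ → ℂ)} {Θ : Set (σ → ℤ)}

theorem mem_Lie {g : σ → ℂ} : g ∈ Lie κ L Θ ↔ (fun i => if κ i then 0 else g i) ∈ L ∧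
    ∀ u ∈ Θ, ∑ i, (u i : ℂ) * g i = 0 := Iff.rfl

theorem Std.L_le (h : Std κ T L Θ) : L ≤ Lie κ L Θ := by
  intro g hg
  rw [mem_Lie]
  constructor
  · convert hg using 1
    funext i
    by_cases hi : κ i
    · simp [hi, h.hL g hg i hi]
    · simp [hi]
  · intro u hu
    apply Finset.sum_eq_zero
    intro i _
    by_cases hi : κ i
    · simp [h.hL g hg i hi]
    · simp [h.hΘ u hu i (by simpa using hi)]

theorem Lie_mono : Lie κ ⊥ Θ ≤ Lie κ L Θ := by
  intro g hg
  rw [mem_Lie] at hg ⊢
  refine ⟨?_, hg.2⟩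
  rw [(Submodule.mem_bot ℂ).1 hg.1]
  exact L.zero_mem

theorem mem_Lie_bot {g : σ → ℂ} : g ∈ Lie κ ⊥ Θ ↔ (∀ i, κ i = false → g i = 0) ∧
    ∀ u ∈ Θ, ∑ i, (u i : ℂ) * g i = 0 := by
  rw [mem_Lie, Submodule.mem_bot]
  constructor
  · rintro ⟨h, h'⟩
    refine ⟨fun i hi => ?_, h'⟩
    have := congrFun h i
    simpa [hi] using this
  · rintro ⟨h, h'⟩
    refine ⟨?_, h'⟩
    funext i
    by_cases hi : κ i
    · simp [hi]
    · simp [hi, h i (by simpa using hi)]

theorem Std.finrank_Lie (h : Std κ T L Θ) :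
    finrank ℂ (Lie κ L Θ) = finrank ℂ L + finrank ℂ (Lie κ ⊥ Θ) := by
  have h1 : Lie κ L Θ = L ⊔ Lie κ ⊥ Θ := by
    apply le_antisymm
    · intro g hg
      rw [mem_Lie] at hg
      have h2 : g = (fun i => if κ i then 0 else g i) + (fun i => if κ i then g i else 0) := by
        funext i
        by_cases hi : κ i <;> simp [hi]
      rw [h2]
      refine Submodule.add_mem_sup hg.1 ?_
      rw [mem_Lie_bot]
      refine ⟨fun i hi => by simp [hi], fun u hu => ?_⟩
      rw [← hg.2 u hu]
      refine Finset.sum_congr rfl fun i _ => ?_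
      by_cases hi : κ i
      · simp [hi]
      · simp [hi, h.hΘ u hu i (by simpa using hi)]
    · exact sup_le h.L_le Lie_mono
  have h3 : L ⊓ Lie κ ⊥ Θ = ⊥ := by
    rw [eq_bot_iff]
    rintro g ⟨hg, hg'⟩
    rw [Submodule.mem_bot]
    rw [SetLike.mem_coe, mem_Lie_bot] at hg'
    funext i
    by_cases hi : κ i
    · exact h.hL g hg i hi
    · exact hg'.1 i (by simpa using hi)
  have h4 := Submodule.finrank_sup_add_finrank_inf_eq L (Lie κ ⊥ Θ)
  rw [h3, finrank_bot, add_zero] at h4
  rw [h1, h4]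

theorem zero_mem_Grp : (0 : σ → ℂ) ∈ Grp κ L Θ := by
  refine ⟨?_, fun u _ => by simp⟩
  convert L.zero_mem using 1
  funext i; simp

theorem add_mem_Grp {g g' : σ → ℂ} (hg : g ∈ Grp κ L Θ) (hg' : g' ∈ Grp κ L Θ) :
    g + g' ∈ Grp κ L Θ := by
  refine ⟨?_, fun u hu => ?_⟩
  · convert L.add_mem hg.1 hg'.1 using 1
    funext i
    by_cases h : κ i <;> simp [h]
  · simp only [Pi.add_apply, mul_add, Finset.sum_add_distrib, Complex.exp_add, hg.2 u hu,
      hg'.2 u hu, mul_one]

theorem neg_mem_Grp {g : σ → ℂ} (hg : g ∈ Grp κ L Θ) : -g ∈ Grp κ L Θ := by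
  refine ⟨?_, fun u hu => ?_⟩
  · convert L.neg_mem hg.1 using 1
    funext i
    by_cases h : κ i <;> simp [h]
  · simp only [Pi.neg_apply, mul_neg, Finset.sum_neg_distrib, Complex.exp_neg, hg.2 u hu, inv_one]

end

section
variable {ρ τ : Type} [Fintype ρ] [Fintype τ] [DecidableEq ρ] [DecidableEq τ] {c : ℕ}

/-- the linear map with kernel `W` -/
noncomputable def pi' (k : ρ → Fin c → ℤ) (E : Fin c → τ → ℤ) :
    (ρ ⊕ τ → ℂ) →ₗ[ℂ] (Fin c → ℂ) :=
  LinearMap.pi (fun l : Fin c =>
    (∑ i, (k i l : ℂ) • LinearMap.proj (R := ℂ) (φ := fun _ : ρ ⊕ τ => ℂ) (Sum.inl i)) +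
    ∑ a, (E l a : ℂ) • LinearMap.proj (R := ℂ) (φ := fun _ : ρ ⊕ τ => ℂ) (Sum.inr a))

theorem pi'_apply (k : ρ → Fin c → ℤ) (E : Fin c → τ → ℤ) (g : ρ ⊕ τ → ℂ) (l : Fin c) :
    pi' k E g l = ∑ i, (k i l : ℂ) * g (Sum.inl i) + ∑ a, (E l a : ℂ) * g (Sum.inr a) := by
  simp [pi', LinearMap.pi_apply]

theorem WW_eq (k : ρ → Fin c → ℤ) (E : Fin c → τ → ℤ) : WW k E = LinearMap.ker (pi' k E) := rfl

variable (ν : Fin c → τ) (k : ρ → Fin c → ℤ) (E : Fin c → τ → ℤ)
  (hE : ∀ l l', E l (ν l') = if l = l' then 1 else 0)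

include hE

theorem nu_inj : Function.Injective ν := by
  intro l l' h
  by_contra hne
  have h1 := hE l l
  have h2 := hE l l'
  rw [if_pos rfl] at h1
  rw [if_neg hne, ← h, h1] at h2
  exact one_ne_zero h2

theorem span_om : Submodule.span ℂ (Set.range (om ν k E)) = LinearMap.ker (pi' k E) := by
  have hinj := nu_inj ν E hE
  apply le_antisymm
  · rw [Submodule.span_le]
    rintro _ ⟨x, rfl⟩
    rw [SetLike.mem_coe, LinearMap.mem_ker]
    funext l
    rw [pi'_apply]
    rcases x with i | a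
    · simp only [om, Pi.sub_apply, Finset.sum_apply, Pi.zero_apply]
      have h1 : ∑ i', (k i' l : ℂ) * ((Pi.single (Sum.inl i) 1 : ρ ⊕ τ → ℂ) (Sum.inl i') -
          ∑ l', (Pi.single (Sum.inr (ν l')) (k i l' : ℂ) : ρ ⊕ τ → ℂ) (Sum.inl i')) = k i l := by
        rw [Finset.sum_eq_single i]
        · simp
        · intro b _ hb
          simp [Pi.single_apply, hb]
        · simp
      have h2 : ∑ a, (E l a : ℂ) * ((Pi.single (Sum.inl i) 1 : ρ ⊕ τ → ℂ) (Sum.inr a) -
          ∑ l', (Pi.single (Sum.inr (ν l')) (k i l' : ℂ) : ρ ⊕ τ → ℂ) (Sum.inr a)) = -k i l := by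
        have h3 : ∀ a, (E l a : ℂ) * ((Pi.single (Sum.inl i) 1 : ρ ⊕ τ → ℂ) (Sum.inr a) -
          ∑ l', (Pi.single (Sum.inr (ν l')) (k i l' : ℂ) : ρ ⊕ τ → ℂ) (Sum.inr a)) =
            -∑ l', if a = ν l' then (E l a : ℂ) * (k i l' : ℂ) else 0 := by
          intro a
          simp only [Pi.single_apply, reduceCtorEq, if_false, zero_sub, Sum.inr.injEq, mul_neg,
            Finset.mul_sum, mul_ite, mul_zero]
        rw [Finset.sum_congr rfl fun a _ => h3 a, Finset.sum_neg_distrib, Finset.sum_comm]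
        congr 1
        simp only [Finset.sum_ite_eq', Finset.mem_univ, if_true, hE]
        rw [Finset.sum_eq_single l]
        · simp
        · intro b _ hb
          simp [Ne.symm hb]
        · simp
      rw [h1, h2]; ring
    · simp only [om, Pi.sub_apply, Finset.sum_apply, Pi.zero_apply]
      have h1 : ∑ i', (k i' l : ℂ) * ((Pi.single (Sum.inr a) 1 : ρ ⊕ τ → ℂ) (Sum.inl i') -
          ∑ l', (Pi.single (Sum.inr (ν l')) (E l' a : ℂ) : ρ ⊕ τ → ℂ) (Sum.inl i')) = 0 := by
        apply Finset.sum_eq_zero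
        intro i' _
        simp [Pi.single_apply]
      have h2 : ∑ a', (E l a' : ℂ) * ((Pi.single (Sum.inr a) 1 : ρ ⊕ τ → ℂ) (Sum.inr a') -
          ∑ l', (Pi.single (Sum.inr (ν l')) (E l' a : ℂ) : ρ ⊕ τ → ℂ) (Sum.inr a')) = 0 := by
        have h3 : ∀ a', (E l a' : ℂ) * ((Pi.single (Sum.inr a) 1 : ρ ⊕ τ → ℂ) (Sum.inr a') -
          ∑ l', (Pi.single (Sum.inr (ν l')) (E l' a : ℂ) : ρ ⊕ τ → ℂ) (Sum.inr a')) =
            (if a' = a then (E l a' : ℂ) else 0) -
            ∑ l', if a' = ν l' then (E l a' : ℂ) * (E l' a : ℂ) else 0 := by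
          intro a'
          simp only [Pi.single_apply, Sum.inr.injEq, mul_sub,
            Finset.mul_sum, mul_ite, mul_zero, mul_one]
        rw [Finset.sum_congr rfl fun a' _ => h3 a', Finset.sum_sub_distrib, Finset.sum_comm]
        simp only [Finset.sum_ite_eq', Finset.sum_ite_eq, Finset.mem_univ, if_true, hE]
        rw [Finset.sum_eq_single l]
        · simp
        · intro b _ hb
          simp [Ne.symm hb]
        · simp
      rw [h1, h2]; ring
  · intro g hg
    rw [LinearMap.mem_ker] at hg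
    have h1 : g = ∑ i, g (Sum.inl i) • om ν k E (Sum.inl i) +
        ∑ a, g (Sum.inr a) • om ν k E (Sum.inr a) := by
      funext x
      simp only [Pi.add_apply, Finset.sum_apply, Pi.smul_apply, smul_eq_mul, om, Pi.sub_apply]
      rcases x with i | a
      · have e1 : ∀ i', g (Sum.inl i') * ((Pi.single (Sum.inl i') 1 : ρ ⊕ τ → ℂ) (Sum.inl i) -
            ∑ l', (Pi.single (Sum.inr (ν l')) (k i' l' : ℂ) : ρ ⊕ τ → ℂ) (Sum.inl i)) =
            if i = i' then g (Sum.inl i') else 0 := by
          intro i'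
          simp [Pi.single_apply]
        have e2 : ∀ a, g (Sum.inr a) * ((Pi.single (Sum.inr a) 1 : ρ ⊕ τ → ℂ) (Sum.inl i) -
            ∑ l', (Pi.single (Sum.inr (ν l')) (E l' a : ℂ) : ρ ⊕ τ → ℂ) (Sum.inl i)) = 0 := by
          intro a
          simp [Pi.single_apply]
        rw [Finset.sum_congr rfl fun i' _ => e1 i', Finset.sum_congr rfl fun a _ => e2 a]
        simp
      · have e1 : ∀ i', g (Sum.inl i') * ((Pi.single (Sum.inl i') 1 : ρ ⊕ τ → ℂ) (Sum.inr a) -
            ∑ l', (Pi.single (Sum.inr (ν l')) (k i' l' : ℂ) : ρ ⊕ τ → ℂ) (Sum.inr a)) =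
            -∑ l', if a = ν l' then (k i' l' : ℂ) * g (Sum.inl i') else 0 := by
          intro i'
          simp only [Pi.single_apply, reduceCtorEq, if_false, zero_sub, Sum.inr.injEq, mul_neg,
            Finset.mul_sum, mul_ite, mul_zero]
          congr 1
          refine Finset.sum_congr rfl fun y _ => ?_
          split_ifs
          · ring
          · rfl
        have e2 : ∀ a', g (Sum.inr a') * ((Pi.single (Sum.inr a') 1 : ρ ⊕ τ → ℂ) (Sum.inr a) -
            ∑ l', (Pi.single (Sum.inr (ν l')) (E l' a' : ℂ) : ρ ⊕ τ → ℂ) (Sum.inr a)) =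
            (if a = a' then g (Sum.inr a') else 0) -
              ∑ l', if a = ν l' then (E l' a' : ℂ) * g (Sum.inr a') else 0 := by
          intro a'
          simp only [Pi.single_apply, Sum.inr.injEq, mul_sub, Finset.mul_sum, mul_ite,
            mul_zero, mul_one]
          congr 1
          refine Finset.sum_congr rfl fun y _ => ?_
          split_ifs
          · ring
          · rfl
        rw [Finset.sum_congr rfl fun i' _ => e1 i', Finset.sum_congr rfl fun a' _ => e2 a',
          Finset.sum_neg_distrib, Finset.sum_sub_distrib]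
        rw [Finset.sum_comm (s := (Finset.univ : Finset ρ)),
          Finset.sum_comm (s := (Finset.univ : Finset τ))]
        simp only [Finset.sum_ite_eq, Finset.mem_univ, if_true]
        have e3 : (∑ y, ∑ x, if a = ν y then (k x y : ℂ) * g (Sum.inl x) else 0) +
            (∑ y, ∑ x, if a = ν y then (E y x : ℂ) * g (Sum.inr x) else 0) = 0 := by
          rw [← Finset.sum_add_distrib]
          apply Finset.sum_eq_zero
          intro y _
          by_cases h : a = ν y
          · simp only [h, if_true]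
            have := congrFun hg y
            rw [pi'_apply] at this
            simpa using this
          · simp [h]
        linear_combination e3
    rw [h1]
    refine Submodule.add_mem _ (Submodule.sum_mem _ fun i _ => ?_)
      (Submodule.sum_mem _ fun a _ => ?_)
    · exact Submodule.smul_mem _ _ (Submodule.subset_span ⟨_, rfl⟩)
    · exact Submodule.smul_mem _ _ (Submodule.subset_span ⟨_, rfl⟩)

theorem range_pi' : LinearMap.range (pi' k E) = ⊤ := by
  have hinj := nu_inj ν E hE
  rw [LinearMap.range_eq_top]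
  intro z
  refine ⟨∑ l, Pi.single (Sum.inr (ν l)) (z l), ?_⟩
  funext l
  rw [pi'_apply]
  simp only [Finset.sum_apply, Pi.single_apply, reduceCtorEq, if_false, Finset.sum_const_zero,
    mul_zero, zero_add, Sum.inr.injEq, Finset.mul_sum, mul_ite, mul_zero]
  rw [Finset.sum_comm]
  simp only [Finset.sum_ite_eq', Finset.mem_univ, if_true, hE]
  rw [Finset.sum_eq_single l]
  · simp
  · intro b _ hb
    simp [Ne.symm hb]
  · simp

theorem finrank_ker_pi' : finrank ℂ (LinearMap.ker (pi' k E)) + c =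
    Fintype.card ρ + Fintype.card τ := by
  have h := LinearMap.finrank_range_add_finrank_ker (pi' k E)
  rw [range_pi' ν k E hE, finrank_top] at h
  simp only [Module.finrank_fintype_fun_eq_card, Fintype.card_fin, Fintype.card_sum] at h
  omega

end

end Pool.Agent.H72.HR
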