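import Pool.Agent.H72.HR.FIN2

open MvPolynomial Module

set_option linter.unusedSectionVars false

namespace Pool.Agent.H72.HR

/-! ### numerical lemmas -/

theorem num1 (n0 h g A B Q X1 Y1 l' M S Fc : ℕ) (hh : 1 ≤ h) (hg : 1 ≤ g) (hn : 1 ≤ n0)
    (hM : h * g ^ A ≤ n0 * (M + 1)) (hS : g ^ Q ≤ n0 * (S + 1)) (hF : (M + 1) ^ X1 ≤ Fc)
    (hZ : Fc * (S + 1) ^ l' ≤ n0 ^ n0 * ((h * g ^ (Q - B)) ^ X1 * (g ^ (Q - A)) ^ Y1))
    (hX : X1 + l' ≤ 2 * n0) (hE : (Q - B) * X1 + (Q - A) * Y1 + 1 ≤ A * X1 + Q * l') :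
    g ≤ n0 ^ (3 * n0) := by
  have h1 : (h * g ^ A) ^ X1 * (g ^ Q) ^ l' ≤
      n0 ^ (3 * n0) * ((h * g ^ (Q - B)) ^ X1 * (g ^ (Q - A)) ^ Y1) := by
    calc (h * g ^ A) ^ X1 * (g ^ Q) ^ l' ≤ (n0 * (M + 1)) ^ X1 * (n0 * (S + 1)) ^ l' :=
          Nat.mul_le_mul (Nat.pow_le_pow_left hM _) (Nat.pow_le_pow_left hS _)
      _ = n0 ^ (X1 + l') * ((M + 1) ^ X1 * (S + 1) ^ l') := by
          rw [mul_pow, mul_pow, pow_add]; ring
      _ ≤ n0 ^ (2 * n0) * (Fc * (S + 1) ^ l') :=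
          Nat.mul_le_mul (Nat.pow_le_pow_right hn hX) (Nat.mul_le_mul_right _ hF)
      _ ≤ n0 ^ (2 * n0) * (n0 ^ n0 * ((h * g ^ (Q - B)) ^ X1 * (g ^ (Q - A)) ^ Y1)) :=
          Nat.mul_le_mul_left _ hZ
      _ = n0 ^ (3 * n0) * ((h * g ^ (Q - B)) ^ X1 * (g ^ (Q - A)) ^ Y1) := by
          rw [← mul_assoc, ← pow_add]; congr 2; ring
  have h2 : (h * g ^ A) ^ X1 * (g ^ Q) ^ l' = h ^ X1 * g ^ (A * X1 + Q * l') := by
    rw [mul_pow, ← pow_mul, ← pow_mul, pow_add]; ring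
  have h3 : (h * g ^ (Q - B)) ^ X1 * (g ^ (Q - A)) ^ Y1 =
      h ^ X1 * g ^ ((Q - B) * X1 + (Q - A) * Y1) := by
    rw [mul_pow, ← pow_mul, ← pow_mul, pow_add]; ring
  rw [h2, h3] at h1
  have h4 : h ^ X1 * g ^ ((Q - B) * X1 + (Q - A) * Y1) * g ≤
      h ^ X1 * g ^ ((Q - B) * X1 + (Q - A) * Y1) * n0 ^ (3 * n0) := by
    calc h ^ X1 * g ^ ((Q - B) * X1 + (Q - A) * Y1) * g
        = h ^ X1 * g ^ ((Q - B) * X1 + (Q - A) * Y1 + 1) := by rw [pow_succ]; ring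
      _ ≤ h ^ X1 * g ^ (A * X1 + Q * l') :=
          Nat.mul_le_mul_left _ (Nat.pow_le_pow_right hg hE)
      _ ≤ _ := by rw [mul_comm (h ^ X1 * _) (n0 ^ _)]; exact h1
  have hpos : 0 < h ^ X1 * g ^ ((Q - B) * X1 + (Q - A) * Y1) := by positivity
  exact Nat.le_of_mul_le_mul_left h4 hpos

theorem num2 (r d c a u cs l' wl fw A B Q : ℕ) (h1 : l' + wl = fw) (h2 : wl + cs = a + u)
    (h3 : fw + c = r + d) (hcs : cs ≤ c) (ha : c * a ≤ r * cs) (hu : c * u ≤ d * cs)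
    (hau : a + u < r + d) (har : a ≤ r) (hud : u ≤ d) (hA : 1 ≤ A) (hAQ : A ≤ Q) (hBQ : B ≤ Q)
    (hP : c * Q + 1 ≤ r * (A + B) + d * A) :
    (Q - B) * (r - a) + (Q - A) * (d - u) + 1 ≤ A * (r - a) + Q * l' := by
  have har' : (a : ℤ) ≤ r := by exact_mod_cast har
  have hud' : (u : ℤ) ≤ d := by exact_mod_cast hud
  have hAQ' : (A : ℤ) ≤ Q := by exact_mod_cast hAQ
  have hBQ' : (B : ℤ) ≤ Q := by exact_mod_cast hBQ
  zify [har, hud, hAQ, hBQ] at *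
  obtain ⟨X, hX⟩ : ∃ X : ℤ, X = r - a := ⟨_, rfl⟩
  obtain ⟨Y, hY⟩ : ∃ Y : ℤ, Y = d - u := ⟨_, rfl⟩
  obtain ⟨Z, hZ⟩ : ∃ Z : ℤ, Z = c - cs := ⟨_, rfl⟩
  have hl : (l' : ℤ) = X + Y - Z := by rw [hX, hY, hZ]; linarith
  have hX0 : 0 ≤ X := by linarith
  have hY0 : 0 ≤ Y := by linarith
  have hZ0 : 0 ≤ Z := by linarith
  have hXY : 1 ≤ X + Y := by
    have : (0 : ℤ) < X + Y := by rw [hX, hY]; linarith
    omega
  have e1 : (r : ℤ) * Z ≤ c * X := by rw [hX, hZ]; nlinarith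
  have e2 : (d : ℤ) * Z ≤ c * Y := by rw [hY, hZ]; nlinarith
  suffices hs : 1 ≤ ((A : ℤ) + B) * X + A * Y - Q * Z by
    rw [← hX, ← hY, hl]; nlinarith
  by_cases hz : Z = 0
  · rw [hz]
    have hB0 : (0 : ℤ) ≤ B := by positivity
    nlinarith [mul_nonneg hB0 hX0, mul_nonneg (by linarith : (0:ℤ) ≤ A - 1) hX0,
      mul_nonneg (by linarith : (0:ℤ) ≤ A - 1) hY0]
  · have hZ1 : 1 ≤ Z := by omega
    by_contra hcon
    push Not at hcon
    have hcon' : ((A : ℤ) + B) * X + A * Y - Q * Z ≤ 0 := by omega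
    have hc0 : (0 : ℤ) ≤ c := by positivity
    have e3 : (c : ℤ) * (((A : ℤ) + B) * X + A * Y - Q * Z) ≤ 0 :=
      mul_nonpos_of_nonneg_of_nonpos hc0 hcon'
    have hA0 : (0 : ℤ) ≤ A := by positivity
    have hAB0 : (0 : ℤ) ≤ (A : ℤ) + B := by positivity
    have e4 : Z * ((r : ℤ) * (A + B) + d * A - c * Q) ≤
        (c : ℤ) * (((A : ℤ) + B) * X + A * Y - Q * Z) := by
      have := mul_le_mul_of_nonneg_left e1 hAB0
      have := mul_le_mul_of_nonneg_left e2 hA0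
      nlinarith
    have e5 : 1 ≤ (r : ℤ) * (A + B) + d * A - c * Q := by linarith
    nlinarith

theorem num3 (n0 h g Q r d a u B A : ℕ) (hg : 1 ≤ g) (hn : n0 = r + d) :
    n0 ^ n0 * ((h * g ^ (Q - B)) ^ (r - a) * (g ^ (Q - A)) ^ (d - u)) ≤
      n0 ^ n0 * g ^ (Q * n0) * h ^ (r - a) := by
  have h1 : (h * g ^ (Q - B)) ^ (r - a) * (g ^ (Q - A)) ^ (d - u) =
      g ^ ((Q - B) * (r - a) + (Q - A) * (d - u)) * h ^ (r - a) := by
    rw [mul_pow, ← pow_mul, ← pow_mul, pow_add]; ring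
  rw [h1, ← mul_assoc]
  refine Nat.mul_le_mul_right _ (Nat.mul_le_mul_left _ (Nat.pow_le_pow_right hg ?_))
  calc (Q - B) * (r - a) + (Q - A) * (d - u) ≤ Q * r + Q * d :=
        Nat.add_le_add (Nat.mul_le_mul (Nat.sub_le _ _) (Nat.sub_le _ _))
          (Nat.mul_le_mul (Nat.sub_le _ _) (Nat.sub_le _ _))
    _ = Q * n0 := by rw [hn]; ring

theorem num4 (n0 h r a rk A2 M Fc : ℕ) (hn : 1 ≤ n0) (hr : r ≤ n0) (ha : a ≤ r)
    (hM : h ≤ n0 * (M + 1)) (hF : (M + 1) ^ (r - rk) ≤ Fc) (hFc : Fc ≤ A2 * h ^ (r - a))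
    (hA : n0 ^ n0 * A2 < h) : a ≤ rk := by
  by_contra hcon
  push Not at hcon
  have h1 : r - a + 1 ≤ r - rk := by omega
  have hh : 1 ≤ h := by omega
  have h2 : h ^ (r - rk) ≤ n0 ^ n0 * A2 * h ^ (r - a) := by
    calc h ^ (r - rk) ≤ (n0 * (M + 1)) ^ (r - rk) := Nat.pow_le_pow_left hM _
      _ = n0 ^ (r - rk) * (M + 1) ^ (r - rk) := by rw [mul_pow]
      _ ≤ n0 ^ n0 * Fc := Nat.mul_le_mul (Nat.pow_le_pow_right hn (by omega)) hF
      _ ≤ n0 ^ n0 * (A2 * h ^ (r - a)) := Nat.mul_le_mul_left _ hFc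
      _ = _ := by ring
  have h3 : h ^ (r - a) * h ≤ h ^ (r - rk) := by
    rw [← pow_succ]; exact Nat.pow_le_pow_right hh h1
  have h4 : h ^ (r - a) * h ≤ h ^ (r - a) * (n0 ^ n0 * A2) := by
    calc _ ≤ _ := h3
      _ ≤ _ := h2
      _ = _ := by ring
  have := Nat.le_of_mul_le_mul_left h4 (by positivity)
  omega

theorem num5 (n0 h r a A2 M Fc : ℕ) (hn : 1 ≤ n0) (hr : r ≤ n0) (hM1 : 1 ≤ M)
    (hM : h ≤ n0 * (M + 1)) (hFc : Fc ≤ A2 * h ^ (r - a)) :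
    Fc ≤ A2 * (2 * n0) ^ n0 * M ^ (r - a) := by
  refine hFc.trans ?_
  rw [mul_assoc]
  refine Nat.mul_le_mul_left _ ?_
  calc h ^ (r - a) ≤ (2 * n0 * M) ^ (r - a) := by
        apply Nat.pow_le_pow_left
        refine hM.trans ?_
        nlinarith
    _ = (2 * n0) ^ (r - a) * M ^ (r - a) := by rw [mul_pow]
    _ ≤ (2 * n0) ^ n0 * M ^ (r - a) :=
        Nat.mul_le_mul_right _ (Nat.pow_le_pow_right (by omega) (by omega))

/-! ### the points `γ_s` -/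

section
variable {ρ τ : Type} [Fintype ρ] [Fintype τ] [DecidableEq ρ] [DecidableEq τ] {n : ℕ}
  (lam : Fin n → ℂ) (q : Fin n → ρ → τ → ℤ)

theorem gam_add (s s' : ρ → ℤ) : gam lam q (s + s') = gam lam q s + gam lam q s' := by
  funext x
  rcases x with i | a
  · simp [gam]
  · simp [gam, add_mul, Finset.sum_add_distrib]

theorem gam_zero : gam lam q (0 : ρ → ℤ) = 0 := by
  funext x
  rcases x with i | a <;> simp [gam]

theorem gam_neg (s : ρ → ℤ) : gam lam q (-s) = -gam lam q s := by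
  funext x
  rcases x with i | a <;> simp [gam]

theorem gam_sub (s s' : ρ → ℤ) : gam lam q (s - s') = gam lam q s - gam lam q s' := by
  rw [sub_eq_add_neg, gam_add, gam_neg, sub_eq_add_neg]

theorem gam_inj : Function.Injective (gam lam q) := by
  intro s s' h
  funext i
  have := congrFun h (Sum.inl i)
  simpa [gam] using this

/-- the subgroup of the integer vectors with `γ_s` in a group -/
def Gs (L : Submodule ℂ (ρ ⊕ τ → ℂ)) (Θ : Set (ρ ⊕ τ → ℤ)) : AddSubgroup (ρ → ℤ) where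
  carrier := {s | gam lam q s ∈ Grp kap L Θ}
  add_mem' := by
    intro a b ha hb
    rw [Set.mem_setOf_eq, gam_add]
    exact add_mem_Grp ha hb
  zero_mem' := by
    rw [Set.mem_setOf_eq, gam_zero]
    exact zero_mem_Grp
  neg_mem' := by
    intro a ha
    rw [Set.mem_setOf_eq, gam_neg]
    exact neg_mem_Grp ha

theorem mem_Gs {L : Submodule ℂ (ρ ⊕ τ → ℂ)} {Θ : Set (ρ ⊕ τ → ℤ)} {s : ρ → ℤ} :
    s ∈ Gs lam q L Θ ↔ gam lam q s ∈ Grp kap L Θ := Iff.rfl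

/-- the additive part of `γ_s` -/
theorem Gs_add {L : Submodule ℂ (ρ ⊕ τ → ℂ)} {Θ : Set (ρ ⊕ τ → ℤ)} {s : ρ → ℤ}
    (hs : s ∈ Gs lam q L Θ) : (Sum.elim (fun i => (s i : ℂ)) (fun _ => 0) : ρ ⊕ τ → ℂ) ∈ L := by
  have := ((mem_Gs lam q).1 hs).1
  convert this using 1
  funext x
  rcases x with i | a <;> simp [kap, gam]

/-- the multiplicative part of `γ_s` -/
theorem Gs_mul {K : Set (Fin n)} (hMI : MI lam K) {T : ρ ⊕ τ → ℕ} {L : Submodule ℂ (ρ ⊕ τ → ℂ)}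
    {Θ : Set (ρ ⊕ τ → ℤ)} (hStd : Std kap T L Θ) {s : ρ → ℤ} (hs : s ∈ Gs lam q L Θ)
    {u : ρ ⊕ τ → ℤ} (hu : u ∈ Θ) {k : Fin n} (hk : k ∈ K) :
    ∑ a, u (Sum.inr a) * ∑ i, s i * q k i a = 0 := by
  have h1 := ((mem_Gs lam q).1 hs).2 u hu
  apply hMI (fun k => ∑ a, u (Sum.inr a) * ∑ i, s i * q k i a) ?_ k hk
  rw [← h1]
  congr 1
  rw [Fintype.sum_sum_type]
  have h2 : ∑ i : ρ, (u (Sum.inl i) : ℂ) * gam lam q s (Sum.inl i) = 0 := by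
    apply Finset.sum_eq_zero
    intro i _
    rw [hStd.hΘ u hu (Sum.inl i) rfl]; simp
  rw [h2, zero_add]
  simp only [gam, Sum.elim_inr, Lam]
  push_cast
  have h3 : ∀ k : Fin n, (∑ a, (u (Sum.inr a) : ℂ) * ∑ i, (s i : ℂ) * (q k i a : ℂ)) * lam k =
      ∑ a, (u (Sum.inr a) : ℂ) * ∑ i, (s i : ℂ) * ((q k i a : ℂ) * lam k) := by
    intro k
    rw [Finset.sum_mul]
    refine Finset.sum_congr rfl fun a _ => ?_
    rw [mul_assoc, Finset.sum_mul]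
    congr 1
    exact Finset.sum_congr rfl fun i _ => by ring
  rw [Finset.sum_congr rfl fun k _ => h3 k, Finset.sum_comm]
  refine Finset.sum_congr rfl fun a _ => ?_
  rw [← Finset.mul_sum, Finset.sum_comm]
  congr 1
  refine Finset.sum_congr rfl fun i _ => ?_
  rw [Finset.mul_sum]

/-- independent integer vectors in `G` give a lower bound for `dim L` -/
theorem rk_le {L : Submodule ℂ (ρ ⊕ τ → ℂ)} {Θ : Set (ρ ⊕ τ → ℤ)} {m : ℕ} (v : Fin m → ρ → ℤ)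
    (hv : ∀ j, v j ∈ Gs lam q L Θ) (hli : LinearIndependent ℤ v) : m ≤ finrank ℂ L := by
  have h1 := li_cast _ (li_int v hli)
  let f : Fin m → L := fun j => ⟨_, Gs_add lam q (hv j)⟩
  let P : (ρ ⊕ τ → ℂ) →ₗ[ℂ] (ρ → ℂ) := LinearMap.funLeft ℂ ℂ Sum.inl
  have h2 : LinearIndependent ℂ f := by
    apply LinearIndependent.of_comp (P ∘ₗ L.subtype)
    convert h1 using 1
    funext j i
    simp [P, f, LinearMap.funLeft]
  have := h2.fintype_card_le_finrank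
  simpa using this

theorem rk_G {L : Submodule ℂ (ρ ⊕ τ → ℂ)} {Θ : Set (ρ ⊕ τ → ℤ)} :
    finrank ℤ (Gs lam q L Θ) ≤ finrank ℂ L := by
  let G' : Submodule ℤ (ρ → ℤ) := AddSubgroup.toIntSubmodule (Gs lam q L Θ)
  have e : finrank ℤ (Gs lam q L Θ) = finrank ℤ G' := rfl
  rw [e]
  let b := Module.finBasis ℤ G'
  refine rk_le lam q (fun j => ((b j : G') : ρ → ℤ)) (fun j => (b j).2) ?_
  exact b.linearIndependent.map' G'.subtype (by simp)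

end

end Pool.Agent.H72.HR
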