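import Pool.Agent.H72.HR.Targets

open MvPolynomial Module Filter
open Pool.Agent.H72.BF (Pkg)

set_option linter.unusedSectionVars false

namespace Pool.Agent.H72.HR

/-- independent rows have a nonvanishing maximal minor -/
theorem exists_minor {F : Type} [Field F] {w c : ℕ} (u : Fin w → Fin c → F)
    (hu : LinearIndependent F u) :
    ∃ J : Fin w → Fin c, (Matrix.of (fun x y => u x (J y))).det ≠ 0 := by
  classical
  let M : Matrix (Fin w) (Fin c) F := Matrix.of u
  have h1 : M.rank = w := by
    have := LinearIndependent.rank_matrix (M := M) hu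
    simpa using this
  rw [Matrix.rank_eq_finrank_span_cols] at h1
  have h3 : ∃ f : Fin w → Fin w → F, (∀ i, f i ∈ Set.range M.col) ∧ LinearIndependent F f := by
    obtain ⟨f, hf, -, hli⟩ := Submodule.exists_fun_fin_finrank_span_eq F (Set.range M.col)
    refine ⟨fun i => f (Fin.cast h1.symm i), fun i => hf _, ?_⟩
    exact hli.comp _ (Fin.cast_injective _)
  obtain ⟨f, hf, hli⟩ := h3
  choose J hJ using hf
  refine ⟨J, ?_⟩
  have h2 : LinearIndependent F (Matrix.of (fun x y => u x (J y))).col := by
    convert hli using 1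
    funext y
    rw [← hJ y]
    rfl
  rw [Matrix.linearIndependent_cols_iff_isUnit, Matrix.isUnit_iff_isUnit_det] at h2
  exact h2.ne_zero

/-- a maximal independent family of rows -/
theorem exists_rows {F : Type} [Field F] {l c : ℕ} (u : Fin l → Fin c → F) :
    ∃ (w : ℕ) (I : Fin w → Fin l), w ≤ c ∧ LinearIndependent F (fun x => u (I x)) ∧
      ∀ p, ∃ b : Fin w → F, u p = ∑ x, b x • u (I x) := by
  classical
  obtain ⟨f, hf, hspan, hli⟩ := Submodule.exists_fun_fin_finrank_span_eq F (Set.range u)
  choose I hI using hf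
  refine ⟨_, I, ?_, ?_, ?_⟩
  · refine (Submodule.finrank_le _).trans ?_
    simp
  · have e1 : (fun x => u (I x)) = f := by
      funext x
      exact hI x
    rw [e1]
    exact hli
  · intro p
    have h1 : u p ∈ Submodule.span F (Set.range f) := by
      rw [hspan]; exact Submodule.subset_span ⟨p, rfl⟩
    rw [Submodule.mem_span_range_iff_exists_fun] at h1
    obtain ⟨b, hb⟩ := h1
    refine ⟨b, ?_⟩
    rw [← hb]
    refine Finset.sum_congr rfl fun x _ => ?_
    rw [hI x]

/-- the monomials -/
noncomputable def mon {F ι : Type} [Field F] [Fintype ι] (be : ι → F) (m : ι → ℕ) : F :=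
  ∏ i, be i ^ m i

/-- a basis of monomials containing `1` -/
theorem exists_mon_basis {F ι : Type} [Field F] [CharZero F] [Fintype ι] [DecidableEq ι]
    (be : ι → F) (D : ℕ) :
    ∃ b : Finset (ι → ℕ), (0 : ι → ℕ) ∈ b ∧ (∀ m ∈ b, ∑ i, m i ≤ D) ∧
      LinearIndependent ℚ (fun x : b => mon be x.1) ∧
      ED be D = Submodule.span ℚ (Set.range (fun x : b => mon be x.1)) ∧
      b.card = finrank ℚ (ED be D) := by
  classical
  let t : Set (ι → ℕ) := {m | ∑ i, m i ≤ D}
  have ht : t.Finite := by
    refine Set.Finite.subset (Set.finite_Iic (fun _ : ι => D)) ?_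
    intro m hm i
    exact (Finset.single_le_sum (f := m) (fun _ _ => Nat.zero_le _) (Finset.mem_univ i)).trans hm
  have hs : LinearIndepOn ℚ (mon be) ({0} : Set (ι → ℕ)) := by
    rw [linearIndepOn_singleton_iff]
    simp [mon]
  obtain ⟨b, hbt, hsb, hspan, hli⟩ := exists_linearIndepOn_extension hs
    (show ({0} : Set (ι → ℕ)) ⊆ t from by
      intro m hm
      rw [Set.mem_singleton_iff] at hm
      subst hm
      simp [t])
  have hbfin : b.Finite := ht.subset hbt
  have hED : ED be D = Submodule.span ℚ (mon be '' b) := by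
    apply le_antisymm
    · unfold ED
      rw [Submodule.span_le]
      rintro _ ⟨m, hm, rfl⟩
      exact hspan ⟨m, hm, rfl⟩
    · apply Submodule.span_mono
      rintro _ ⟨m, hm, rfl⟩
      exact ⟨m, hbt hm, rfl⟩
  have hli' : LinearIndependent ℚ (fun x : hbfin.toFinset => mon be x.1) := by
    have h1 : LinearIndependent ℚ (fun x : b => mon be x.1) := hli
    let e : hbfin.toFinset → b := fun x => ⟨x.1, hbfin.mem_toFinset.1 x.2⟩
    have he : Function.Injective e := by
      intro x y hxy
      have := congrArg Subtype.val hxy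
      exact Subtype.ext this
    exact h1.comp e he
  have hrange : Set.range (fun x : hbfin.toFinset => mon be x.1) = mon be '' b := by
    ext y
    constructor
    · rintro ⟨x, rfl⟩
      exact ⟨x.1, hbfin.mem_toFinset.1 x.2, rfl⟩
    · rintro ⟨m, hm, rfl⟩
      exact ⟨⟨m, hbfin.mem_toFinset.2 hm⟩, rfl⟩
  refine ⟨hbfin.toFinset, hbfin.mem_toFinset.2 (hsb rfl), ?_, hli', ?_, ?_⟩
  · intro m hm
    exact hbt (hbfin.mem_toFinset.1 hm)
  · rw [hrange, hED]
  · rw [hED, ← hrange, finrank_span_eq_card hli']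
    simp

/-- common denominator of finitely many rational numbers -/
theorem exists_common_den {α : Type} [Fintype α] (x : α → ℚ) :
    ∃ (m : ℤ) (y : α → ℤ), m ≠ 0 ∧ ∀ a, (m : ℚ) * x a = y a := by
  classical
  refine ⟨∏ a, ((x a).den : ℤ), fun a => (∏ b ∈ Finset.univ.erase a, ((x b).den : ℤ)) * (x a).num,
    ?_, ?_⟩
  · exact Finset.prod_ne_zero_iff.2 fun a _ => by exact_mod_cast (x a).den_ne_zero
  · intro a
    rw [← Finset.mul_prod_erase Finset.univ _ (Finset.mem_univ a)]
    push_cast
    have : ((x a).den : ℚ) ≠ 0 := by exact_mod_cast (x a).den_ne_zero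
    have h2 : x a * ((x a).den : ℚ) = (x a).num := Rat.mul_den_eq_num (x a)
    calc ((x a).den : ℚ) * (∏ x_1 ∈ Finset.univ.erase a, ((x x_1).den : ℚ)) * x a
        = (∏ x_1 ∈ Finset.univ.erase a, ((x x_1).den : ℚ)) * (x a * ((x a).den : ℚ)) := by ring
      _ = _ := by rw [h2]

end Pool.Agent.H72.HR
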