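import Pool.Agent.H72.HR.HR1
import Pool.Agent.H72.BF.Targets2

open MvPolynomial Module Filter
open Pool.Agent.H72.BF (Pkg)

set_option linter.unusedSectionVars false

namespace Pool.Agent.H72.HR

section
variable {H : ℕ → ℝ} (P : Pkg H)

/-- integer monomial sequences -/
def zmon {ι : Type} [Fintype ι] (z : ℕ → ι → ℤ) (m : ι → ℕ) (t : ℕ) : ℤ := ∏ i, z t i ^ m i

theorem zmon_bound {ι : Type} [Fintype ι] (z : ℕ → ι → ℤ) (hz : ∀ t i, |(z t i : ℝ)| ≤ H t)
    (hH : ∀ t, 1 ≤ H t) (m : ι → ℕ) (D : ℕ) (hm : ∑ i, m i ≤ D) (t : ℕ) :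
    |(zmon z m t : ℝ)| ≤ H t ^ D := by
  unfold zmon
  push_cast
  rw [Finset.abs_prod]
  calc ∏ i, |(z t i : ℝ) ^ m i| ≤ ∏ i, H t ^ m i := by
        refine Finset.prod_le_prod (fun i _ => abs_nonneg _) fun i _ => ?_
        rw [abs_pow]
        exact pow_le_pow_left₀ (abs_nonneg _) (hz t i) _
    _ = H t ^ ∑ i, m i := by rw [Finset.prod_pow_eq_pow_sum]
    _ ≤ H t ^ D := pow_le_pow_right₀ (hH t) hm

theorem zmon_Bd {ι : Type} [Fintype ι] (z : ℕ → ι → ℤ) (hz : ∀ t i, |(z t i : ℝ)| ≤ H t)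
    (m : ι → ℕ) : P.Bd (zmon z m) := by
  apply P.bd_of_le (∑ i, m i)
  intro t
  exact zmon_bound z hz (fun t => by linarith [P.hH t]) m _ le_rfl t

theorem zmon_ev {ι : Type} [Fintype ι] (z : ℕ → ι → ℤ) (hz : ∀ t i, |(z t i : ℝ)| ≤ H t)
    (m : ι → ℕ) : P.evZ (zmon z m) = mon (fun i => P.evZ (fun t => z t i)) m := by
  have hb : ∀ i, P.Bd (fun t => z t i) := by
    intro i
    apply P.bd_of_le 1
    intro t
    simpa using hz t i
  have h1 : ∀ i (k : ℕ), (fun t => ((z t i ^ k : ℤ) : ℂ)) ∈ P.O ∧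
      P.ev (fun t => ((z t i ^ k : ℤ) : ℂ)) = P.evZ (fun t => z t i) ^ k := by
    intro i k
    have e1 : (fun t => ((z t i ^ k : ℤ) : ℂ)) = (fun t => ((z t i : ℤ) : ℂ)) ^ k := by
      funext t; simp
    rw [e1]
    exact ⟨P.O.pow_mem (hb i) k, P.ev_pow (hb i) k⟩
  unfold mon Pkg.evZ zmon
  have e2 : (fun t => ((∏ i, z t i ^ m i : ℤ) : ℂ)) = ∏ i, (fun t => ((z t i ^ m i : ℤ) : ℂ)) := by
    funext t
    rw [Finset.prod_apply]
    push_cast
    rfl
  rw [e2, P.ev_prod Finset.univ _ (fun i _ => (h1 i _).1)]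
  exact Finset.prod_congr rfl fun i _ => (h1 i _).2

/-- residues of integer combinations -/
theorem evZ_sum {α : Type} [Fintype α] (c : α → ℤ) (z : α → ℕ → ℤ) (hz : ∀ a, P.Bd (z a)) :
    P.Bd (fun t => ∑ a, c a * z a t) ∧
      P.evZ (fun t => ∑ a, c a * z a t) = ∑ a, (c a : P.F) * P.evZ (z a) := by
  classical
  have key : ∀ s : Finset α, P.Bd (fun t => ∑ a ∈ s, c a * z a t) ∧
      P.evZ (fun t => ∑ a ∈ s, c a * z a t) = ∑ a ∈ s, (c a : P.F) * P.evZ (z a) := by
    intro s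
    induction s using Finset.induction_on with
    | empty =>
      simp only [Finset.sum_empty]
      refine ⟨P.bd_const 0, ?_⟩
      rw [P.evZ_const]; simp
    | insert a s ha ih =>
      simp only [Finset.sum_insert ha]
      have h1 := (P.bd_const (c a)).mul (hz a)
      refine ⟨h1.add ih.1, ?_⟩
      rw [P.evZ_add h1 ih.1, ih.2, P.evZ_mul (P.bd_const _) (hz a), P.evZ_const]
  exact key Finset.univ

/-- a finite family of monomials with `ℚ`-independent residues has no small integer relation -/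
theorem ev_Ind {ι : Type} [Fintype ι] [DecidableEq ι] (z : ℕ → ι → ℤ)
    (hz : ∀ t i, |(z t i : ℝ)| ≤ H t)
    (b : Finset (ι → ℕ))
    (hli : LinearIndependent ℚ (fun x : b => mon (fun i => P.evZ (fun t => z t i)) x.1)) (A : ℕ) :
    ∀ᶠ t in (hyperfilter ℕ : Filter ℕ), Ind A (fun x : b => zmon z x.1 t) := by
  classical
  have hfin : {m : b → ℤ | ∀ a, |m a| ≤ A}.Finite := by
    refine Set.Finite.subset (Set.finite_Icc (fun _ => -(A : ℤ)) (fun _ => (A : ℤ))) ?_
    intro m hm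
    exact ⟨fun a => (abs_le.1 (hm a)).1, fun a => (abs_le.1 (hm a)).2⟩
  have h1 : ∀ m ∈ {m : b → ℤ | ∀ a, |m a| ≤ A}, ∀ᶠ t in (hyperfilter ℕ : Filter ℕ),
      (∑ a, m a * zmon z a.1 t = 0 → m = 0) := by
    intro m _
    by_cases hm0 : m = 0
    · exact Filter.Eventually.of_forall fun t _ => hm0
    · have h2 := evZ_sum P m (fun a : b => zmon z a.1) (fun a => zmon_Bd P z hz a.1)
      have h3 : P.evZ (fun t => ∑ a, m a * zmon z a.1 t) ≠ 0 := by
        rw [h2.2]
        intro h4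
        apply hm0
        rw [Fintype.linearIndependent_iff] at hli
        have h5 := hli (fun a => (m a : ℚ)) (by
          rw [← h4]
          refine Finset.sum_congr rfl fun a _ => ?_
          rw [zmon_ev P z hz, Rat.smul_def]
          simp)
        funext a
        have := h5 a
        exact_mod_cast this
      filter_upwards [P.evZ_dich h2.1 h3] with t ht h4
      exact absurd h4 ht
  have h5 := (Filter.eventually_all_finite hfin).2 h1
  filter_upwards [h5] with t ht
  intro m hm hs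
  exact ht m hm hs

end

theorem log_ceil_bound (x : ℝ) (hx : 2 ≤ x) :
    x ≤ Real.exp (⌈Real.log x⌉₊ : ℝ) ∧ (⌈Real.log x⌉₊ : ℝ) ≤ 3 * Real.log x := by
  have h0 : 0 < x := by linarith
  have hl2 : 0.69 < Real.log 2 := by linarith [Real.log_two_gt_d9]
  have hlx : Real.log 2 ≤ Real.log x := Real.log_le_log (by norm_num) hx
  constructor
  · calc x = Real.exp (Real.log x) := (Real.exp_log h0).symm
      _ ≤ _ := Real.exp_le_exp.2 (Nat.le_ceil _)
  · have := (Nat.ceil_lt_add_one (by linarith : 0 ≤ Real.log x)).le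
    linarith

set_option maxHeartbeats 4000000 in
theorem hrT (hPKG : Pool.Agent.H72.BF.T_PKG) (hFOL : T_FOL) : T_HR := by
  classical
  intro hFIN n lam K halg hMI l c
  by_contra hcon
  push Not at hcon
  have h1 : ∀ t : ℕ, ∃ H : ℝ, 2 ≤ H ∧ ∃ A : Fin (n + 1) → Matrix (Fin l) (Fin c) ℤ,
      (∀ k p j, |(A k p j : ℝ)| ≤ H) ∧ Semi K A ∧
      ∀ (m : ℕ) (I : Fin m → Fin l) (J : Fin m → Fin c), l * c ≤ m * (l + c) →
        H ^ ((t : ℝ) + 1) * ‖((Mv lam A).submatrix I J).det‖ < 1 := fun t =>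
    hcon ((t : ℝ) + 1) (by positivity)
  choose Hs hHs As hAs hSemi hsmall using h1
  obtain ⟨H, hH⟩ : ∃ H : ℕ → ℝ, H = fun t => max (Hs t) ((t : ℝ) + 2) := ⟨_, rfl⟩
  have hH2 : ∀ t, 2 ≤ H t := fun t => by rw [hH]; exact (hHs t).trans (le_max_left _ _)
  have hHsH : ∀ t, Hs t ≤ H t := fun t => by rw [hH]; exact le_max_left _ _
  have htH : ∀ t : ℕ, (t : ℝ) + 2 ≤ H t := fun t => by rw [hH]; exact le_max_right _ _
  obtain ⟨P⟩ := hPKG H hH2
  have hcof : ∀ {p : ℕ → Prop}, (∀ᶠ t in atTop, p t) → ∀ᶠ t in (hyperfilter ℕ : Filter ℕ), p t := by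
    intro p hp
    exact Nat.hyperfilter_le_atTop hp
  -- the matrix over F
  have hAO : ∀ k p j, P.Bd (fun t => As t k p j) := by
    intro k p j
    apply P.bd_of_le 1
    intro t
    rw [pow_one]
    exact (hAs t k p j).trans (hHsH t)
  have hMO : ∀ p j, (fun t => Mv lam (As t) p j) ∈ P.O := by
    intro p j
    have e1 : (fun t => Mv lam (As t) p j) = (fun t => ((As t 0 p j : ℤ) : ℂ)) +
        ∑ k : Fin n, (fun _ => lam k) * (fun t => ((As t k.succ p j : ℤ) : ℂ)) := by
      funext t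
      simp [Mv]
    rw [e1]
    exact P.O.add_mem (hAO 0 p j) (P.O.sum_mem fun k _ =>
      P.O.mul_mem (P.const_mem _) (hAO k.succ p j))
  obtain ⟨MF, hMF⟩ : ∃ MF : Fin l → Fin c → P.F, MF = fun p j => P.ev (fun t => Mv lam (As t) p j) :=
    ⟨_, rfl⟩
  obtain ⟨w, I, hwc, hI, hrow⟩ := exists_rows MF
  obtain ⟨J0, hJ0⟩ := exists_minor _ hI
  -- the rank is small
  have hdetev : ∀ {m : ℕ} (I : Fin m → Fin l) (J : Fin m → Fin c),
      (fun t => ((Mv lam (As t)).submatrix I J).det) ∈ P.O ∧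
      P.ev (fun t => ((Mv lam (As t)).submatrix I J).det) =
        (Matrix.of (fun x y => MF (I x) (J y))).det := by
    intro m I J
    have e1 : (fun t => ((Mv lam (As t)).submatrix I J).det) =
        ∑ s : Equiv.Perm (Fin m), (fun _ : ℕ => ((Equiv.Perm.sign s : ℤ) : ℂ)) *
          ∏ i, (fun t => Mv lam (As t) (I (s i)) (J i)) := by
      funext t
      rw [Matrix.det_apply']
      simp [Finset.sum_apply, Finset.prod_apply]
    have hprod : ∀ s : Equiv.Perm (Fin m),
        (∏ i, (fun t => Mv lam (As t) (I (s i)) (J i))) ∈ P.O := fun s =>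
      P.O.prod_mem fun i _ => hMO _ _
    rw [e1]
    refine ⟨P.O.sum_mem fun s _ => P.O.mul_mem (P.const_mem _) (hprod s), ?_⟩
    rw [P.ev_sum _ _ (fun s _ => P.O.mul_mem (P.const_mem _) (hprod s)), Matrix.det_apply']
    refine Finset.sum_congr rfl fun s _ => ?_
    rw [P.ev_mul (P.const_mem _) (hprod s), P.ev_prod _ _ (fun i _ => hMO _ _)]
    congr 1
    · have := P.evZ_const (Equiv.Perm.sign s : ℤ)
      exact this
    · simp [hMF]
  have hrank : w * (l + c) < l * c := by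
    by_contra hge
    push Not at hge
    apply hJ0
    rw [← (hdetev I J0).2, P.ev_eq_zero (hdetev I J0).1]
    intro e
    apply hcof
    -- (t+2)^e ≤ 2^t eventually
    have h2 : ∀ᶠ t : ℕ in atTop, ((t : ℝ) + 2) ^ e ≤ 2 ^ ((t : ℝ) + 1) := by
      have h3 : Tendsto (fun t : ℕ => ((t : ℝ) + 2) ^ e / 2 ^ t) atTop (nhds 0) := by
        have h4 : Tendsto (fun m : ℕ => (m : ℝ) ^ e / 2 ^ m) atTop (nhds 0) :=
          tendsto_pow_const_div_const_pow_of_one_lt e (by norm_num)
        have h5 := (h4.comp (tendsto_add_atTop_nat 2)).mul_const (4 : ℝ)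
        rw [zero_mul] at h5
        refine h5.congr fun t => ?_
        simp only [Function.comp]
        push_cast
        rw [pow_add]
        field_simp
        norm_num
      filter_upwards [h3.eventually (gt_mem_nhds (by norm_num : (0 : ℝ) < 1))] with t ht
      rw [div_lt_one (by positivity)] at ht
      rw [Real.rpow_add (by norm_num), Real.rpow_natCast, Real.rpow_one]
      nlinarith [pow_pos (by norm_num : (0 : ℝ) < 2) t]
    filter_upwards [h2, eventually_ge_atTop e] with t ht hte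
    have hs := hsmall t w I J0 hge
    have hpos : 0 < Hs t := by linarith [hHs t]
    have hx : 0 ≤ ‖((Mv lam (As t)).submatrix I J0).det‖ := norm_nonneg _
    have hle : H t ^ e ≤ Hs t ^ ((t : ℝ) + 1) := by
      rw [hH]
      simp only
      rcases le_total (Hs t) ((t : ℝ) + 2) with hc1 | hc1
      · rw [max_eq_right hc1]
        refine ht.trans ?_
        exact Real.rpow_le_rpow (by norm_num) (hHs t) (by positivity)
      · rw [max_eq_left hc1, ← Real.rpow_natCast]
        refine Real.rpow_le_rpow_of_exponent_le (by linarith [hHs t]) ?_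
        have : (e : ℝ) ≤ t := by exact_mod_cast hte
        linarith
    nlinarith [mul_le_mul_of_nonneg_left hle hx]
  have hlt : c * w < l * (c - w) := by
    have h3 : l * (c - w) + l * w = l * c := by
      rw [← Nat.mul_add]; congr 1; omega
    nlinarith
  -- the monomials
  let ι := Fin (n + 1) × Fin l × Fin c
  obtain ⟨z, hz⟩ : ∃ z : ℕ → ι → ℤ, z = fun t x => As t x.1 x.2.1 x.2.2 := ⟨_, rfl⟩
  have hzH : ∀ t i, |(z t i : ℝ)| ≤ H t := by
    intro t i
    rw [hz]
    exact (hAs t _ _ _).trans (hHsH t)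
  obtain ⟨be, hbe⟩ : ∃ be : ι → P.F, be = fun i => P.evZ (fun t => z t i) := ⟨_, rfl⟩
  obtain ⟨D, hD⟩ := hFOL P.F ι be (c * w) (l * (c - w)) hlt
  obtain ⟨b1, hb10, hb1D, hb1li, hb1span, hb1card⟩ := exists_mon_basis be (D + 1)
  obtain ⟨b0, hb00, hb0D, hb0li, hb0span, hb0card⟩ := exists_mon_basis be D
  -- structure constants
  have hstr : ∀ (k : Fin n) (p : Fin l) (a' : b0) (j : Fin c), ∃ y : b1 → ℚ,
      mon be a'.1 * be (k.succ, p, j) = ∑ a, y a • mon be a.1 := by
    intro k p a' j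
    have h4 : mon be a'.1 * be (k.succ, p, j) ∈ ED be (D + 1) := by
      refine Submodule.subset_span ⟨a'.1 + Pi.single (k.succ, p, j) 1, ?_, ?_⟩
      · simp only [Pi.add_apply, Finset.sum_add_distrib]
        refine Nat.add_le_add (hb0D a'.1 a'.2) ?_
        simp
      · simp only [Pi.add_apply, pow_add, Finset.prod_mul_distrib, mon]
        congr 1
        rw [Finset.prod_eq_single (k.succ, p, j)]
        · simp
        · intro x _ hx
          simp [Pi.single_apply, hx]
        · simp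
    rw [hb1span, Submodule.mem_span_range_iff_exists_fun] at h4
    obtain ⟨y, hy⟩ := h4
    exact ⟨y, hy.symm⟩
  choose y hy using hstr
  obtain ⟨m, yz, hm0, hyz⟩ := exists_common_den
    (fun x : Fin n × Fin l × b0 × Fin c × b1 => y x.1 x.2.1 x.2.2.1 x.2.2.2.1 x.2.2.2.2)
  -- coefficients b
  choose bF hbF using hrow
  have hlift : ∀ p x, ∃ (s : ℕ → ℂ) (e : ℕ), s ∈ P.O ∧ P.ev s = bF p x ∧
      ∀ᶠ t in (hyperfilter ℕ : Filter ℕ), ‖s t‖ ≤ H t ^ e := by
    intro p x
    obtain ⟨s, hs, hs'⟩ := P.exists_ev (bF p x)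
    obtain ⟨e, he⟩ := (P.memO s).1 hs
    exact ⟨s, e, hs, hs', he⟩
  choose bs be' hbs hbsev hbsb using hlift
  obtain ⟨e0, he0⟩ : ∃ e0 : ℕ, (∀ p x, be' p x ≤ e0) ∧ D + 1 ≤ e0 ∧ 1 ≤ e0 := by
    refine ⟨(∑ p, ∑ x, be' p x) + D + 1, fun p x => ?_, by omega, by omega⟩
    have h4 : be' p x ≤ ∑ p, ∑ x, be' p x :=
      (Finset.single_le_sum (f := be' p) (fun _ _ => Nat.zero_le _) (Finset.mem_univ x)).trans
        (Finset.single_le_sum (f := fun p => ∑ x, be' p x) (fun _ _ => Nat.zero_le _)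
          (Finset.mem_univ p))
    omega
  -- apply the finite form
  obtain ⟨A0, C3, h0, hfin⟩ := hFIN n lam K halg hMI l c w b0 b1 ⟨0, hb10⟩
    (fun k x x' => yz (k, x.1, x.2, x'.1, x'.2)) m e0 hm0 hwc (by
      rw [Fintype.card_coe, Fintype.card_coe, hb1card, hb0card]
      calc c * finrank ℚ (ED be (D + 1)) * w = c * w * finrank ℚ (ED be (D + 1)) := by ring
        _ < l * (c - w) * finrank ℚ (ED be D) := hD
        _ = _ := by ring)
  obtain ⟨hs, hhs⟩ : ∃ hs : ℕ → ℕ, hs = fun t => ⌈Real.log (H t)⌉₊ := ⟨_, rfl⟩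
  have hHexp : ∀ t, H t ≤ Real.exp (hs t) := fun t => by
    rw [hhs]; exact (log_ceil_bound _ (hH2 t)).1
  have hhslog : ∀ t, (hs t : ℝ) ≤ 3 * Real.log (H t) := fun t => by
    rw [hhs]; exact (log_ceil_bound _ (hH2 t)).2
  have hHpow : ∀ t (e : ℕ), e ≤ e0 → H t ^ e ≤ Real.exp ((e0 : ℝ) * hs t) := by
    intro t e he
    calc H t ^ e ≤ H t ^ e0 := pow_le_pow_right₀ (by linarith [hH2 t]) he
      _ ≤ Real.exp (hs t) ^ e0 := pow_le_pow_left₀ (by linarith [hH2 t]) (hHexp t) _
      _ = _ := by rw [← Real.exp_nat_mul]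
  -- eventually statements
  have E1 : ∀ᶠ t in (hyperfilter ℕ : Filter ℕ), h0 ≤ hs t := by
    apply hcof
    have h4 : Tendsto (fun t : ℕ => Real.log ((t : ℝ) + 2)) atTop atTop :=
      Real.tendsto_log_atTop.comp (tendsto_atTop_add_const_right _ _ tendsto_natCast_atTop_atTop)
    filter_upwards [h4.eventually_ge_atTop (h0 : ℝ)] with t ht
    rw [hhs]
    have h5 : (h0 : ℝ) ≤ Real.log (H t) :=
      ht.trans (Real.log_le_log (by positivity) (htH t))
    exact_mod_cast h5.trans (Nat.le_ceil _)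
  have E2 := ev_Ind P z hzH b0 (by rw [hbe] at hb0li; exact hb0li) A0
  have E3 := ev_Ind P z hzH b1 (by rw [hbe] at hb1li; exact hb1li) A0
  have E4 : ∀ᶠ t in (hyperfilter ℕ : Filter ℕ), ∀ (k : Fin n) (p : Fin l) (a' : b0) (j : Fin c),
      m * zmon z a'.1 t * As t k.succ p j =
        ∑ a, yz (k, p, a', j, a) * zmon z a.1 t := by
    rw [Filter.eventually_all]; intro k
    rw [Filter.eventually_all]; intro p
    rw [Filter.eventually_all]; intro a'
    rw [Filter.eventually_all]; intro j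
    have g1 := evZ_sum P (fun a : b1 => yz (k, p, a', j, a)) (fun a => zmon z a.1)
      (fun a => zmon_Bd P z hzH a.1)
    have g2 : P.Bd (fun t => m * zmon z a'.1 t * As t k.succ p j) :=
      ((P.bd_const m).mul (zmon_Bd P z hzH a'.1)).mul (hAO k.succ p j)
    have g3 : P.evZ (fun t => m * zmon z a'.1 t * As t k.succ p j) =
        (m : P.F) * (mon be a'.1 * be (k.succ, p, j)) := by
      rw [P.evZ_mul ((P.bd_const m).mul (zmon_Bd P z hzH a'.1)) (hAO k.succ p j),
        P.evZ_mul (P.bd_const m) (zmon_Bd P z hzH a'.1), P.evZ_const, zmon_ev P z hzH, ← hbe,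
        mul_assoc]
      congr 2
      rw [hbe, hz]
    have g4 : P.evZ (fun t => m * zmon z a'.1 t * As t k.succ p j) =
        P.evZ (fun t => ∑ a, yz (k, p, a', j, a) * zmon z a.1 t) := by
      rw [g3, g1.2, hy, Finset.mul_sum]
      refine Finset.sum_congr rfl fun a _ => ?_
      rw [zmon_ev P z hzH, ← hbe, Rat.smul_def, ← mul_assoc]
      congr 1
      have := hyz (k, p, a', j, a)
      have g5 := congrArg (fun r : ℚ => (r : P.F)) this
      push_cast at g5
      exact g5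
    have g6 := g2.add g1.1.neg
    have g7 : P.evZ (fun t => m * zmon z a'.1 t * As t k.succ p j +
        -∑ a, yz (k, p, a', j, a) * zmon z a.1 t) = 0 := by
      have e1 : P.evZ (fun t => -∑ a, yz (k, p, a', j, a) * zmon z a.1 t) =
          -P.evZ (fun t => ∑ a, yz (k, p, a', j, a) * zmon z a.1 t) := by
        unfold Pkg.evZ
        rw [← P.ev_neg g1.1]
        congr 1
        funext t
        simp
      rw [P.evZ_add g2 g1.1.neg, e1, g4]
      exact add_neg_cancel _
    filter_upwards [(P.evZ_eq_zero g6).1 g7] with t ht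
    linarith
  have E5 : ∀ᶠ t in (hyperfilter ℕ : Filter ℕ), ∀ (p : Fin l) (x : Fin w),
      ‖bs p x t‖ ≤ Real.exp ((e0 : ℝ) * hs t) := by
    rw [Filter.eventually_all]; intro p
    rw [Filter.eventually_all]; intro x
    filter_upwards [hbsb p x] with t ht
    exact ht.trans (hHpow t _ (he0.1 p x))
  have E6 : ∀ᶠ t in (hyperfilter ℕ : Filter ℕ), ∀ (p : Fin l) (j : Fin c),
      ‖Mv lam (As t) p j - ∑ x, bs p x t * Mv lam (As t) (I x) j‖ ≤
        Real.exp (-(C3 * hs t)) := by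
    rw [Filter.eventually_all]; intro p
    rw [Filter.eventually_all]; intro j
    have g1 : (∑ x, bs p x * (fun t => Mv lam (As t) (I x) j)) ∈ P.O :=
      P.O.sum_mem fun x _ => P.O.mul_mem (hbs p x) (hMO _ _)
    have g2 : P.ev ((fun t => Mv lam (As t) p j) - ∑ x, bs p x * (fun t => Mv lam (As t) (I x) j))
        = 0 := by
      rw [P.ev_sub (hMO p j) g1, P.ev_sum _ _ (fun x _ => P.O.mul_mem (hbs p x) (hMO _ _))]
      rw [sub_eq_zero]
      have g3 := congrFun (hbF p) j
      rw [hMF] at g3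
      simp only [Finset.sum_apply, Pi.smul_apply, smul_eq_mul] at g3
      rw [g3]
      refine Finset.sum_congr rfl fun x _ => ?_
      rw [P.ev_mul (hbs p x) (hMO _ _), hbsev]
    rw [P.ev_eq_zero (P.O.sub_mem (hMO p j) g1)] at g2
    have g4 := g2 ⌈3 * |C3|⌉₊
    filter_upwards [g4] with t ht
    have hHpos : 0 < H t := by linarith [hH2 t]
    have g5 : Real.exp (C3 * hs t) ≤ H t ^ ⌈3 * |C3|⌉₊ := by
      calc Real.exp (C3 * hs t) ≤ Real.exp (Real.log (H t) * (3 * |C3|)) := by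
            apply Real.exp_le_exp.2
            have g6 : C3 * hs t ≤ |C3| * hs t :=
              mul_le_mul_of_nonneg_right (le_abs_self _) (by positivity)
            nlinarith [hhslog t, abs_nonneg C3]
        _ = H t ^ (3 * |C3|) := by rw [Real.rpow_def_of_pos hHpos]
        _ ≤ H t ^ ((⌈3 * |C3|⌉₊ : ℕ) : ℝ) :=
            Real.rpow_le_rpow_of_exponent_le (by linarith [hH2 t]) (Nat.le_ceil _)
        _ = _ := Real.rpow_natCast _ _
    rw [Real.exp_neg, ← one_div, le_div_iff₀ (Real.exp_pos _)]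
    simp only [Pi.sub_apply, Finset.sum_apply, Pi.mul_apply] at ht
    exact (mul_le_mul_of_nonneg_left g5 (norm_nonneg _)).trans ht
  obtain ⟨t, h_1, h_2, h_3, h_4, h_5, h_6⟩ :=
    (E1.and (E2.and (E3.and (E4.and (E5.and E6))))).exists
  refine hfin (hs t) h_1 (fun a => zmon z a.1 t) (fun a => zmon z a.1 t) (As t) ?_ h_2 h_3 ?_ ?_ ?_
    ?_ (hSemi t) I (fun p x => bs p x t) h_5 h_6
  · simp [zmon]
  · intro a
    exact (zmon_bound z hzH (fun t => by linarith [hH2 t]) a.1 D (hb0D a.1 a.2) t).trans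
      (hHpow t D (by omega))
  · intro a
    exact (zmon_bound z hzH (fun t => by linarith [hH2 t]) a.1 (D + 1) (hb1D a.1 a.2) t).trans
      (hHpow t (D + 1) he0.2.1)
  · intro k p j
    refine ((hAs t k p j).trans (hHsH t)).trans ?_
    have := hHpow t 1 he0.2.2
    rwa [pow_one] at this
  · intro k p a' j
    exact h_4 k p a' j

end Pool.Agent.H72.HR
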