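import Pool.Agent.H72.HR.Targets

open MvPolynomial Module Filter

namespace Pool.Agent.H72.HR

noncomputable section

theorem box_finrank {σ : Type} [Fintype σ] [DecidableEq σ] (T : σ → ℕ) :
    FiniteDimensional ℂ (box T) ∧ finrank ℂ (box T) ≤ ∏ i, (T i + 1) := by
  classical
  obtain ⟨s, hs⟩ : ∃ s : Set (σ →₀ ℕ), s = {m : σ →₀ ℕ | ∀ i, m i ≤ T i} := ⟨_, rfl⟩
  obtain ⟨f, hf⟩ : ∃ f : s → (∀ i, Fin (T i + 1)),
      f = fun m i => ⟨m.1 i, Nat.lt_succ_of_le (hs.le m.2 i)⟩ :=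
    ⟨_, rfl⟩
  have hinj : Function.Injective f := by
    intro m m' h
    apply Subtype.ext
    ext i
    have h1 := congrFun h i
    rw [hf] at h1
    exact congrArg Fin.val h1
  have hfin : Finite s := Finite.of_injective f hinj
  have := Fintype.ofFinite s
  have hb : box T = restrictSupport ℂ s := by
    rw [hs]
    rfl
  rw [hb]
  refine ⟨Module.Finite.of_basis (basisRestrictSupport ℂ s), ?_⟩
  rw [finrank_eq_card_basis (basisRestrictSupport ℂ s)]
  have h2 := Fintype.card_le_of_injective f hinj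
  rwa [Fintype.card_pi, Finset.prod_congr rfl (fun i _ => Fintype.card_fin _)] at h2

theorem limit_lemma {ι : Type} [Fintype ι] (T : ι → ℕ) (N c0 : ℕ)
    (h : ∀ m : ℕ, 1 ≤ m → N * m ^ Fintype.card ι ≤
      ∏ i, ((Fintype.card ι * m + c0) * T i + 1)) :
    N ≤ Fintype.card ι ^ Fintype.card ι * ∏ i, T i := by
  obtain ⟨k, hk⟩ : ∃ k, k = Fintype.card ι := ⟨_, rfl⟩
  rw [← hk] at h ⊢
  have hlim : Tendsto (fun m : ℕ => ∏ i : ι,
      (((k : ℝ) + c0 / (m : ℝ)) * T i + 1 / (m : ℝ))) atTop (nhds (∏ i : ι, (k : ℝ) * T i)) := by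
    apply tendsto_finsetProd
    intro i _
    have h1 : Tendsto (fun m : ℕ => (c0 : ℝ) / (m : ℝ)) atTop (nhds 0) :=
      tendsto_const_div_atTop_nhds_zero_nat _
    have h2 : Tendsto (fun m : ℕ => (1 : ℝ) / (m : ℝ)) atTop (nhds 0) :=
      tendsto_const_div_atTop_nhds_zero_nat _
    have h3 := ((h1.const_add (k : ℝ)).mul_const (T i : ℝ)).add h2
    simpa using h3
  have hle : (N : ℝ) ≤ ∏ i : ι, (k : ℝ) * T i := by
    refine ge_of_tendsto hlim ?_
    filter_upwards [eventually_ge_atTop 1] with m hm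
    have hm0 : (0 : ℝ) < m := by exact_mod_cast hm
    have h1 : ((N * m ^ k : ℕ) : ℝ) ≤ ((∏ i, ((k * m + c0) * T i + 1) : ℕ) : ℝ) := by
      exact_mod_cast h m hm
    push_cast at h1
    have h2 : ∏ i : ι, (((k : ℝ) + c0 / (m : ℝ)) * T i + 1 / (m : ℝ)) =
        (∏ i : ι, (((k : ℝ) * m + c0) * T i + 1)) / (m : ℝ) ^ k := by
      rw [hk, ← Finset.card_univ, ← Finset.prod_const, ← Finset.prod_div_distrib]
      refine Finset.prod_congr rfl fun i _ => ?_
      field_simp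
    rw [h2, le_div_iff₀ (by positivity)]
    exact h1
  have h4 : ∏ i : ι, (k : ℝ) * T i = ((k ^ k * ∏ i, T i : ℕ) : ℝ) := by
    rw [Finset.prod_mul_distrib, Finset.prod_const, Finset.card_univ, ← hk]
    push_cast
    rfl
  rw [h4] at hle
  exact_mod_cast hle

end

end Pool.Agent.H72.HR
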