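import Pool.Agent.H72.HR.ShortVec
import Pool.Agent.H30.BF.EXPU

/-!
Closed subgroups of `ℂ^r × (ℂ^*)^d` are products of a linear subspace and a torus part cut out by
monomials of bounded exponents (module for MP_3cf473_nt, HR).
-/

namespace Pool.Agent.H72.HR

open Finset Module MvPolynomial

/-- The group `ℂ^r × (ℂ^*)^d`. -/
abbrev GP (r d : ℕ) := (Fin r → ℂ) × (Fin d → ℂˣ)

/-- The monomial `z^μ`. -/
def zm {d : ℕ} (z : Fin d → ℂˣ) (μ : Fin d → ℤ) : ℂˣ := ∏ i, z i ^ μ i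

theorem zm_one {d : ℕ} (μ : Fin d → ℤ) : zm (1 : Fin d → ℂˣ) μ = 1 := by
  simp [zm]

theorem zm_mul {d : ℕ} (z w : Fin d → ℂˣ) (μ : Fin d → ℤ) : zm (z * w) μ = zm z μ * zm w μ := by
  simp [zm, mul_zpow, Finset.prod_mul_distrib]

theorem zm_inv {d : ℕ} (z : Fin d → ℂˣ) (μ : Fin d → ℤ) : zm z⁻¹ μ = (zm z μ)⁻¹ := by
  simp [zm, Finset.prod_inv_distrib]

theorem zm_pow {d : ℕ} (z : Fin d → ℂˣ) (n : ℕ) (μ : Fin d → ℤ) : zm (z ^ n) μ = zm z μ ^ n := by
  induction n with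
  | zero => simp [zm_one]
  | succ n ih => rw [pow_succ, zm_mul, ih, pow_succ]

theorem zm_add {d : ℕ} (z : Fin d → ℂˣ) (μ ν : Fin d → ℤ) : zm z (μ + ν) = zm z μ * zm z ν := by
  simp [zm, zpow_add, Finset.prod_mul_distrib]

theorem zm_zero {d : ℕ} (z : Fin d → ℂˣ) : zm z 0 = 1 := by
  simp [zm]

theorem zm_neg {d : ℕ} (z : Fin d → ℂˣ) (μ : Fin d → ℤ) : zm z (-μ) = (zm z μ)⁻¹ := by
  simp [zm, Finset.prod_inv_distrib]

theorem zm_sub {d : ℕ} (z : Fin d → ℂˣ) (μ ν : Fin d → ℤ) : zm z (μ - ν) = zm z μ / zm z ν := by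
  rw [sub_eq_add_neg, zm_add, zm_neg, div_eq_mul_inv]

/-- Laurent polynomial functions with exponents at most `D` in absolute value. -/
def LFn (r d D : ℕ) (f : GP r d → ℂ) : Prop :=
  ∃ (M : Finset (Fin d → ℤ)) (P : (Fin d → ℤ) → MvPolynomial (Fin r) ℂ),
    (∀ μ ∈ M, ∀ i, |μ i| ≤ D) ∧
    ∀ x z, f (x, z) = ∑ μ ∈ M, eval x (P μ) * ((zm z μ : ℂˣ) : ℂ)

/-- If a Laurent polynomial function vanishes on the powers of `(x, z)`, then it vanishes at
`(t x, 1)` for all `t`, and at `(0, z)`. -/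
theorem vanish_split {r d D : ℕ} {f : GP r d → ℂ} (hf : LFn r d D f) (x : Fin r → ℂ)
    (z : Fin d → ℂˣ) (h : ∀ n : ℕ, f ((n : ℂ) • x, z ^ n) = 0) :
    (∀ t : ℂ, f (t • x, 1) = 0) ∧ f (0, z) = 0 := by
  classical
  obtain ⟨M, P, -, hfe⟩ := hf
  let Q : (Fin d → ℤ) → Polynomial ℂ := fun μ =>
    aeval (fun i => Polynomial.C (x i) * Polynomial.X) (P μ)
  have hQ : ∀ μ (t : ℂ), (Q μ).eval t = eval (t • x) (P μ) := by
    intro μ t
    simp only [Q]
    induction P μ using MvPolynomial.induction_on with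
    | C a => simp
    | add p q hp hq => simp only [map_add, Polynomial.eval_add, hp, hq]
    | mul_X p i hp =>
      simp only [map_mul, Polynomial.eval_mul, hp, aeval_X, eval_X, Polynomial.eval_C,
        Polynomial.eval_X, Pi.smul_apply, smul_eq_mul]
      ring
  let Γ : Finset ℂ := M.image fun μ => ((zm z μ : ℂˣ) : ℂ)
  let c : ℂ → Polynomial ℂ := fun ζ => ∑ μ ∈ M with ((zm z μ : ℂˣ) : ℂ) = ζ, Q μ
  obtain ⟨e, he⟩ : ∃ e : ℕ, ∀ ζ ∈ Γ, (c ζ).degree < e := by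
    refine ⟨Γ.sup (fun ζ => (c ζ).natDegree) + 1, fun ζ hζ => ?_⟩
    refine lt_of_le_of_lt Polynomial.degree_le_natDegree ?_
    have := Finset.le_sup (f := fun ζ => (c ζ).natDegree) hζ
    exact_mod_cast Nat.lt_succ_of_le this
  have h0 : (0 : ℂ) ∉ Γ := by
    intro h
    obtain ⟨μ, -, hμ⟩ := Finset.mem_image.1 h
    exact (zm z μ).ne_zero hμ
  have hc : ∀ ζ ∈ Γ, c ζ = 0 := by
    refine Pool.Agent.H30.BF.expu Γ c e h0 he ?_
    intro s _
    have h1 := h s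
    rw [hfe] at h1
    rw [← h1, ← Finset.sum_fiberwise_of_maps_to (s := M) (t := Γ) (g := fun μ => ((zm z μ : ℂˣ) : ℂ))
      (fun μ hμ => Finset.mem_image_of_mem _ hμ)]
    refine Finset.sum_congr rfl fun ζ _ => ?_
    simp only [c, Polynomial.eval_finsetSum]
    rw [Finset.sum_mul]
    refine Finset.sum_congr rfl fun μ hμ => ?_
    rw [hQ, zm_pow, Units.val_pow_eq_pow_val, (Finset.mem_filter.1 hμ).2]
  constructor
  · intro t
    rw [hfe, ← Finset.sum_fiberwise_of_maps_to (s := M) (t := Γ) (g := fun μ => ((zm z μ : ℂˣ) : ℂ))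
      (fun μ hμ => Finset.mem_image_of_mem _ hμ)]
    refine Finset.sum_eq_zero fun ζ hζ => ?_
    have h1 := congrArg (Polynomial.eval t) (hc ζ hζ)
    simp only [c, Polynomial.eval_finsetSum, Polynomial.eval_zero] at h1
    rw [← h1]
    refine Finset.sum_congr rfl fun μ _ => ?_
    rw [hQ, zm_one, Units.val_one, mul_one]
  · rw [hfe, ← Finset.sum_fiberwise_of_maps_to (s := M) (t := Γ) (g := fun μ => ((zm z μ : ℂˣ) : ℂ))
      (fun μ hμ => Finset.mem_image_of_mem _ hμ)]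
    refine Finset.sum_eq_zero fun ζ hζ => ?_
    have h1 := congrArg (Polynomial.eval 0) (hc ζ hζ)
    simp only [c, Polynomial.eval_finsetSum, Polynomial.eval_zero] at h1
    rw [show (0 : ℂ) = (∑ μ ∈ M with ((zm z μ : ℂˣ) : ℂ) = ζ, Polynomial.eval 0 (Q μ)) * ζ by rw [h1, zero_mul],
      Finset.sum_mul]
    refine Finset.sum_congr rfl fun μ hμ => ?_
    rw [hQ, zero_smul, (Finset.mem_filter.1 hμ).2]

/-- A subgroup of `ℂ^r × (ℂ^*)^d` defined by Laurent polynomial functions with exponents at most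
`D` is `L × T`, `L` a linear subspace and `T` cut out by monomials `z^λ`, `|λ| ≤ 2 D`. -/
theorem stab_split {r d D : ℕ} (S : Set (GP r d)) (F : Set (GP r d → ℂ))
    (hF : ∀ f ∈ F, LFn r d D f) (hS : ∀ g, g ∈ S ↔ ∀ f ∈ F, f g = 0)
    (one : ((0 : Fin r → ℂ), (1 : Fin d → ℂˣ)) ∈ S)
    (mul : ∀ g ∈ S, ∀ h ∈ S, (g.1 + h.1, g.2 * h.2) ∈ S)
    (inv : ∀ g ∈ S, (-g.1, g.2⁻¹) ∈ S) :
    ∃ (L : Submodule ℂ (Fin r → ℂ)) (Λ : AddSubgroup (Fin d → ℤ)),
      (∀ x z, (x, z) ∈ S ↔ x ∈ L ∧ ∀ lam ∈ Λ, zm z lam = 1) ∧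
      (∀ x z, (x, z) ∈ S ↔ x ∈ L ∧ ∀ lam ∈ Λ, (∀ i, |lam i| ≤ 2 * D) → zm z lam = 1) ∧
      (∀ lam, lam ∈ Λ ↔ ∀ x z, (x, z) ∈ S → zm z lam = 1) := by
  classical
  have pow : ∀ g ∈ S, ∀ n : ℕ, ((n : ℂ) • g.1, g.2 ^ n) ∈ S := by
    intro g hg n
    induction n with
    | zero => simpa using one
    | succ n ih =>
      have := mul _ ih _ hg
      simpa [add_smul, pow_succ] using this
  have hsp : ∀ x z, (x, z) ∈ S → (∀ t : ℂ, (t • x, (1 : Fin d → ℂˣ)) ∈ S) ∧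
      ((0 : Fin r → ℂ), z) ∈ S := by
    intro x z hxz
    have h1 : ∀ f ∈ F, (∀ t : ℂ, f (t • x, 1) = 0) ∧ f (0, z) = 0 := by
      intro f hf
      exact vanish_split (hF f hf) x z fun n => (hS _).1 (pow _ hxz n) f hf
    exact ⟨fun t => (hS _).2 fun f hf => (h1 f hf).1 t, (hS _).2 fun f hf => (h1 f hf).2⟩
  let L : Submodule ℂ (Fin r → ℂ) :=
    { carrier := {x | (x, (1 : Fin d → ℂˣ)) ∈ S}
      add_mem' := by
        intro a b ha hb
        have := mul _ ha _ hb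
        simpa using this
      zero_mem' := one
      smul_mem' := by
        intro c x hx
        exact (hsp _ _ hx).1 c }
  let Λ : AddSubgroup (Fin d → ℤ) :=
    { carrier := {lam | ∀ x z, (x, z) ∈ S → zm z lam = 1}
      add_mem' := by
        intro a b ha hb x z hxz
        rw [zm_add, ha x z hxz, hb x z hxz, mul_one]
      zero_mem' := fun x z _ => zm_zero z
      neg_mem' := by
        intro a ha x z hxz
        rw [zm_neg, ha x z hxz, inv_one] }
  have hL : ∀ x, x ∈ L ↔ (x, (1 : Fin d → ℂˣ)) ∈ S := fun x => Iff.rfl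
  have hΛ : ∀ lam, lam ∈ Λ ↔ ∀ x z, (x, z) ∈ S → zm z lam = 1 := fun lam => Iff.rfl
  -- the torus part as a submonoid
  let T : Subgroup (Fin d → ℂˣ) :=
    { carrier := {z | ((0 : Fin r → ℂ), z) ∈ S}
      mul_mem' := by
        intro a b ha hb
        have := mul _ ha _ hb
        simpa using this
      one_mem' := one
      inv_mem' := by
        intro a ha
        have := inv _ ha
        simpa using this }
  -- main point: `z` killed by the small elements of `Λ` lies in `T`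
  have key : ∀ z : Fin d → ℂˣ, (∀ lam ∈ Λ, (∀ i, |lam i| ≤ 2 * D) → zm z lam = 1) →
      ((0 : Fin r → ℂ), z) ∈ S := by
    intro z hz
    rw [hS]
    intro f hf
    obtain ⟨M, P, hM, hfe⟩ := hF f hf
    -- characters of `T`
    let χ : (Fin d → ℤ) → (T →* ℂ) := fun μ =>
      { toFun := fun t => ((zm (t : Fin d → ℂˣ) μ : ℂˣ) : ℂ)
        map_one' := by simp [zm_one]
        map_mul' := by
          intro a b
          simp [zm_mul] }
    have hχ : ∀ μ ν, χ μ = χ ν → μ - ν ∈ Λ := by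
      intro μ ν h x w hxw
      have hw : w ∈ T := (hsp x w hxw).2
      have h1 := congrArg (fun φ : T →* ℂ => φ ⟨w, hw⟩) h
      have h2 : ((zm w μ : ℂˣ) : ℂ) = ((zm w ν : ℂˣ) : ℂ) := h1
      rw [zm_sub, Units.ext h2, div_self']
    have hlin := linearIndependent_monoidHom T ℂ
    let Γ : Finset (T →* ℂ) := M.image χ
    have hsum : ∑ φ ∈ Γ, (∑ μ ∈ M with χ μ = φ, eval 0 (P μ)) • (φ : T → ℂ) = 0 := by
      funext t
      have ht := (hS _).1 t.2 f hf
      rw [hfe] at ht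
      rw [Finset.sum_apply, Pi.zero_apply, ← ht,
        ← Finset.sum_fiberwise_of_maps_to (s := M) (t := Γ) (g := χ)
          (fun μ hμ => Finset.mem_image_of_mem _ hμ)]
      refine Finset.sum_congr rfl fun φ _ => ?_
      rw [Pi.smul_apply, smul_eq_mul, Finset.sum_mul]
      refine Finset.sum_congr rfl fun μ hμ => ?_
      rw [← (Finset.mem_filter.1 hμ).2]
      rfl
    have hcoef : ∀ φ ∈ Γ, (∑ μ ∈ M with χ μ = φ, eval 0 (P μ)) = 0 :=
      linearIndependent_iff'.1 hlin Γ _ hsum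
    rw [hfe, ← Finset.sum_fiberwise_of_maps_to (s := M) (t := Γ) (g := χ)
          (fun μ hμ => Finset.mem_image_of_mem _ hμ)]
    refine Finset.sum_eq_zero fun φ hφ => ?_
    obtain ⟨ν, hν, hνφ⟩ := Finset.mem_image.1 hφ
    have h1 := hcoef φ hφ
    rw [show (0 : ℂ) = (∑ μ ∈ M with χ μ = φ, eval 0 (P μ)) * ((zm z ν : ℂˣ) : ℂ) by
      rw [h1, zero_mul], Finset.sum_mul]
    refine Finset.sum_congr rfl fun μ hμ => ?_
    obtain ⟨hμM, hμφ⟩ := Finset.mem_filter.1 hμ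
    have h2 : μ - ν ∈ Λ := hχ μ ν (hμφ.trans hνφ.symm)
    have h3 : zm z (μ - ν) = 1 := by
      apply hz _ h2
      intro i
      have h4 := hM μ hμM i
      have h5 := hM ν hν i
      rw [Pi.sub_apply]
      rw [abs_le] at h4 h5 ⊢
      constructor <;> linarith [h4.1, h4.2, h5.1, h5.2]
    rw [zm_sub, div_eq_one] at h3
    rw [h3]
  have hfwd : ∀ x z, (x, z) ∈ S → x ∈ L ∧ ∀ lam ∈ Λ, zm z lam = 1 := by
    intro x z hxz
    refine ⟨?_, fun lam hlam => hlam x z hxz⟩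
    have := (hsp x z hxz).1 1
    rwa [one_smul] at this
  have hbwd : ∀ x z, x ∈ L → (∀ lam ∈ Λ, (∀ i, |lam i| ≤ 2 * D) → zm z lam = 1) → (x, z) ∈ S := by
    intro x z hx hz
    have := mul _ ((hL x).1 hx) _ (key z hz)
    simpa using this
  exact ⟨L, Λ, fun x z => ⟨hfwd x z, fun h => hbwd x z h.1 fun lam hl _ => h.2 lam hl⟩,
    fun x z => ⟨fun h => ⟨(hfwd x z h).1, fun lam hl _ => (hfwd x z h).2 lam hl⟩,
      fun h => hbwd x z h.1 h.2⟩, hΛ⟩

end Pool.Agent.H72.HR
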