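import Pool.Agent.H72.HR.Defs
import Pool.Agent.H72.BF.Basic2

open MvPolynomial Module

namespace Pool.Agent.H72.HR

/-! Targets of the board hrk_modules. -/

/-! ### Part Z: the zero estimate -/

/-- the NEF lemma -/
def T_NEF : Prop := ∀ (k A : Type) [Field k] [CommRing A] [Algebra k A] [IsNoetherianRing A]
  (V : ℕ → Submodule k A) (F : ℕ → Ideal A) (L : Set A),
  Monotone V → (∀ m, FiniteDimensional k (V m)) → (∀ a, ∃ m, a ∈ V m) →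
  (∀ m n a b, a ∈ V m → b ∈ V n → a * b ∈ V (m + n)) →
  F 0 = ⊤ → (∀ f ∈ L, ∀ n, ∀ g ∈ F n, f * g ∈ F (n + 1)) → (∀ f ∈ L, f ∈ V 1) →
  (∀ I : Ideal A, I.IsPrime → L ⊆ I → Module.Finite k (A ⧸ I) ∨ ∀ n, I ⊔ F n = ⊤) →
  ∃ c, ∀ n, Module.Finite k (A ⧸ F n) ∧ finrank k (A ⧸ F n) ≤ finrank k (V (n + c))

/-- calculus of translations and invariant derivations -/
def T_CAL : Prop := ∀ (σ : Type) [Fintype σ] [DecidableEq σ] (κ : σ → Bool),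
  (∀ g h f, eval (pt κ h) (tr κ g f) = eval (pt κ (g + h)) f) ∧
  (∀ g h f, tr κ g (tr κ h f) = tr κ (g + h) f) ∧
  (∀ f, tr κ 0 f = f) ∧
  (∀ g v f, dv κ v (tr κ g f) = tr κ g (dv κ v f)) ∧
  (∀ v w f, dv κ v (dv κ w f) = dv κ w (dv κ v f)) ∧
  (∀ v w f, dv κ (v + w) f = dv κ v f + dv κ w f) ∧
  (∀ (a : ℂ) v f, dv κ (a • v) f = a • dv κ v f) ∧
  (∀ T g, ∀ f ∈ box T, tr κ g f ∈ box T) ∧
  (∀ T v, ∀ f ∈ box T, dv κ v f ∈ box T) ∧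
  (∀ g v f (t : ℂ), HasDerivAt (fun t : ℂ => eval (pt κ (g + t • v)) f)
    (eval (pt κ (g + t • v)) (dv κ v f)) t)

/-- weight ideals -/
def T_WT : Prop := ∀ (σ : Type) [Fintype σ] [DecidableEq σ] (κ : σ → Bool)
  (W : Submodule ℂ (σ → ℂ)) (S : ℕ) (g : σ → ℂ),
  (∀ n, ∃ I : Ideal (MvPolynomial σ ℂ), (I : Set (MvPolynomial σ ℂ)) = wt κ W S g n) ∧
  wt κ W S g 0 = Set.univ ∧
  (∀ m n, ∀ f ∈ wt κ W S g m, ∀ f' ∈ wt κ W S g n, f * f' ∈ wt κ W S g (m + n)) ∧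
  (∀ f, (∀ w ∈ W, ∀ m ≤ S, eval (pt κ g) ((dv κ w)^[m] f) = 0) → f ∈ wt κ W S g 1) ∧
  (∀ f n, eval (pt κ g) f = 0 → f ^ ((S + 1) * n) ∈ wt κ W S g n)

/-- lower bound for the number of conditions -/
def T_MUL : Prop := ∀ (ι : Type) [Fintype ι] [DecidableEq ι] (κ : ι → Bool)
  (W : Submodule ℂ (ι → ℂ)) (S m : ℕ) (F : Finset (ι → ℂ)) (I : Ideal (MvPolynomial ι ℂ)),
  1 ≤ Fintype.card ι → (∀ g ∈ F, ∀ g' ∈ F, pt κ g = pt κ g' → g = g') →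
  (∀ f ∈ I, ∀ g ∈ F, f ∈ wt κ W S g (Fintype.card ι * m)) →
  Module.Finite ℂ (MvPolynomial ι ℂ ⧸ I) →
  F.card * ((S + 1) ^ finrank ℂ W * m ^ Fintype.card ι) ≤ finrank ℂ (MvPolynomial ι ℂ ⧸ I)

/-- zero estimate for finite zero sets -/
def T_SLC : Prop := ∀ (ι : Type) [Fintype ι] [DecidableEq ι] (κ : ι → Bool) (T : ι → ℕ)
  (W : Submodule ℂ (ι → ℂ)) (S : ℕ) (L : Submodule ℂ (MvPolynomial ι ℂ)) (F : Finset (ι → ℂ)),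
  (∀ i, 1 ≤ T i) → L ≤ box T →
  {a : ι → ℂ | (∀ i, κ i = true → a i ≠ 0) ∧ ∀ h ∈ L, eval a h = 0}.Finite →
  (∀ g ∈ F, ∀ g' ∈ F, pt κ g = pt κ g' → g = g') →
  (∀ g ∈ F, ∀ h ∈ L, ∀ w ∈ W, ∀ m ≤ S, eval (pt κ g) ((dv κ w)^[m] h) = 0) →
  F.card * (S + 1) ^ finrank ℂ W ≤ Fintype.card ι ^ Fintype.card ι * ∏ i, T i

/-- structure of the stabiliser of a space of polynomials -/
def T_STR : Prop := ∀ (σ : Type) [Fintype σ] [DecidableEq σ] (κ : σ → Bool) (T : σ → ℕ)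
  (N : Submodule ℂ (MvPolynomial σ ℂ)), N ≤ box T →
  ∃ (L : Submodule ℂ (σ → ℂ)) (Θ : Set (σ → ℤ)), Std κ T L Θ ∧ stab κ N = Grp κ L Θ

/-- the chain argument -/
def T_CHN : Prop := ∀ (σ : Type) [Fintype σ] [DecidableEq σ] (κ : σ → Bool) (T : σ → ℕ)
  (W : Submodule ℂ (σ → ℂ)) (Γ : Set (σ → ℂ)) (S : ℕ) (P : MvPolynomial σ ℂ),
  (0 : σ → ℂ) ∈ Γ → P ≠ 0 → P ∈ box T →
  (∀ f ∈ chn κ W Γ S P (Fintype.card σ), eval (pt κ 0) f = 0) →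
  ∃ j < Fintype.card σ, ∃ N : Submodule ℂ (MvPolynomial σ ℂ), N ≤ box T ∧
    chn κ W Γ S P (j + 1) ≤ N ∧
    (∃ Z : Finset (σ → ℂ), ∀ g ∈ sig κ (chn κ W Γ S P j) N, ∃ z ∈ Z, g - z ∈ stab κ N) ∧
    stab κ N ≠ Set.univ

/-- comultiplication -/
def T_COM : Prop := ∀ (σ : Type) [Fintype σ] [DecidableEq σ] (κ : σ → Bool)
  (φ : MvPolynomial σ ℂ →ₗ[ℂ] ℂ), ∃ Hc : MvPolynomial σ ℂ →ₗ[ℂ] MvPolynomial σ ℂ,
  (∀ T, ∀ f ∈ box T, Hc f ∈ box T) ∧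
  (∀ f g, eval (pt κ g) (Hc f) = φ (tr κ g f)) ∧
  (∀ v f, Hc (dv κ v f) = dv κ v (Hc f))

/-- the zero estimate -/
def T_ZE : Prop := ∀ (ρ τ : Type) [Fintype ρ] [Fintype τ] [DecidableEq ρ] [DecidableEq τ]
  (T0 T1 S : ℕ) (W : Submodule ℂ (ρ ⊕ τ → ℂ)) (Γ : Set (ρ ⊕ τ → ℂ)) (P : MvPolynomial (ρ ⊕ τ) ℂ),
  1 ≤ T0 → 1 ≤ T1 → (0 : ρ ⊕ τ → ℂ) ∈ Γ → P ≠ 0 → P ∈ box (TT T0 T1) →
  (∀ f ∈ chn kap W Γ S P (Fintype.card ρ + Fintype.card τ), eval (pt kap 0) f = 0) →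
  ∃ (L : Submodule ℂ (ρ ⊕ τ → ℂ)) (Θ : Set (ρ ⊕ τ → ℤ)), Std kap (TT T0 T1) L Θ ∧
    finrank ℂ L ≤ Fintype.card ρ ∧ finrank ℂ (Lie kap ⊥ Θ) ≤ Fintype.card τ ∧
    finrank ℂ L + finrank ℂ (Lie kap ⊥ Θ) < Fintype.card ρ + Fintype.card τ ∧
    ∀ F : Finset (ρ ⊕ τ → ℂ), (∀ g ∈ F, g ∈ Γ) →
      (∀ g ∈ F, ∀ g' ∈ F, g - g' ∈ Grp kap L Θ → g = g') →
      F.card * (S + 1) ^ (finrank ℂ W - finrank ℂ (W ⊓ Lie kap L Θ : Submodule ℂ (ρ ⊕ τ → ℂ))) ≤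
        (Fintype.card ρ + Fintype.card τ) ^ (Fintype.card ρ + Fintype.card τ) *
        (T0 ^ (Fintype.card ρ - finrank ℂ L) *
          T1 ^ (Fintype.card τ - finrank ℂ (Lie kap ⊥ Θ)))

/-- from lists of generating derivations to the chain -/
def T_CHV : Prop := ∀ (σ ι ρ : Type) [Fintype σ] [DecidableEq σ] [Fintype ρ] (κ : σ → Bool)
  (o : ι → σ → ℂ) (γ : (ρ → ℤ) → σ → ℂ) (S M : ℕ) (P : MvPolynomial σ ℂ),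
  (∀ s s', γ (s + s') = γ s + γ s') → ∀ n : ℕ,
  (∀ s : ρ → ℤ, (∀ i, 0 ≤ s i ∧ s i ≤ n * M) → ∀ l : List ι, l.length ≤ n * S →
    eval (pt κ (γ s)) (l.foldr (fun a f => dv κ (o a) f) P) = 0) →
  ∀ f ∈ chn κ (Submodule.span ℂ (Set.range o)) (γ '' {s | ∀ i, 0 ≤ s i ∧ s i ≤ M}) S P n,
    eval (pt κ 0) f = 0

/-- number of classes of a box modulo a subgroup, lower bound -/
def T_CLB : Prop := ∀ (ρ : Type) [Fintype ρ] [DecidableEq ρ] (G : AddSubgroup (ρ → ℤ)) (M : ℕ),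
  ∃ F : Finset (ρ → ℤ), (∀ s ∈ F, ∀ i, 0 ≤ s i ∧ s i ≤ M) ∧
    (∀ s ∈ F, ∀ s' ∈ F, s - s' ∈ G → s = s') ∧
    (M + 1) ^ (Fintype.card ρ - finrank ℤ G) ≤ F.card

/-- short vectors -/
def T_SHV : Prop := ∀ (ρ : Type) [Fintype ρ] [DecidableEq ρ] (A : ℕ), ∃ K : ℕ,
  ∀ (G : AddSubgroup (ρ → ℤ)) (M : ℕ), K ≤ M →
  (∀ F : Finset (ρ → ℤ), (∀ s ∈ F, ∀ i, 0 ≤ s i ∧ s i ≤ M) →
    (∀ s ∈ F, ∀ s' ∈ F, s - s' ∈ G → s = s') →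
      F.card ≤ A * M ^ (Fintype.card ρ - finrank ℤ G)) →
  ∃ v : Fin (finrank ℤ G) → ρ → ℤ, (∀ j, v j ∈ G) ∧ (∀ j i, |v j i| ≤ K) ∧
    LinearIndependent ℤ v

/-! ### Part A: the auxiliary polynomial -/

/-- pigeonhole for complex linear forms -/
def T_PIG : Prop := ∀ (U V : Type) [Fintype U] [Fintype V] (a : V → U → ℂ) (Y X : ℝ) (K : ℕ),
  1 ≤ Y → 1 ≤ X → 1 ≤ K → 0 < Fintype.card V → (∀ v u, ‖a v u‖ ≤ Y) →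
  2 * (K + 1) * Fintype.card V ≤ Fintype.card U →
  ∃ (p : U → ℤ) (Z : ℝ), p ≠ 0 ∧ 1 ≤ Z ∧ (∀ u, |(p u : ℝ)| ≤ Z) ∧
    Z ^ K ≤ 4 * Fintype.card U * (X * Y) ∧
    ∀ v, X * ‖∑ u, a v u * (p u : ℂ)‖ ≤ 4 * Fintype.card U * Z

/-- Liouville inequality for integer polynomials in fixed algebraic numbers and their inverses -/
def T_LIF : Prop := ∀ (n : ℕ) (al : Fin n → ℂ), (∀ k, IsAlgebraic ℚ (al k)) → (∀ k, al k ≠ 0) →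
  ∃ (k : ℕ) (c : ℝ), 0 < c ∧ ∀ (U : Type) [Fintype U] (a : U → ℤ) (e : U → Fin n → ℤ) (Y : ℝ)
  (N : ℕ), 1 ≤ Y → (∑ u, |(a u : ℝ)|) ≤ Y → (∀ u j, |e u j| ≤ N) →
  (∑ u, (a u : ℂ) * ∏ j, al j ^ (e u j)) ≠ 0 →
  1 ≤ Y ^ k * Real.exp (c * N) * ‖∑ u, (a u : ℂ) * ∏ j, al j ^ (e u j)‖

/-- the auxiliary polynomial -/
def T_AN : Prop := ∀ (n : ℕ) (lam : Fin n → ℂ), (∀ k, IsAlgebraic ℚ (Complex.exp (lam k))) →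
  ∀ (ρ τ : Type) [Fintype ρ] [Fintype τ] [DecidableEq ρ] [DecidableEq τ] (c w : ℕ)
  (q : Fin n → ρ → τ → ℤ) (C0 : ℝ) (A B Q : ℕ), w ≤ c → A ≤ Q → 1 ≤ B → B ≤ Q →
  Fintype.card ρ * B + Fintype.card τ * A + 1 ≤ (c - w) * Q →
  ∃ g0 : ℕ, ∀ g : ℕ, g0 ≤ g → ∃ (C3 : ℝ) (h0 : ℕ), ∀ h : ℕ, h0 ≤ h →
  ∀ (ν : Fin c → τ) (k : ρ → Fin c → ℤ) (E : Fin c → τ → ℤ),
  (∀ l l', E l (ν l') = if l = l' then 1 else 0) →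
  (∀ i l, |(k i l : ℝ)| ≤ Real.exp (C0 * h)) → (∀ l a, |(E l a : ℝ)| ≤ Real.exp (C0 * h)) →
  ∀ (I : Fin w → ρ) (b : ρ → Fin w → ℂ), (∀ i j, ‖b i j‖ ≤ Real.exp (C0 * h)) →
  (∀ i l, ‖yy lam q k E i l - ∑ j, b i j * yy lam q k E (I j) l‖ ≤ Real.exp (-(C3 * h))) →
  ∃ P : MvPolynomial (ρ ⊕ τ) ℂ, P ≠ 0 ∧ P ∈ box (TT (h * g ^ (Q - B)) (g ^ (Q - A))) ∧
    ∀ s : ρ → ℤ, (∀ i, 0 ≤ s i ∧ s i ≤ h * g ^ A) → ∀ L : List (ρ ⊕ τ), L.length ≤ g ^ Q →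
      eval (pt kap (gam lam q s)) (L.foldr (fun a f => dv kap (om ν k E a) f) P) = 0

/-- choice of the exponents -/
def T_PAR : Prop := ∀ r d c w : ℕ, d * w < r * (c - w) → c ≤ d →
  ∃ A B Q : ℕ, 1 ≤ A ∧ A ≤ Q ∧ 1 ≤ B ∧ B ≤ Q ∧ r * B + d * A + 1 ≤ (c - w) * Q ∧
    c * Q + 1 ≤ r * (A + B) + d * A

/-! ### Part O: obstructions -/

/-- no relation with integer coefficients of size at most `A` -/
def Ind {J : Type} [Fintype J] (A : ℕ) (e : J → ℤ) : Prop :=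
  ∀ m : J → ℤ, (∀ a, |m a| ≤ A) → ∑ a, m a * e a = 0 → m = 0

/-- the torus part -/
def T_OBT : Prop := ∀ (J : Type) [Fintype J] [DecidableEq J] (c T1 : ℕ), ∃ A : ℕ,
  ∀ (e : J → ℤ), Ind A e → ∀ Θ : Set (Fin c × J → ℤ), (∀ u ∈ Θ, ∀ x, |u x| ≤ T1) →
  ∀ U : Submodule ℚ (Fin c × J → ℚ), (∀ v, v ∈ U ↔ ∀ u ∈ Θ, ∑ x, (u x : ℚ) * v x = 0) →
  finrank ℚ U ≤ Fintype.card J * finrank ℚ (U.map (LinearMap.pi (fun l : Fin c =>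
    ∑ a, (e a : ℚ) • LinearMap.proj (R := ℚ) (φ := fun _ : Fin c × J => ℚ) (l, a))))

/-- the additive part: `ρ` independent short vectors -/
def T_OBA : Prop := ∀ (J : Type) [Fintype J] [DecidableEq J] (l K : ℕ), ∃ A : ℕ,
  ∀ (e : J → ℤ), Ind A e → ∀ (m : ℕ) (v : Fin m → Fin l × J → ℤ), (∀ j x, |v j x| ≤ K) →
  LinearIndependent ℤ v → ∀ X : Submodule ℚ (Fin l → ℚ),
  (∀ j, (fun p => ∑ a, (e a : ℚ) * (v j (p, a) : ℚ)) ∈ X) → m ≤ Fintype.card J * finrank ℚ X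

/-- FINITE FORM of the main theorem -/
def T_FIN : Prop := ∀ (n : ℕ) (lam : Fin n → ℂ) (K : Set (Fin n)),
  (∀ k, IsAlgebraic ℚ (Complex.exp (lam k))) → MI lam K →
  ∀ (l c w : ℕ) (J' J : Type) [Fintype J'] [Fintype J] [DecidableEq J'] [DecidableEq J] (o : J)
  (q : Fin n → Fin l × J' → Fin c × J → ℤ) (m : ℤ) (C0 : ℝ), m ≠ 0 → w ≤ c →
  c * Fintype.card J * w < l * Fintype.card J' * (c - w) →
  ∃ (A0 : ℕ) (C3 : ℝ) (h0 : ℕ), ∀ h : ℕ, h0 ≤ h →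
  ∀ (e' : J' → ℤ) (e : J → ℤ) (A : Fin (n + 1) → Matrix (Fin l) (Fin c) ℤ),
  e o = 1 → Ind A0 e' → Ind A0 e →
  (∀ a, |(e' a : ℝ)| ≤ Real.exp (C0 * h)) → (∀ a, |(e a : ℝ)| ≤ Real.exp (C0 * h)) →
  (∀ k i j, |(A k i j : ℝ)| ≤ Real.exp (C0 * h)) →
  (∀ (k : Fin n) (p : Fin l) (a' : J') (j : Fin c),
    m * e' a' * A k.succ p j = ∑ a, q k (p, a') (j, a) * e a) →
  Semi K A →
  ∀ (I : Fin w → Fin l) (b : Fin l → Fin w → ℂ), (∀ i j, ‖b i j‖ ≤ Real.exp (C0 * h)) →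
  ¬ (∀ i j, ‖Mv lam A i j - ∑ x, b i x * Mv lam A (I x) j‖ ≤ Real.exp (-(C3 * h)))

/-! ### Part F: the limit argument -/

/-- spaces of polynomials of bounded degree in finitely many elements -/
def ED {F ι : Type} [Field F] [CharZero F] [Fintype ι] (be : ι → F) (D : ℕ) : Submodule ℚ F :=
  Submodule.span ℚ {x | ∃ m : ι → ℕ, ∑ i, m i ≤ D ∧ x = ∏ i, be i ^ m i}

/-- slow growth -/
def T_FOL : Prop := ∀ (F ι : Type) [Field F] [CharZero F] [Fintype ι] (be : ι → F) (a b : ℕ),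
  a < b → ∃ D : ℕ, a * finrank ℚ (ED be (D + 1)) < b * finrank ℚ (ED be D)

/-- the half rank theorem -/
def T_HR : Prop := T_FIN → HRG

/-- square pencils with nonzero determinant are semistable -/
def T_DSS : Prop := ∀ (n N : ℕ) (K : Set (Fin n)) (A : Fin (n + 1) → Matrix (Fin N) (Fin N) ℤ),
  (Matrix.of (fun i j => (C (A 0 i j : ℚ) : MvPolynomial (Fin n) ℚ) +
    ∑ k : Fin n, (open Classical in if k ∈ K then X k * C (A k.succ i j : ℚ) else 0))).det ≠ 0 →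
  Semi K A

end Pool.Agent.H72.HR
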